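import Pool.Agent.K1H84.MW.Inst

set_option autoImplicit false
set_option linter.unusedSectionVars false

/-! The three functions of the Hölder argument: representation and main terms. -/

namespace Pool.Agent.K1H84.MW

open Finset MeasureTheory Filter Topology
open Pool.Agent.H306R2 hiding fr
open Pool.Agent.TH535
open H295MK (fr mt cl)

noncomputable section

lemma idx {XH Xt : ℝ} (hH : 1 ≤ XH) (ht : 1 ≤ Xt) {N : ℕ} (hN : ⌊XH * Xt⌋₊ ≤ N) {a b : ℕ}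
    (ha : 1 ≤ a) (hb : 1 ≤ b) (ha2 : (a : ℝ) ≤ XH) (hb2 : (b : ℝ) ≤ Xt) : a * b ∈ Icc 1 N := by
  rw [mem_Icc]
  refine ⟨Nat.mul_pos ha hb, le_trans (Nat.le_floor ?_) hN⟩
  push_cast
  exact mul_le_mul ha2 hb2 (Nat.cast_nonneg _) (by linarith)

lemma Pq_qN (j : ℕ) (i : ℝ) (v : ArithmeticFunction ℝ) (XH Xt : ℝ) (hH : 1 ≤ XH) (ht : 1 ≤ Xt)
    {N : ℕ} (hN : ⌊XH * Xt⌋₊ ≤ N) (t : ℝ) :
    Pq N (qN j i v XH Xt) t = Vt v Xt t * (starRingEnd ℂ) (Ct j i XH Xt t) := by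
  unfold Pq qN
  rw [pair_sum (SPs XH Xt ×ˢ Icc 1 ⌊Xt⌋₊) (fun x => v x.2 / Real.sqrt x.2 * cc j i Xt x.1)
    (fun x => x.1.2) (fun x => x.2 * x.1.1) N ?_ ?_ (fun a b => fr a b t)]
  · unfold Vt Ct
    rw [map_sum, mul_comm, sum_mul_sum, sum_product]
    refine sum_congr rfl fun b hb => ?_
    refine sum_congr rfl fun n hn => ?_
    obtain ⟨h1, _, _, _, _⟩ := mem_SPs hb (by linarith) (by linarith)
    rw [map_mul, Complex.conj_ofReal, fr_conj, ← fr_mul' n b.1 b.2 (mem_Icc.1 hn).1 h1]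
    push_cast
    ring
  · intro x hx
    rw [mem_product] at hx
    obtain ⟨h1, h2, h3, h4, _⟩ := mem_SPs hx.1 (by linarith) (by linarith)
    have := idx hH ht hN (a := 1) (b := x.1.2) le_rfl h3 (by simpa using hH) h4
    rwa [one_mul] at this
  · intro x hx
    rw [mem_product, mem_Icc] at hx
    obtain ⟨h1, h2, h3, h4, _⟩ := mem_SPs hx.1 (by linarith) (by linarith)
    have h5 : (x.2 : ℝ) ≤ Xt := le_trans (by exact_mod_cast hx.2.2) (Nat.floor_le (by linarith))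
    have := idx hH ht hN h1 hx.2.1 h2 h5
    rwa [mul_comm] at this

lemma Dg_qN (j : ℕ) (i : ℝ) (v : ArithmeticFunction ℝ) (XH Xt : ℝ) (hH : 1 ≤ XH) (ht : 1 ≤ Xt)
    {N : ℕ} (hN : ⌊XH * Xt⌋₊ ≤ N) (hv : ∀ m : ℕ, Xt < m → v m = 0) :
    Dg j N (qN j i v XH Xt) = CR j i v XH Xt := by
  unfold Dg qN
  rw [pair_sumR (SPs XH Xt ×ˢ Icc 1 ⌊Xt⌋₊) (fun x => v x.2 / Real.sqrt x.2 * cc j i Xt x.1)
    (fun x => x.1.2) (fun x => x.2 * x.1.1) N ?_ ?_ (fun a b => mt j a b)]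
  · rw [← CR_main j i v XH Xt (by linarith) (by linarith) hv, sum_product]
  · intro x hx
    rw [mem_product] at hx
    obtain ⟨h1, h2, h3, h4, _⟩ := mem_SPs hx.1 (by linarith) (by linarith)
    have := idx hH ht hN (a := 1) (b := x.1.2) le_rfl h3 (by simpa using hH) h4
    rwa [one_mul] at this
  · intro x hx
    rw [mem_product, mem_Icc] at hx
    obtain ⟨h1, h2, h3, h4, _⟩ := mem_SPs hx.1 (by linarith) (by linarith)
    have h5 : (x.2 : ℝ) ≤ Xt := le_trans (by exact_mod_cast hx.2.2) (Nat.floor_le (by linarith))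
    have := idx hH ht hN h1 hx.2.1 h2 h5
    rwa [mul_comm] at this

lemma Pq_qC (j : ℕ) (i : ℝ) (XH Xt : ℝ) (hH : 1 ≤ XH) (ht : 1 ≤ Xt)
    {N : ℕ} (hN : ⌊XH * Xt⌋₊ ≤ N) (t : ℝ) :
    Pq N (qC j i XH Xt) t = ((‖Ct j i XH Xt t‖ ^ 2 : ℝ) : ℂ) := by
  unfold Pq qC
  rw [pair_sum (SPs XH Xt ×ˢ SPs XH Xt) (fun x => cc j i Xt x.1 * cc j i Xt x.2)
    (fun x => x.1.1 * x.2.2) (fun x => x.1.2 * x.2.1) N ?_ ?_ (fun a b => fr a b t)]
  · rw [normsq j i XH Xt (by linarith) (by linarith), sum_product]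
  · intro x hx
    rw [mem_product] at hx
    obtain ⟨h1, h2, h3, h4, _⟩ := mem_SPs hx.1 (by linarith) (by linarith)
    obtain ⟨k1, k2, k3, k4, _⟩ := mem_SPs hx.2 (by linarith) (by linarith)
    exact idx hH ht hN h1 k3 h2 k4
  · intro x hx
    rw [mem_product] at hx
    obtain ⟨h1, h2, h3, h4, _⟩ := mem_SPs hx.1 (by linarith) (by linarith)
    obtain ⟨k1, k2, k3, k4, _⟩ := mem_SPs hx.2 (by linarith) (by linarith)
    have := idx hH ht hN k1 h3 k2 h4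
    rwa [mul_comm] at this

lemma Dg_qC (j : ℕ) (i : ℝ) (XH Xt : ℝ) (hH : 1 ≤ XH) (ht : 1 ≤ Xt)
    {N : ℕ} (hN : ⌊XH * Xt⌋₊ ≤ N) :
    Dg 0 N (qC j i XH Xt) = ES j i XH Xt := by
  unfold Dg qC
  rw [pair_sumR (SPs XH Xt ×ˢ SPs XH Xt) (fun x => cc j i Xt x.1 * cc j i Xt x.2)
    (fun x => x.1.1 * x.2.2) (fun x => x.1.2 * x.2.1) N ?_ ?_ (fun a b => mt 0 a b)]
  · rw [sum_product]
    unfold ES
    refine sum_congr rfl fun b hb => ?_
    obtain ⟨p1, _, p2, _, p5⟩ := mem_SPs hb (by linarith) (by linarith)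
    rw [sum_eq_single b]
    · simp only
      rw [H295MK.mt_zero _ _ (Nat.mul_pos p1 p2) (Nat.mul_pos p2 p1), if_pos (mul_comm _ _)]
      ring
    · intro b' hb' hne
      obtain ⟨q1, _, q2, _, q5⟩ := mem_SPs hb' (by linarith) (by linarith)
      simp only
      rw [H295MK.mt_zero _ _ (Nat.mul_pos p1 q2) (Nat.mul_pos p2 q1), if_neg, mul_zero]
      intro heq
      exact hne (Pool.Agent.H578R2.MKR4.cop p1 p5 q5 heq).symm
    · intro hb'; exact absurd hb hb'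
  · intro x hx
    rw [mem_product] at hx
    obtain ⟨h1, h2, h3, h4, _⟩ := mem_SPs hx.1 (by linarith) (by linarith)
    obtain ⟨k1, k2, k3, k4, _⟩ := mem_SPs hx.2 (by linarith) (by linarith)
    exact idx hH ht hN h1 k3 h2 k4
  · intro x hx
    rw [mem_product] at hx
    obtain ⟨h1, h2, h3, h4, _⟩ := mem_SPs hx.1 (by linarith) (by linarith)
    obtain ⟨k1, k2, k3, k4, _⟩ := mem_SPs hx.2 (by linarith) (by linarith)
    have := idx hH ht hN k1 h3 k2 h4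
    rwa [mul_comm] at this

lemma Pq_qK (A : ArithmeticFunction ℝ) (Y : ℝ) (t : ℝ) :
    Pq ⌊Y⌋₊ (qK A) t = ((‖Dp A Y (1 / 2 + t * Complex.I)‖ ^ 2 : ℝ) : ℂ) := by
  have h1 : ∀ z : ℂ, (((‖z‖ ^ 2 : ℝ)) : ℂ) = z * (starRingEnd ℂ) z := by
    intro z
    rw [Complex.mul_conj, Complex.normSq_eq_norm_sq]
  rw [h1]
  unfold Pq Dp
  rw [map_sum, sum_mul_sum]
  refine sum_congr rfl fun a ha => sum_congr rfl fun b hb => ?_
  rw [mem_Icc] at ha hb
  rw [Pool.Agent.H802R2.MK.pt ha.1 hb.1, map_mul, Complex.conj_ofReal]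
  unfold qK
  have ha0 : (0 : ℝ) < a := by exact_mod_cast ha.1
  have hb0 : (0 : ℝ) < b := by exact_mod_cast hb.1
  have hs : Real.sqrt ((a : ℝ) * b) ≠ 0 := by positivity
  have hs' : ((Real.sqrt ((a : ℝ) * b) : ℝ) : ℂ) ≠ 0 := by exact_mod_cast hs
  push_cast
  field_simp

lemma Dg_qK (A : ArithmeticFunction ℝ) (N : ℕ) :
    Dg 0 N (qK A) = ∑ m ∈ Icc 1 N, A m * A m / m := by
  unfold Dg
  refine sum_congr rfl fun a ha => ?_
  rw [mem_Icc] at ha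
  have ha0 : (0 : ℝ) < a := by exact_mod_cast ha.1
  rw [sum_eq_single a]
  · rw [H295MK.mt_zero _ _ ha.1 ha.1, if_pos rfl, mul_one]
    unfold qK
    rw [Real.sqrt_mul_self ha0.le]
  · intro b hb hne
    rw [mem_Icc] at hb
    rw [H295MK.mt_zero _ _ ha.1 hb.1, if_neg (Ne.symm hne), mul_zero]
  · intro h
    exact absurd (mem_Icc.2 ha) h

/-- the window integral with `j = 0` -/
lemma Wq_real (N : ℕ) (q : ℕ → ℕ → ℝ) (F : ℝ → ℝ) (hF : ∀ t, Pq N q t = (F t : ℂ)) (U L τ : ℝ) :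
    Wq 0 N q U L τ = ((∫ t in (τ - U * L)..(τ + U * L), F t * gw τ U t : ℝ) : ℂ) := by
  unfold Wq
  rw [← intervalIntegral.integral_ofReal]
  refine intervalIntegral.integral_congr fun t _ => ?_
  rw [pow_zero, one_mul, hF]
  push_cast
  rfl

end

end Pool.Agent.K1H84.MW
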