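import Pool.Agent.H306R2.Gauss

set_option autoImplicit false

/-! Averages over windows: most windows contain few points of a small set. -/

namespace Pool.Agent.K1H84.MW

open MeasureTheory Filter Topology
open Pool.Agent.H306R2

noncomputable section

/-- most windows contain few points of a small set -/
theorem few_windows (E : Set ℝ) (hE : MeasurableSet E) (W ε : ℝ) (hW : 0 < W) (hε : 0 < ε) :
    volume {t : ℝ | ENNReal.ofReal (ε * W) ≤ volume (E ∩ Set.Icc t (t + W))} ≤
      volume E / ENNReal.ofReal ε := by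
  set S : Set (ℝ × ℝ) := {p | p.1 ≤ p.2 ∧ p.2 ≤ p.1 + W} with hS
  have hSm : MeasurableSet S := by
    have h1 : MeasurableSet {p : ℝ × ℝ | p.1 ≤ p.2} := measurableSet_le measurable_fst measurable_snd
    have h2 : MeasurableSet {p : ℝ × ℝ | p.2 ≤ p.1 + W} :=
      measurableSet_le measurable_snd (measurable_fst.add_const W)
    exact h1.inter h2
  set g : ℝ × ℝ → ENNReal := fun p => S.indicator 1 p * E.indicator 1 p.2 with hg
  have hgm : Measurable g := by
    refine (measurable_one.indicator hSm).mul ?_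
    exact (measurable_one.indicator hE).comp measurable_snd
  have hf : ∀ t : ℝ, volume (E ∩ Set.Icc t (t + W)) = ∫⁻ τ, g (t, τ) := by
    intro t
    have h1 : ∀ τ, g (t, τ) = (E ∩ Set.Icc t (t + W)).indicator 1 τ := by
      intro τ
      simp only [hg]
      by_cases h2 : τ ∈ E
      · by_cases h3 : τ ∈ Set.Icc t (t + W)
        · have h4 : (t, τ) ∈ S := h3
          have h5 : τ ∈ E ∩ Set.Icc t (t + W) := ⟨h2, h3⟩
          rw [Set.indicator_of_mem h4, Set.indicator_of_mem h2, Set.indicator_of_mem h5]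
          simp
        · have h4 : (t, τ) ∉ S := h3
          rw [Set.indicator_of_notMem h4, zero_mul, Set.indicator_of_notMem (fun h => h3 h.2)]
      · rw [Set.indicator_of_notMem h2, mul_zero, Set.indicator_of_notMem (fun h => h2 h.1)]
    simp_rw [h1]
    rw [lintegral_indicator_one (hE.inter measurableSet_Icc)]
  have hmeas : Measurable (fun t : ℝ => ∫⁻ τ, g (t, τ)) := hgm.lintegral_prod_right'
  have hint : ∫⁻ t, ∫⁻ τ, g (t, τ) = ENNReal.ofReal W * volume E := by
    rw [lintegral_lintegral_swap hgm.aemeasurable]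
    have h1 : ∀ τ : ℝ, ∫⁻ t, g (t, τ) = ENNReal.ofReal W * E.indicator 1 τ := by
      intro τ
      have h2 : ∀ t : ℝ, g (t, τ) = (Set.Icc (τ - W) τ).indicator 1 t * E.indicator 1 τ := by
        intro t
        simp only [hg]
        congr 1
        by_cases h3 : t ∈ Set.Icc (τ - W) τ
        · have h4 : (t, τ) ∈ S := ⟨h3.2, by linarith [h3.1]⟩
          rw [Set.indicator_of_mem h4, Set.indicator_of_mem h3]
          rfl
        · have h4 : (t, τ) ∉ S := fun h => h3 ⟨by linarith [h.2], h.1⟩
          rw [Set.indicator_of_notMem h4, Set.indicator_of_notMem h3]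
      simp_rw [h2]
      rw [lintegral_mul_const _ (measurable_one.indicator measurableSet_Icc),
        lintegral_indicator_one measurableSet_Icc, Real.volume_Icc]
      congr 2
      ring
    simp_rw [h1]
    rw [lintegral_const_mul _ (measurable_one.indicator hE), lintegral_indicator_one hE]
  have hεW : ENNReal.ofReal (ε * W) ≠ 0 := by
    rw [Ne, ENNReal.ofReal_eq_zero, not_le]
    positivity
  have h := meas_ge_le_lintegral_div (μ := volume) hmeas.aemeasurable hεW ENNReal.ofReal_ne_top
  rw [hint] at h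
  simp only [hf]
  refine h.trans (le_of_eq ?_)
  rw [ENNReal.ofReal_mul hε.le, mul_comm (ENNReal.ofReal ε)]
  rw [ENNReal.mul_div_mul_left _ _ (by
    rw [Ne, ENNReal.ofReal_eq_zero, not_le]; exact hW) ENNReal.ofReal_ne_top]

/-- averaging the lower bounds on short windows -/
theorem good_window (F : ℝ → ℝ) (hF : Continuous F) (hF0 : ∀ t, 0 ≤ F t) (E : Set ℝ)
    (hE : MeasurableSet E) (t W R u J ε : ℝ) (hu : 0 < u) (hR : 0 ≤ R) (hRW : 2 * R ≤ W) (hJ : 0 ≤ J)
    (hEW : volume (E ∩ Set.Icc t (t + W)) ≤ ENNReal.ofReal (ε * W)) (hε : 0 ≤ ε)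
    (h : ∀ τ ∈ Set.Icc (t + R) (t + W - R), τ ∉ E → J ≤ ∫ s in (τ - R)..(τ + R), F s * gw τ u s) :
    (W - 2 * R - ε * W) * J ≤ ∫ s in t..(t + W), F s := by
  have hW0 : 0 ≤ W := by linarith
  have h0 : 0 ≤ ∫ s in t..(t + W), F s :=
    intervalIntegral.integral_nonneg (by linarith) fun s _ => hF0 s
  set G : Set ℝ := Set.Icc (t + R) (t + W - R) \ E with hG
  have hGm : MeasurableSet G := measurableSet_Icc.diff hE
  have hw : Continuous (fun p : ℝ × ℝ => gw p.1 u p.2) := by
    unfold gw
    fun_prop
  have hmeasw : Measurable (fun p : ℝ × ℝ => ENNReal.ofReal (gw p.1 u p.2)) :=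
    (ENNReal.continuous_ofReal.comp hw).measurable
  have hmeasF : Measurable (fun s : ℝ => ENNReal.ofReal (F s)) :=
    (ENNReal.continuous_ofReal.comp hF).measurable
  have hvolG : ENNReal.ofReal (W - 2 * R - ε * W) ≤ volume G := by
    have h1 : volume (Set.Icc (t + R) (t + W - R)) ≤ volume G + volume (E ∩ Set.Icc t (t + W)) := by
      refine (measure_mono ?_).trans (measure_union_le _ _)
      intro s hs
      by_cases h2 : s ∈ E
      · exact Or.inr ⟨h2, by linarith [hs.1], by linarith [hs.2]⟩
      · exact Or.inl ⟨hs, h2⟩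
    rw [Real.volume_Icc] at h1
    have h2 := h1.trans (add_le_add le_rfl hEW)
    have h3 : ENNReal.ofReal (t + W - R - (t + R)) - ENNReal.ofReal (ε * W) ≤ volume G :=
      tsub_le_iff_right.2 h2
    refine le_trans ?_ h3
    rw [← ENNReal.ofReal_sub _ (by positivity)]
    exact ENNReal.ofReal_le_ofReal (by linarith)
  rcases le_total (W - 2 * R - ε * W) 0 with hneg | hpos
  · exact le_trans (mul_nonpos_of_nonpos_of_nonneg hneg hJ) h0
  rw [← ENNReal.ofReal_le_ofReal_iff h0, ENNReal.ofReal_mul hpos]
  have e1 : ENNReal.ofReal (∫ s in t..(t + W), F s) = ∫⁻ s in Set.Ioc t (t + W), ENNReal.ofReal (F s) := by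
    rw [intervalIntegral.integral_of_le (by linarith), ofReal_integral_eq_lintegral_ofReal]
    · exact (hF.integrableOn_Icc).mono_set Set.Ioc_subset_Icc_self
    · exact Eventually.of_forall fun s => hF0 s
  rw [e1]
  have e2 : volume G * ENNReal.ofReal J = ∫⁻ τ in G, ENNReal.ofReal J := by
    rw [setLIntegral_const, mul_comm]
  have e3 : ENNReal.ofReal (W - 2 * R - ε * W) * ENNReal.ofReal J ≤ volume G * ENNReal.ofReal J :=
    mul_le_mul' hvolG le_rfl
  refine e3.trans ?_
  rw [e2]
  calc ∫⁻ τ in G, ENNReal.ofReal J ≤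
      ∫⁻ τ in G, ∫⁻ s in Set.Ioc t (t + W), ENNReal.ofReal (F s) * ENNReal.ofReal (gw τ u s) := by
        refine setLIntegral_mono' hGm fun τ hτ => ?_
        refine (ENNReal.ofReal_le_ofReal (h τ hτ.1 hτ.2)).trans ?_
        have hwc : Continuous (fun s => gw τ u s) := gw_continuous _ _
        rw [intervalIntegral.integral_of_le (by linarith), ofReal_integral_eq_lintegral_ofReal]
        · refine (lintegral_mono_set ?_).trans (lintegral_mono fun s => ?_)
          · exact Set.Ioc_subset_Ioc (by linarith [hτ.1.1]) (by linarith [hτ.1.2])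
          · rw [ENNReal.ofReal_mul (hF0 s)]
        · exact ((hF.mul hwc).integrableOn_Icc).mono_set Set.Ioc_subset_Icc_self
        · exact Eventually.of_forall fun s => mul_nonneg (hF0 s) (gw_nonneg τ u s hu)
    _ ≤ ∫⁻ τ, ∫⁻ s in Set.Ioc t (t + W), ENNReal.ofReal (F s) * ENNReal.ofReal (gw τ u s) :=
        setLIntegral_le_lintegral _ _
    _ = ∫⁻ s in Set.Ioc t (t + W), ∫⁻ τ, ENNReal.ofReal (F s) * ENNReal.ofReal (gw τ u s) := by
        rw [lintegral_lintegral_swap]
        refine Measurable.aemeasurable ?_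
        exact (hmeasF.comp measurable_snd).mul hmeasw
    _ ≤ ∫⁻ s in Set.Ioc t (t + W), ENNReal.ofReal (F s) := by
        refine lintegral_mono fun s => ?_
        have hc : Continuous (fun τ : ℝ => gw τ u s) := by
          unfold gw
          fun_prop
        have hms : Measurable (fun τ : ℝ => ENNReal.ofReal (gw τ u s)) :=
          ENNReal.measurable_ofReal.comp hc.measurable
        rw [lintegral_const_mul _ hms]
        have h1 : ∫⁻ τ, ENNReal.ofReal (gw τ u s) = 1 := by
          have h2 : ∀ τ, gw τ u s = gw s u τ := fun τ => gw_symm _ _ _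
          simp only [h2]
          rw [← ofReal_integral_eq_lintegral_ofReal (gw_integrable _ _ hu)
            (Eventually.of_forall fun τ => gw_nonneg _ _ _ hu), gw_integral _ _ hu]
          simp
        rw [h1, mul_one]

end

end Pool.Agent.K1H84.MW
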