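import Pool.Agent.K1H84.MW.Typ

set_option autoImplicit false

/-! The measure of the heights with a large off-diagonal part. -/

namespace Pool.Agent.K1H84.MW

open Finset MeasureTheory Filter Topology
open Pool.Agent.H306R2

noncomputable section

lemma sum_sq_le (m : ℕ) {V : ℕ} (hV : 1 ≤ V) :
    ∑ g ∈ Icc 1 V, dv m g ^ 2 / g ≤ (1 + Real.log V) ^ (m ^ 2) := by
  refine le_trans (sum_le_sum fun g _ => ?_) (dv_sum_le (m ^ 2) hV)
  have h := dv_sq_le (Nat.cast_nonneg m : (0:ℝ) ≤ m) g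
  rw [Nat.cast_pow]
  exact div_le_div_of_nonneg_right h (Nat.cast_nonneg g)

lemma sum_four_le (m : ℕ) {V : ℕ} (hV : 1 ≤ V) :
    ∑ g ∈ Icc 1 V, dv m g ^ 4 / g ≤ (1 + Real.log V) ^ (m ^ 4) := by
  refine le_trans (sum_le_sum fun g _ => ?_) (dv_sum_le (m ^ 4) hV)
  have h := dv_four (Nat.cast_nonneg m : (0:ℝ) ≤ m) g
  rw [Nat.cast_pow]
  exact div_le_div_of_nonneg_right h (Nat.cast_nonneg g)

/-- the exponent of the logarithm -/
def c0 (m : ℕ) : ℕ := 2 * m ^ 2 + 1 + m ^ 4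

theorem bad_meas (j J K : ℕ) (hJ : 1 ≤ J) (x : ℝ) (hx : 0 < x) (hx2 : x < 1 / 2) :
    ∃ C : ℕ, ∀ᶠ T : ℝ in atTop, ∀ U : ℝ, 1 ≤ U → U ≤ T → ∀ N : ℕ, 1 ≤ N →
      (N : ℝ) ≤ T ^ (1 / 2 - x) → ∀ q : ℕ → ℕ → ℝ, (∀ a b, 0 ≤ q a b) →
      (∀ a b : ℕ, 1 ≤ a → 1 ≤ b →
        q a b ≤ Real.log T ^ K * (dv J a * dv J b / Real.sqrt ((a : ℝ) * b))) →
      volume {t : ℝ | t ∈ Set.Icc T (3 * T) ∧ 1 ≤ ‖Sz (Zn N) (ρq j N q U) t‖} ≤
        ENNReal.ofReal (T * Real.log T ^ C / U) := by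
  set m : ℕ := J + j with hm
  set c1 : ℕ := c0 m with hc1
  refine ⟨2 * K + c1 + 1, ?_⟩
  have hbig : ∀ᶠ T : ℝ in atTop, 5 * (3 * 2 ^ c1 + 1) ≤ Real.log T :=
    Real.tendsto_log_atTop.eventually_ge_atTop _
  have hlogT : ∀ᶠ T : ℝ in atTop, Real.log T ^ K ≤ T := by
    have h := (Real.isLittleO_pow_log_id_atTop (n := K)).bound one_pos
    filter_upwards [h, eventually_ge_atTop 1] with T h1 h2
    rw [one_mul, Real.norm_eq_abs, Real.norm_eq_abs, id, abs_of_nonneg (by linarith : (0:ℝ) ≤ T)] at h1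
    exact (le_abs_self _).trans h1
  have hpow2 : ∀ᶠ T : ℝ in atTop, 2 * T ^ (1 / 2 - x) ≤ T := by
    have h1 : ∀ᶠ T : ℝ in atTop, 2 ≤ T ^ (1 / 2 + x) :=
      (tendsto_rpow_atTop (by linarith)).eventually_ge_atTop 2
    filter_upwards [h1, eventually_gt_atTop 0] with T h1 h2
    calc 2 * T ^ (1 / 2 - x) ≤ T ^ (1 / 2 + x) * T ^ (1 / 2 - x) := by
          gcongr
      _ = T := by
          rw [← Real.rpow_add h2]
          norm_num
  filter_upwards [small_ev (4 * m + 8) (1 / 64) (2 * x) 1 (by norm_num) (by linarith), hbig, hlogT, hpow2,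
    eventually_ge_atTop 1] with T hsmall hbig hlogT hpow2 hT1 U hU1 hUT N hN1 hN q hq0 hq
  have hT0 : 0 < T := by linarith
  have hU0 : 0 < U := by linarith
  set L := Real.log T with hL
  have hL1 : 1 ≤ L := by
    have : (1:ℝ) ≤ 5 * (3 * 2 ^ c1 + 1) := by
      have : (1:ℝ) ≤ 2 ^ c1 := one_le_pow₀ (by norm_num)
      linarith
    linarith
  set V : ℕ := 2 * N with hV
  have hV1 : 1 ≤ V := by omega
  have hVT : (V : ℝ) ≤ T := by
    rw [hV]; push_cast; linarith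
  have hV0 : (0 : ℝ) < V := by exact_mod_cast hV1
  have hlV : 1 + Real.log V ≤ 2 * L := by
    have : Real.log V ≤ L := Real.log_le_log hV0 hVT
    linarith
  have hlV0 : 0 ≤ Real.log V := Real.log_natCast_nonneg V
  set M : ℝ := L ^ K with hM
  have hM0 : 0 ≤ M := by positivity
  set ρ := ρq j N q U with hρ
  have hD : ∀ n, 0 ≤ dv (m : ℝ) n := fun n => dv_nonneg (Nat.cast_nonneg m) n
  have hm1 : (1 : ℝ) ≤ (m : ℝ) := by
    have : 1 ≤ m := by omega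
    exact_mod_cast this
  have hDm : ∀ a b, dv (m : ℝ) (a * b) ≤ dv (m : ℝ) a * dv (m : ℝ) b := dv_mul_le hm1
  have hρ0 : ∀ z ∈ Zn N, 0 ≤ ρ z := fun z _ =>
    mul_nonneg (rq_nonneg j N q hq0 _ _) (Real.exp_pos _).le
  have hρ1 : ∀ z ∈ Zn N, ρ z ≤ M * cb (fun n => dv (m : ℝ) n) U z.1 z.2 := by
    intro z hz
    obtain ⟨h1, h2, h3, h4, h5⟩ := mem_Zn hz
    have h6 := rq_le j N J q M hM0 hq h1 h3
    rw [hρ]
    unfold ρq cb
    rw [← mul_assoc]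
    exact mul_le_mul_of_nonneg_right h6 (Real.exp_pos _).le
  have hZ : ∀ z ∈ Zn N, 1 ≤ z.1 ∧ z.1 ≤ V ∧ 1 ≤ z.2 ∧ z.2 ≤ V ∧ z.1 ≠ z.2 := fun z hz => mem_Zn hz
  have hcs := class_sum (D := fun n => dv (m : ℝ) n) hD hDm V M U hU0 hM0 (Zn N) hZ ρ hρ0 hρ1
  have hms := mean_sq (Zn N) ρ (2 * T) T hT0 V (fun z hz => by
    obtain ⟨h1, h2, h3, h4, _⟩ := mem_Zn hz
    exact ⟨h1, h2, h3, h4⟩) hρ0
  -- first part
  have hS1 : M ^ 2 * (∑ g ∈ Icc 1 V, dv (m : ℝ) g ^ 2 / g) ^ 2 *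
        (3 * (1 + Real.log V) / U * ∑ a ∈ Icc 1 V, dv (m : ℝ) a ^ 4 / a) ≤
      3 * 2 ^ c1 * (L ^ (2 * K + c1) / U) := by
    have a1 := sum_sq_le m hV1
    have a2 := sum_four_le m hV1
    have a3 : 0 ≤ ∑ g ∈ Icc 1 V, dv (m : ℝ) g ^ 2 / g :=
      sum_nonneg fun g _ => by positivity
    have a4 : 0 ≤ ∑ g ∈ Icc 1 V, dv (m : ℝ) g ^ 4 / g :=
      sum_nonneg fun g _ => by positivity
    have a5 : ∑ g ∈ Icc 1 V, dv (m : ℝ) g ^ 2 / g ≤ (2 * L) ^ (m ^ 2) :=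
      a1.trans (pow_le_pow_left₀ (by linarith) hlV _)
    have a6 : ∑ g ∈ Icc 1 V, dv (m : ℝ) g ^ 4 / g ≤ (2 * L) ^ (m ^ 4) :=
      a2.trans (pow_le_pow_left₀ (by linarith) hlV _)
    calc _ ≤ M ^ 2 * ((2 * L) ^ (m ^ 2)) ^ 2 * (3 * (2 * L) / U * (2 * L) ^ (m ^ 4)) := by
          gcongr
      _ = 3 * (M ^ 2 * (2 * L) ^ c1) / U := by
          have e1 : (2 * L) ^ c1 = ((2 * L) ^ (m ^ 2)) ^ 2 * (2 * L) * (2 * L) ^ (m ^ 4) := by
            rw [hc1, c0, ← pow_mul, ← pow_succ, ← pow_add]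
            congr 1
            ring
          rw [e1]
          ring
      _ = _ := by
          rw [hM, ← pow_mul, mul_pow]
          rw [show K * 2 = 2 * K by ring, pow_add]
          ring
  -- second part
  have hS2 : (∑ z ∈ Zn N, ρ z) ^ 2 * Real.exp (-(T ^ 2 / (4 * (V : ℝ) ^ 4))) ≤ 1 / T := by
    have b1 : ∀ z ∈ Zn N, ρ z ≤ T ^ (2 * m + 1) := by
      intro z hz
      obtain ⟨h1, h2, h3, h4, h5⟩ := mem_Zn hz
      have d : ∀ n : ℕ, n ≤ V → dv (m : ℝ) n ≤ T ^ m := by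
        intro n hn
        have h := PB_dA (Nat.cast_nonneg m : (0:ℝ) ≤ m) (le_refl (m : ℝ)) n
        rw [dA_apply] at h
        refine (le_abs_self _).trans (h.trans (pow_le_pow_left₀ (Nat.cast_nonneg n) ?_ m))
        exact le_trans (by exact_mod_cast hn) hVT
      have d1 := d z.1 h2
      have d2 := d z.2 h4
      have h6 := hρ1 z hz
      have h7 : cb (fun n => dv (m : ℝ) n) U z.1 z.2 ≤ T ^ m * T ^ m := by
        unfold cb
        have z1 : (1 : ℝ) ≤ z.1 := by exact_mod_cast h1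
        have z2 : (1 : ℝ) ≤ z.2 := by exact_mod_cast h3
        have hs : 1 ≤ Real.sqrt ((z.1 : ℝ) * z.2) := Real.one_le_sqrt.2 (by nlinarith)
        have he : Real.exp (-(U ^ 2 * (Real.log z.2 - Real.log z.1) ^ 2 / 4)) ≤ 1 := by
          rw [Real.exp_le_one_iff]
          have : 0 ≤ U ^ 2 * (Real.log z.2 - Real.log z.1) ^ 2 / 4 := by positivity
          linarith
        have hp := mul_nonneg (hD z.1) (hD z.2)
        calc dv (m : ℝ) z.1 * dv (m : ℝ) z.2 / Real.sqrt ((z.1 : ℝ) * z.2) *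
              Real.exp (-(U ^ 2 * (Real.log z.2 - Real.log z.1) ^ 2 / 4)) ≤
              dv (m : ℝ) z.1 * dv (m : ℝ) z.2 / Real.sqrt ((z.1 : ℝ) * z.2) * 1 := by gcongr
          _ ≤ dv (m : ℝ) z.1 * dv (m : ℝ) z.2 := by
              rw [mul_one]
              exact div_le_self hp hs
          _ ≤ _ := mul_le_mul d1 d2 (hD _) (by positivity)
      calc ρ z ≤ M * (T ^ m * T ^ m) := h6.trans (mul_le_mul_of_nonneg_left h7 hM0)
        _ ≤ T * (T ^ m * T ^ m) := by gcongr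
        _ = T ^ (2 * m + 1) := by ring
    have b2 : ((Zn N).card : ℝ) ≤ T ^ 2 := by
      have h1 : (Zn N).card ≤ V * N := by
        unfold Zn
        refine (card_filter_le _ _).trans ?_
        rw [card_product, Nat.card_Icc, Nat.card_Icc, Nat.add_sub_cancel, Nat.add_sub_cancel]
      have h2 : (N : ℝ) ≤ T := le_trans (by exact_mod_cast (by omega : N ≤ V)) hVT
      calc ((Zn N).card : ℝ) ≤ ((V * N : ℕ) : ℝ) := by exact_mod_cast h1
        _ = (V : ℝ) * N := by push_cast; rfl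
        _ ≤ T * T := mul_le_mul hVT h2 (Nat.cast_nonneg _) hT0.le
        _ = T ^ 2 := by ring
    have b3 : ∑ z ∈ Zn N, ρ z ≤ T ^ (2 * m + 3) := by
      refine (sum_le_card_nsmul _ _ _ b1).trans ?_
      rw [nsmul_eq_mul]
      calc ((Zn N).card : ℝ) * T ^ (2 * m + 1) ≤ T ^ 2 * T ^ (2 * m + 1) := by gcongr
        _ = _ := by rw [← pow_add]; congr 1; ring
    have b4 : 0 ≤ ∑ z ∈ Zn N, ρ z := sum_nonneg hρ0
    have b5 : Real.exp (-(T ^ 2 / (4 * (V : ℝ) ^ 4))) ≤ Real.exp (-(1 / 64 * T ^ (2 * (2 * x)))) := by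
      refine Real.exp_le_exp.2 (neg_le_neg ?_)
      have h1 : (V : ℝ) ^ 4 ≤ 16 * T ^ (2 - 4 * x) := by
        have h2 : (V : ℝ) ≤ 2 * T ^ (1 / 2 - x) := by
          rw [hV]; push_cast; linarith
        calc (V : ℝ) ^ 4 ≤ (2 * T ^ (1 / 2 - x)) ^ 4 := pow_le_pow_left₀ hV0.le h2 4
          _ = 16 * T ^ (2 - 4 * x) := by
              rw [mul_pow, ← Real.rpow_natCast (T ^ (1 / 2 - x)) 4, ← Real.rpow_mul hT0.le]
              norm_num
              congr 1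
              ring
      rw [le_div_iff₀ (by positivity)]
      calc 1 / 64 * T ^ (2 * (2 * x)) * (4 * (V : ℝ) ^ 4) ≤
          1 / 64 * T ^ (2 * (2 * x)) * (4 * (16 * T ^ (2 - 4 * x))) := by gcongr
        _ = T ^ (2 * (2 * x)) * T ^ (2 - 4 * x) := by ring
        _ = T ^ 2 := by
            rw [← Real.rpow_add hT0, ← Real.rpow_natCast T 2]
            congr 1
            push_cast
            ring
    have b6 : T * ((T ^ (2 * m + 3)) ^ 2 * Real.exp (-(1 / 64 * T ^ (2 * (2 * x))))) ≤ 1 := by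
      refine le_trans ?_ hsmall
      rw [one_mul, ← pow_mul, ← mul_assoc, ← pow_succ']
      refine mul_le_mul_of_nonneg_right ?_ (Real.exp_pos _).le
      exact pow_le_pow_right₀ hT1 (by omega)
    rw [le_div_iff₀ hT0]
    refine le_trans ?_ b6
    rw [mul_comm]
    gcongr
  refine (cheb (Zn N) ρ T hT0).trans (ENNReal.ofReal_le_ofReal ?_)
  have hI : ∫ t : ℝ, ‖Sz (Zn N) ρ t‖ ^ 2 * gw (2 * T) T t ≤
      (3 * 2 ^ c1 + 1) * (L ^ (2 * K + c1) / U) := by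
    have h1 : 1 / T ≤ L ^ (2 * K + c1) / U := by
      have h2 : 1 ≤ L ^ (2 * K + c1) := one_le_pow₀ hL1
      calc 1 / T ≤ 1 / U := one_div_le_one_div_of_le hU0 hUT
        _ ≤ _ := by gcongr
    have h3 := hcs.trans hS1
    have h4 := hms.trans (add_le_add h3 hS2)
    calc _ ≤ 3 * 2 ^ c1 * (L ^ (2 * K + c1) / U) + 1 / T := h4
      _ ≤ 3 * 2 ^ c1 * (L ^ (2 * K + c1) / U) + L ^ (2 * K + c1) / U := by linarith
      _ = _ := by ring
  calc 5 * T * ∫ t : ℝ, ‖Sz (Zn N) ρ t‖ ^ 2 * gw (2 * T) T t ≤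
      5 * T * ((3 * 2 ^ c1 + 1) * (L ^ (2 * K + c1) / U)) := by gcongr
    _ = T * (L ^ (2 * K + c1) * (5 * (3 * 2 ^ c1 + 1))) / U := by ring
    _ ≤ T * (L ^ (2 * K + c1) * L) / U := by gcongr
    _ = _ := by rw [← pow_succ]

end

end Pool.Agent.K1H84.MW
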