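import Pool.Agent.K1H84.MW.Dv

set_option autoImplicit false

/-! Sums over the pairs of pairs with the same ratio, off the diagonal. -/

namespace Pool.Agent.K1H84.MW

open Finset
open Pool.Agent.H306R2

noncomputable section

lemma exp_le_inv {U θ : ℝ} (hU : 0 < U) (hθ : θ ≠ 0) :
    Real.exp (-(U ^ 2 * θ ^ 2 / 2)) ≤ 1 / (U * |θ|) := by
  set x := U * |θ| with hx
  have hx0 : 0 < x := mul_pos hU (abs_pos.2 hθ)
  have e1 : U ^ 2 * θ ^ 2 = x ^ 2 := by rw [hx, mul_pow, sq_abs]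
  rw [e1, Real.exp_neg, ← one_div]
  apply one_div_le_one_div_of_le hx0
  have h1 := Real.add_one_le_exp (x ^ 2 / 2)
  nlinarith [sq_nonneg (x - 1)]

lemma log_lower {a b : ℕ} (ha : 1 ≤ a) (hb : 1 ≤ b) :
    |(a : ℝ) - b| / max (a : ℝ) b ≤ |Real.log b - Real.log a| := by
  have key : ∀ x y : ℝ, 0 < x → x ≤ y → |x - y| / max x y ≤ |Real.log y - Real.log x| := by
    intro x y hx hxy
    have hy : 0 < y := by linarith
    rw [max_eq_right hxy, abs_of_nonpos (by linarith), ← Real.log_div hy.ne' hx.ne']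
    have h1 := Real.one_sub_inv_le_log_of_pos (show 0 < y / x by positivity)
    rw [inv_div] at h1
    have h2 : -(x - y) / y = 1 - x / y := by field_simp; ring
    rw [h2]
    exact h1.trans (le_abs_self _)
  have ha0 : (0 : ℝ) < a := by exact_mod_cast ha
  have hb0 : (0 : ℝ) < b := by exact_mod_cast hb
  rcases le_total (a : ℝ) b with h | h
  · exact key a b ha0 h
  · have := key b a hb0 h
    rwa [abs_sub_comm, max_comm, abs_sub_comm (Real.log a)] at this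

/-- the kernel -/
def kr (a b : ℕ) : ℝ := max (a : ℝ) b / ((a : ℝ) * b * |(a : ℝ) - b|)

lemma kr_nonneg (a b : ℕ) : 0 ≤ kr a b := by unfold kr; positivity

lemma kr_symm (a b : ℕ) : kr a b = kr b a := by
  unfold kr
  rw [max_comm, abs_sub_comm, mul_comm (a : ℝ) b]

lemma kr_le {a b : ℕ} (ha : 1 ≤ a) (hb : 1 ≤ b) (hab : a ≠ b) :
    kr a b ≤ 1 / a * (1 / b + 1 / |(a : ℝ) - b|) := by
  have ha0 : (0 : ℝ) < a := by exact_mod_cast ha
  have hb0 : (0 : ℝ) < b := by exact_mod_cast hb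
  have hne : (a : ℝ) - b ≠ 0 := sub_ne_zero.2 (by exact_mod_cast hab)
  have hd : 0 < |(a : ℝ) - b| := abs_pos.2 hne
  have e : kr a b = 1 / a * (max (a : ℝ) b / (b * |(a : ℝ) - b|)) := by
    unfold kr
    field_simp
  rw [e]
  refine mul_le_mul_of_nonneg_left ?_ (by positivity)
  rw [div_add_div _ _ hb0.ne' hd.ne']
  refine div_le_div_of_nonneg_right ?_ (by positivity)
  rcases le_total (a : ℝ) b with h | h
  · rw [max_eq_right h]; linarith
  · rw [max_eq_left h, abs_of_nonneg (by linarith)]; linarith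

lemma inv_abs_sum (V a : ℕ) (ha : a ∈ Icc 1 V) :
    ∑ b ∈ (Icc 1 V).erase a, 1 / |(a : ℝ) - b| ≤ 2 * ∑ l ∈ Icc 1 V, (1 : ℝ) / l := by
  rw [mem_Icc] at ha
  have hsplit : ∑ b ∈ (Icc 1 V).erase a, 1 / |(a : ℝ) - b| =
      ∑ b ∈ ((Icc 1 V).erase a).filter (fun b => b < a), 1 / |(a : ℝ) - b| +
      ∑ b ∈ ((Icc 1 V).erase a).filter (fun b => ¬ b < a), 1 / |(a : ℝ) - b| :=
    (sum_filter_add_sum_filter_not _ _ _).symm
  have h1 : ∑ b ∈ ((Icc 1 V).erase a).filter (fun b => b < a), 1 / |(a : ℝ) - b| ≤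
      ∑ l ∈ Icc 1 V, (1 : ℝ) / l := by
    have e1 : ∀ b ∈ ((Icc 1 V).erase a).filter (fun b => b < a),
        1 / |(a : ℝ) - b| = (fun l : ℕ => (1 : ℝ) / l) (a - b) := by
      intro b hb
      rw [mem_filter] at hb
      have hlt := hb.2
      simp only
      rw [Nat.cast_sub hlt.le, abs_of_pos]
      have : (b : ℝ) < a := by exact_mod_cast hlt
      linarith
    rw [sum_congr rfl e1, ← sum_image (f := fun l : ℕ => (1 : ℝ) / l)]
    · refine sum_le_sum_of_subset_of_nonneg ?_ fun l _ _ => by positivity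
      intro l hl
      rw [mem_image] at hl
      obtain ⟨b, hb, rfl⟩ := hl
      rw [mem_filter, mem_erase, mem_Icc] at hb
      rw [mem_Icc]
      omega
    · intro x hx y hy hxy
      rw [mem_coe, mem_filter, mem_erase, mem_Icc] at hx hy
      have hxy' : a - x = a - y := hxy
      omega
  have h2 : ∑ b ∈ ((Icc 1 V).erase a).filter (fun b => ¬ b < a), 1 / |(a : ℝ) - b| ≤
      ∑ l ∈ Icc 1 V, (1 : ℝ) / l := by
    have e1 : ∀ b ∈ ((Icc 1 V).erase a).filter (fun b => ¬ b < a),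
        1 / |(a : ℝ) - b| = (fun l : ℕ => (1 : ℝ) / l) (b - a) := by
      intro b hb
      rw [mem_filter, mem_erase, mem_Icc] at hb
      have hlt : a < b := by omega
      simp only
      rw [Nat.cast_sub hlt.le, abs_of_neg, neg_sub]
      have : (a : ℝ) < b := by exact_mod_cast hlt
      linarith
    rw [sum_congr rfl e1, ← sum_image (f := fun l : ℕ => (1 : ℝ) / l)]
    · refine sum_le_sum_of_subset_of_nonneg ?_ fun l _ _ => by positivity
      intro l hl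
      rw [mem_image] at hl
      obtain ⟨b, hb, rfl⟩ := hl
      rw [mem_filter, mem_erase, mem_Icc] at hb
      rw [mem_Icc]
      omega
    · intro x hx y hy hxy
      rw [mem_coe, mem_filter, mem_erase, mem_Icc] at hx hy
      have hxy' : x - a = y - a := hxy
      omega
  rw [hsplit]
  linarith

lemma kr_sum (V a : ℕ) (ha : a ∈ Icc 1 V) :
    ∑ b ∈ (Icc 1 V).erase a, kr a b ≤ 1 / a * (3 * (1 + Real.log V)) := by
  have ha' := mem_Icc.1 ha
  have hV : 1 ≤ V := ha'.1.trans ha'.2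
  have h1 : ∑ b ∈ (Icc 1 V).erase a, kr a b ≤
      ∑ b ∈ (Icc 1 V).erase a, 1 / (a : ℝ) * (1 / b + 1 / |(a : ℝ) - b|) := by
    refine sum_le_sum fun b hb => ?_
    rw [mem_erase, mem_Icc] at hb
    exact kr_le ha'.1 hb.2.1 (Ne.symm hb.1)
  refine h1.trans ?_
  rw [← mul_sum]
  refine mul_le_mul_of_nonneg_left ?_ (by positivity)
  rw [sum_add_distrib]
  have h2 : ∑ b ∈ (Icc 1 V).erase a, 1 / (b : ℝ) ≤ ∑ b ∈ Icc 1 V, 1 / (b : ℝ) :=
    sum_le_sum_of_subset_of_nonneg (erase_subset _ _) fun l _ _ => by positivity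
  have h3 := inv_abs_sum V a ha
  have h4 := harm_le hV
  linarith

/-- the sum over the ratios different from `1` -/
lemma off_sum (D : ℕ → ℝ) (V : ℕ) (U : ℝ) (hU : 0 < U) :
    ∑ a ∈ Icc 1 V, ∑ b ∈ (Icc 1 V).erase a, D a ^ 2 * D b ^ 2 / ((a : ℝ) * b) *
      Real.exp (-(U ^ 2 * (Real.log b - Real.log a) ^ 2 / 2)) ≤
    3 * (1 + Real.log V) / U * ∑ a ∈ Icc 1 V, D a ^ 4 / a := by
  have h1 : ∀ a ∈ Icc 1 V, ∀ b ∈ (Icc 1 V).erase a, D a ^ 2 * D b ^ 2 / ((a : ℝ) * b) *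
      Real.exp (-(U ^ 2 * (Real.log b - Real.log a) ^ 2 / 2)) ≤
      1 / U * (1 / 2 * (D a ^ 4 * kr a b) + 1 / 2 * (D b ^ 4 * kr a b)) := by
    intro a ha b hb
    rw [mem_Icc] at ha
    rw [mem_erase, mem_Icc] at hb
    have ha0 : (0 : ℝ) < a := by exact_mod_cast ha.1
    have hb0 : (0 : ℝ) < b := by exact_mod_cast hb.2.1
    have hne : (a : ℝ) - b ≠ 0 := sub_ne_zero.2 (by exact_mod_cast (Ne.symm hb.1))
    have hd : 0 < |(a : ℝ) - b| := abs_pos.2 hne
    have hll := log_lower ha.1 hb.2.1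
    have hmx : 0 < max (a : ℝ) b := lt_max_of_lt_left ha0
    have hpos : 0 < |(a : ℝ) - b| / max (a : ℝ) b := by positivity
    have hθ : Real.log b - Real.log a ≠ 0 := abs_pos.1 (hpos.trans_le hll)
    have h2 := exp_le_inv hU hθ
    have h3 : 1 / (U * |Real.log b - Real.log a|) ≤ 1 / (U * (|(a : ℝ) - b| / max (a : ℝ) b)) :=
      one_div_le_one_div_of_le (by positivity) (mul_le_mul_of_nonneg_left hll hU.le)
    have h4 : D a ^ 2 * D b ^ 2 / ((a : ℝ) * b) * (1 / (U * (|(a : ℝ) - b| / max (a : ℝ) b))) =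
        1 / U * (D a ^ 2 * D b ^ 2 * kr a b) := by
      unfold kr
      field_simp
    have h5 : D a ^ 2 * D b ^ 2 ≤ 1 / 2 * D a ^ 4 + 1 / 2 * D b ^ 4 := by
      nlinarith [sq_nonneg (D a ^ 2 - D b ^ 2)]
    have h6 := kr_nonneg a b
    calc _ ≤ D a ^ 2 * D b ^ 2 / ((a : ℝ) * b) * (1 / (U * (|(a : ℝ) - b| / max (a : ℝ) b))) := by
          refine mul_le_mul_of_nonneg_left (h2.trans h3) ?_
          positivity
      _ = 1 / U * (D a ^ 2 * D b ^ 2 * kr a b) := h4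
      _ ≤ 1 / U * ((1 / 2 * D a ^ 4 + 1 / 2 * D b ^ 4) * kr a b) := by
          gcongr
      _ = _ := by ring
  refine (sum_le_sum fun a ha => sum_le_sum fun b hb => h1 a ha b hb).trans ?_
  have hS : ∑ a ∈ Icc 1 V, ∑ b ∈ (Icc 1 V).erase a, D b ^ 4 * kr a b =
      ∑ a ∈ Icc 1 V, ∑ b ∈ (Icc 1 V).erase a, D a ^ 4 * kr a b := by
    have e1 : ∀ (F : ℕ → ℕ → ℝ), ∑ a ∈ Icc 1 V, ∑ b ∈ (Icc 1 V).erase a, F a b =
        ∑ a ∈ Icc 1 V, ∑ b ∈ Icc 1 V, if a ≠ b then F a b else 0 := by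
      intro F
      refine sum_congr rfl fun a _ => ?_
      rw [← sum_filter]
      refine sum_congr ?_ fun _ _ => rfl
      ext b
      rw [mem_erase, mem_filter]
      constructor
      · rintro ⟨h1, h2⟩; exact ⟨h2, Ne.symm h1⟩
      · rintro ⟨h1, h2⟩; exact ⟨Ne.symm h2, h1⟩
    rw [e1, e1, sum_comm]
    refine sum_congr rfl fun a _ => sum_congr rfl fun b _ => ?_
    by_cases h : a = b
    · subst h; simp
    · rw [if_pos h, if_pos (Ne.symm h), kr_symm]
  simp only [← mul_sum, sum_add_distrib]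
  simp only [← mul_sum] at hS
  rw [hS]
  have h7 : ∀ a ∈ Icc 1 V, D a ^ 4 * ∑ b ∈ (Icc 1 V).erase a, kr a b ≤
      3 * (1 + Real.log V) * (D a ^ 4 / a) := by
    intro a ha
    have := kr_sum V a ha
    calc D a ^ 4 * ∑ b ∈ (Icc 1 V).erase a, kr a b ≤ D a ^ 4 * (1 / a * (3 * (1 + Real.log V))) :=
          mul_le_mul_of_nonneg_left this (by positivity)
      _ = _ := by ring
  have h8 := sum_le_sum h7
  rw [← mul_sum] at h8
  have h9 : 0 < 1 / U := by positivity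
  calc _ = 1 / U * ∑ a ∈ Icc 1 V, D a ^ 4 * ∑ b ∈ (Icc 1 V).erase a, kr a b := by ring
    _ ≤ 1 / U * (3 * (1 + Real.log V) * ∑ a ∈ Icc 1 V, D a ^ 4 / a) := by gcongr
    _ = _ := by ring

end

end Pool.Agent.K1H84.MW
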