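import Pool.Agent.TH535.Wt

set_option autoImplicit false

/-! Elementary bounds for the divisor functions `dv`. -/

namespace Pool.Agent.K1H84.MW

open Finset
open Pool.Agent.H306R2
open Pool.Agent.TH535 (sub_mul)

noncomputable section

lemma dv_eq_prod (α : ℝ) {n : ℕ} (hn : n ≠ 0) {s : Finset ℕ} (hs : n.primeFactors ⊆ s) :
    dv α n = ∏ p ∈ s, lc α (n.factorization p) := by
  unfold dv
  rw [if_neg hn]
  unfold Finsupp.prod
  rw [Nat.support_factorization]
  refine prod_subset hs fun p _ hp => ?_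
  rw [← Nat.support_factorization, Finsupp.notMem_support_iff] at hp
  rw [hp]
  exact lc_zero α

/-- submultiplicativity -/
lemma dv_mul_le {α : ℝ} (hα : 1 ≤ α) (m n : ℕ) : dv α (m * n) ≤ dv α m * dv α n := by
  have h0 : 0 ≤ dv α m * dv α n := mul_nonneg (dv_nonneg (by linarith) _) (dv_nonneg (by linarith) _)
  rcases eq_or_ne m 0 with hm | hm
  · subst hm
    rw [zero_mul]
    have : dv α 0 = 0 := by simp [dv]
    rw [this, zero_mul]
  rcases eq_or_ne n 0 with hn | hn
  · subst hn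
    rw [mul_zero]
    have : dv α 0 = 0 := by simp [dv]
    rw [this, mul_zero]
  have hs : (m * n).primeFactors = m.primeFactors ∪ n.primeFactors := Nat.primeFactors_mul hm hn
  rw [dv_eq_prod α (Nat.mul_ne_zero hm hn) (le_of_eq hs),
    dv_eq_prod α hm (subset_union_left (s₂ := n.primeFactors)),
    dv_eq_prod α hn (subset_union_right (s₁ := m.primeFactors)), ← prod_mul_distrib]
  refine prod_le_prod (fun p _ => lc_nonneg (by linarith) _) fun p _ => ?_
  rw [Nat.factorization_mul hm hn, Finsupp.add_apply]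
  exact sub_mul hα _ _

lemma dv_ge_one {α : ℝ} (hα : 1 ≤ α) {n : ℕ} (hn : n ≠ 0) : 1 ≤ dv α n := by
  rw [dv_eq_prod α hn (subset_refl _)]
  have h1 : ∀ m, 1 ≤ lc α m := by
    intro m
    have := lc_mono (α := 1) (β := α) (by norm_num) hα m
    rwa [lc_one_left] at this
  calc (1:ℝ) = ∏ p ∈ n.primeFactors, 1 := by rw [prod_const_one]
    _ ≤ _ := prod_le_prod (fun _ _ => by norm_num) fun p _ => h1 _

lemma dv_zero (α : ℝ) : dv α 0 = 0 := by simp [dv]

lemma dv_four {κ : ℝ} (hκ : 0 ≤ κ) (n : ℕ) : dv κ n ^ 4 ≤ dv (κ ^ 4) n := by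
  have h1 := dv_sq_le hκ n
  have h2 := dv_sq_le (sq_nonneg κ) n
  have h3 : dv κ n ^ 4 = (dv κ n ^ 2) ^ 2 := by ring
  rw [h3]
  have h4 : κ ^ 4 = (κ ^ 2) ^ 2 := by ring
  rw [h4]
  exact (pow_le_pow_left₀ (sq_nonneg _) h1 2).trans h2

lemma conv_sum (f g : ArithmeticFunction ℝ) (hf : ∀ n, 0 ≤ f n) (hg : ∀ n, 0 ≤ g n) (V : ℕ) :
    ∑ n ∈ Icc 1 V, (f * g) n / n ≤ (∑ n ∈ Icc 1 V, f n / n) * ∑ n ∈ Icc 1 V, g n / n := by
  classical
  have h1 : ∀ n ∈ Icc 1 V, (f * g) n / n = ∑ x ∈ (Icc 1 V ×ˢ Icc 1 V).filter (fun x => x.1 * x.2 = n),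
      f x.1 / x.1 * (g x.2 / x.2) := by
    intro n hn
    rw [mem_Icc] at hn
    rw [ArithmeticFunction.mul_apply, sum_div]
    have hset : n.divisorsAntidiagonal = (Icc 1 V ×ˢ Icc 1 V).filter (fun x => x.1 * x.2 = n) := by
      ext x
      rw [Nat.mem_divisorsAntidiagonal, mem_filter, mem_product, mem_Icc, mem_Icc]
      constructor
      · rintro ⟨h1, h2⟩
        have hx1 : x.1 ≠ 0 := by
          rintro h
          rw [h, zero_mul] at h1
          omega
        have hx2 : x.2 ≠ 0 := by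
          rintro h
          rw [h, mul_zero] at h1
          omega
        have hd1 : x.1 ≤ n := Nat.le_of_dvd (by omega) ⟨x.2, h1.symm⟩
        have hd2 : x.2 ≤ n := Nat.le_of_dvd (by omega) ⟨x.1, by rw [← h1]; ring⟩
        exact ⟨⟨⟨by omega, by omega⟩, by omega, by omega⟩, h1⟩
      · rintro ⟨_, h1⟩
        exact ⟨h1, by omega⟩
    rw [hset]
    refine sum_congr rfl fun x hx => ?_
    rw [mem_filter] at hx
    rw [← hx.2, div_mul_div_comm]
    push_cast
    rfl
  rw [sum_congr rfl h1, sum_mul_sum, ← sum_product']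
  have h2 := sum_fiberwise_eq_sum_filter (Icc 1 V ×ˢ Icc 1 V) (Icc 1 V) (fun x : ℕ × ℕ => x.1 * x.2)
    (fun x => f x.1 / x.1 * (g x.2 / x.2))
  refine le_trans (le_of_eq h2) ?_
  refine sum_le_sum_of_subset_of_nonneg (filter_subset _ _) fun x _ _ => ?_
  have := hf x.1
  have := hg x.2
  positivity

lemma harm_le {V : ℕ} (hV : 1 ≤ V) : ∑ n ∈ Icc 1 V, (1 : ℝ) / n ≤ 1 + Real.log V := by
  have h := harmonic_le_one_add_log V
  rw [harmonic_eq_sum_Icc] at h
  push_cast at h
  simpa only [one_div] using h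

lemma dv_one_le (n : ℕ) : dv 1 n ≤ 1 := by
  rcases eq_or_ne n 0 with hn | hn
  · subst hn; rw [dv_zero]; norm_num
  · rw [dv_eq_prod 1 hn (subset_refl _)]
    simp only [lc_one_left, prod_const_one, le_refl]

/-- the logarithmic sums of the divisor functions -/
lemma dv_sum_le (k : ℕ) {V : ℕ} (hV : 1 ≤ V) :
    ∑ n ∈ Icc 1 V, dv k n / n ≤ (1 + Real.log V) ^ k := by
  induction k with
  | zero =>
    rw [pow_zero, Nat.cast_zero, sum_eq_single 1]
    · rw [dv_one]; norm_num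
    · intro n hn h1
      rw [mem_Icc] at hn
      have h2 : dA 0 n = 0 := by rw [dA_zero, ArithmeticFunction.one_apply_ne h1]
      rw [dA_apply] at h2
      rw [h2, zero_div]
    · intro h
      exact absurd (mem_Icc.2 ⟨le_rfl, hV⟩) h
  | succ k ih =>
    have h1 : ∀ n : ℕ, dv ((k + 1 : ℕ) : ℝ) n = (dA k * dA 1) n := by
      intro n
      rw [dA_mul, dA_apply]
      push_cast
      rfl
    have h2 : ∑ n ∈ Icc 1 V, dv 1 n / n ≤ 1 + Real.log V := by
      refine le_trans (sum_le_sum fun n _ => ?_) (harm_le hV)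
      exact div_le_div_of_nonneg_right (dv_one_le n) (Nat.cast_nonneg n)
    calc ∑ n ∈ Icc 1 V, dv ((k + 1 : ℕ) : ℝ) n / n = ∑ n ∈ Icc 1 V, (dA k * dA 1) n / n :=
          sum_congr rfl fun n _ => by rw [h1]
      _ ≤ (∑ n ∈ Icc 1 V, dA k n / n) * ∑ n ∈ Icc 1 V, dA 1 n / n :=
          conv_sum _ _ (fun n => dv_nonneg (Nat.cast_nonneg k) n) (fun n => dv_nonneg (by norm_num) n) V
      _ ≤ (1 + Real.log V) ^ k * (1 + Real.log V) := by
          refine mul_le_mul ih h2 ?_ ?_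
          · exact sum_nonneg fun n _ => div_nonneg (dv_nonneg (by norm_num) n) (Nat.cast_nonneg n)
          · have : 0 ≤ Real.log V := Real.log_natCast_nonneg V
            positivity
      _ = _ := (pow_succ _ _).symm

end

end Pool.Agent.K1H84.MW
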