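import Pool.Agent.K1H84.MW.Main
import Pool.Agent.TH535.Growth
import Pool.Agent.TH535.Prod
import Pool.Agent.H306R2.EvenConst

set_option autoImplicit false
set_option linter.unusedSectionVars false

/-! The lower bound for almost all windows, with the constants. -/

namespace Pool.Agent.K1H84.MW

open Finset MeasureTheory Filter Topology
open Pool.Agent.H306R2 hiding fr
open Pool.Agent.TH535

noncomputable section

lemma perturb2 {n : ℕ} (q : Fin n → ℕ) (κ e : ℝ) (N0 S0 : ℝ)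
    (K0 : Fin n → ℝ) (hN : 0 < N0) (hS : 0 < S0) (hK : ∀ i, 0 < K0 i) (c : ℝ)
    (hc : c < (N0 / (S0 ^ (1 / 2 : ℝ) * ∏ i, K0 i ^ (1 / (2 * (q i : ℝ))))) ^ e * (1 / 2) ^ (κ ^ 2)) :
    ∃ x : ℝ, 0 < x ∧ x < 1 / 4 ∧
      c < (((1 - x) * N0) / (((1 + x) * S0) ^ (1 / 2 : ℝ) *
      ∏ i, ((1 + x) * K0 i) ^ (1 / (2 * (q i : ℝ))))) ^ e *
        ((1 - 3 * x) * (1 / 2 - 2 * x) ^ (κ ^ 2)) := by
  have hP : 0 < ∏ i, K0 i ^ (1 / (2 * (q i : ℝ))) := prod_pos fun i _ => Real.rpow_pos_of_pos (hK i) _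
  set f : ℝ → ℝ := fun x => (((1 - x) * N0) / (((1 + x) * S0) ^ (1 / 2 : ℝ) *
      ∏ i, ((1 + x) * K0 i) ^ (1 / (2 * (q i : ℝ))))) ^ e *
        ((1 - 3 * x) * (1 / 2 - 2 * x) ^ (κ ^ 2)) with hf
  have hf0 : f 0 = (N0 / (S0 ^ (1 / 2 : ℝ) * ∏ i, K0 i ^ (1 / (2 * (q i : ℝ))))) ^ e *
      (1 / 2) ^ (κ ^ 2) := by
    rw [hf]
    simp only [sub_zero, one_mul, add_zero, mul_zero]
  have hlim : Tendsto f (𝓝[>] 0) (𝓝 (f 0)) := by
    have h1 : ContinuousAt f 0 := by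
      rw [hf]
      have hprod : ContinuousAt (fun x : ℝ => ∏ i, ((1 + x) * K0 i) ^ (1 / (2 * (q i : ℝ)))) 0 := by
        refine tendsto_finsetProd _ fun i _ => ?_
        have hc : ContinuousAt (fun x : ℝ => ((1 + x) * K0 i) ^ (1 / (2 * (q i : ℝ)))) 0 := by
          refine ContinuousAt.rpow_const (by fun_prop) (Or.inl ?_)
          have := hK i
          simp only [add_zero, one_mul]
          positivity
        exact hc
      have hD0 : ((1 + (0:ℝ)) * S0) ^ (1 / 2 : ℝ) *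
          ∏ i, ((1 + (0:ℝ)) * K0 i) ^ (1 / (2 * (q i : ℝ))) ≠ 0 := by
        simp only [add_zero, one_mul]
        positivity
      have hS : ContinuousAt (fun x : ℝ => ((1 + x) * S0) ^ (1 / 2 : ℝ)) 0 := by
        refine ContinuousAt.rpow_const (by fun_prop) (Or.inl ?_)
        simp only [add_zero, one_mul]
        positivity
      refine ContinuousAt.mul (ContinuousAt.rpow_const (ContinuousAt.div (by fun_prop)
        (hS.mul hprod) hD0) (Or.inl ?_)) (ContinuousAt.mul (by fun_prop)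
          (ContinuousAt.rpow_const (by fun_prop) (Or.inl (by norm_num))))
      simp only [sub_zero, add_zero, one_mul]
      positivity
    exact h1.tendsto.mono_left nhdsWithin_le_nhds
  rw [hf0] at hlim
  obtain ⟨x, hxc, hx0, hx4⟩ := ((hlim.eventually_const_lt hc).and
    (Ioo_mem_nhdsGT (by norm_num : (0:ℝ) < 1 / 4))).exists
  exact ⟨x, hx0, hx4, hxc⟩

/-- **The lower bound for almost all windows.** -/
theorem master {n : ℕ} (κ : ℝ) (hκ0 : 0 < κ) (j : ℕ) (q : Fin n → ℕ) (β : Fin n → ℝ)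
    (hA : AdmN κ j q β) (c : ℝ) (hc : c < aF κ * MN κ j q β * (1 / 2) ^ (κ ^ 2)) :
    ∃ C : ℕ, ∀ᶠ T : ℝ in atTop, ∀ V : ℝ, 1 ≤ V →
      volume {t : ℝ | t ∈ Set.Icc T (2 * T) ∧ ∃ U : ℝ, V ≤ U ∧ U ≤ T ∧
        ∫ s in t..(t + U), ‖riemannZeta (1 / 2 + s * Complex.I)‖ ^ (2 * κ) <
          c * Real.log T ^ (κ ^ 2) * U} ≤
      ENNReal.ofReal (T * Real.log T ^ C / V) := by
  have hj0 := hA.j0
  have hq0 := hA.q0
  have hα0 := hA.α0 hκ0
  have hθ0 := hA.θ0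
  have hi0 := hA.i0 hκ0
  have he := hA.e0 hκ0
  have hjk := hA.jk hκ0
  set a := aF κ with ha
  have ha0 : 0 < a := aF_pos hκ0
  set V : Fin n → ℝ := fun i => (β i) ^ (κ ^ 2 / q i) / Real.Gamma (κ ^ 2 / q i + 1) with hV
  have hV0 : ∀ i, 0 < V i := fun i => by
    have h1 := hA.hβ i
    have h2 := hq0 i
    have h3 := Real.Gamma_pos_of_pos (by positivity : 0 < κ ^ 2 / q i + 1)
    rw [hV]
    positivity
  have hPV : 0 < ∏ i, V i := prod_pos fun i _ => hV0 i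
  set VN := VL j (fun a => κ / (q a : ℝ)) (1 - ∑ a, β a) β with hVN
  have hVN0 : 0 < VN := VL_pos hA.hj he hA.hn hα0 hA.hβ
  set VS := Vn j (κ - j) (1 - ∑ a, β a) (∑ a, β a) with hVS
  have hVS0 : 0 < VS := VL_pos hA.hj (fun _ => hi0) one_pos hα0 (fun _ => hθ0)
  have hconst : ((a * VN) / ((a * VS) ^ (1 / 2 : ℝ) * ∏ i, (a * V i ^ (q i)) ^ (1 / (2 * (q i : ℝ))))) ^
      (2 * κ / (j:ℝ)) = a * MN κ j q β := by
    have h := const_eqR q hA.hq j (2 * κ) hA.hj (by positivity) hjk a ha0 V hV0 1 0 (1 / VS)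
      ((∏ i, V i) / VN) one_pos (by positivity) (by positivity)
    have e1 : (∏ i, V i) * (1 ^ (0 : ℝ) / ((∏ i, V i) / VN)) = VN := by
      rw [Real.one_rpow]
      field_simp
    have e2 : a / (1 / VS) = a * VS := by field_simp
    rw [e1, e2] at h
    rw [h]
    unfold MN
    have e3 : ∏ a, (β a ^ (κ ^ 2 / q a) / Real.Gamma (κ ^ 2 / q a + 1)) = ∏ i, V i := rfl
    rw [e3, ← hVN, ← hVS, mul_zero, Real.one_rpow, show 2 * κ / 2 / (j:ℝ) = κ / j by ring]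
    congr 2
    field_simp
  rw [← hconst] at hc
  obtain ⟨x, hx0, hx4, hxc⟩ := perturb2 q κ _ _ _ _ (mul_pos ha0 hVN0) (mul_pos ha0 hVS0)
    (fun i => mul_pos ha0 (pow_pos (hV0 i) _)) c hc
  obtain ⟨C, hmain⟩ := windows κ hκ0 j q β hA ((1 - x) * (a * VN)) ((1 + x) * (a * VS))
    (fun i => (1 + x) * (a * V i ^ (q i))) (mul_pos (by linarith) (mul_pos ha0 hVN0))
    (by
      have h0 := mul_pos ha0 hVN0
      have : (1 - x) * (a * VN) < a * VN := by nlinarith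
      exact this)
    (by
      have h0 := mul_pos ha0 hVS0
      have : a * VS < (1 + x) * (a * VS) := by nlinarith
      exact this)
    (fun i => by
      have h1 : 0 < a * V i ^ (q i) := mul_pos ha0 (pow_pos (hV0 i) _)
      have : a * V i ^ (q i) < (1 + x) * (a * V i ^ (q i)) := by nlinarith
      exact this) x hx0 hx4
  refine ⟨C, ?_⟩
  filter_upwards [hmain, eventually_gt_atTop 1] with T hT hT1 X hX1
  refine (measure_mono ?_).trans (hT X hX1)
  rintro t ⟨ht, U, hU1, hU2, hU3⟩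
  refine ⟨ht, U, hU1, hU2, lt_of_lt_of_le hU3 ?_⟩
  have hT0 : 0 < T := by linarith
  have hL0 : 0 < Real.log T := Real.log_pos hT1
  have hU0 : 0 < U := by linarith
  have hlog : Real.log (Yt (1 / 4 + x) T) = (1 / 2 - 2 * x) * Real.log T := by
    unfold Yt
    rw [Real.log_rpow hT0]
    ring
  rw [hlog, Real.mul_rpow (by linarith) hL0.le]
  set D := (((1 - x) * (a * VN)) / (((1 + x) * (a * VS)) ^ (1 / 2 : ℝ) *
      ∏ i, ((1 + x) * (a * V i ^ (q i))) ^ (1 / (2 * (q i : ℝ))))) ^ (2 * κ / (j : ℝ)) with hD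
  have hΛ : 0 ≤ Real.log T ^ (κ ^ 2) * U := by positivity
  calc c * Real.log T ^ (κ ^ 2) * U = c * (Real.log T ^ (κ ^ 2) * U) := by ring
    _ ≤ D * ((1 - 3 * x) * (1 / 2 - 2 * x) ^ (κ ^ 2)) * (Real.log T ^ (κ ^ 2) * U) :=
      mul_le_mul_of_nonneg_right hxc.le hΛ
    _ = _ := by ring

end

end Pool.Agent.K1H84.MW
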