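import Pool.Agent.K1H84.MW.Inst2
import Pool.Agent.TH535.MasterX

set_option autoImplicit false
set_option linter.unusedSectionVars false

/-! The lower bound on one short window at a typical height. -/

namespace Pool.Agent.K1H84.MW

open Finset MeasureTheory Filter Topology
open Pool.Agent.H306R2 hiding fr
open Pool.Agent.TH535

noncomputable section

lemma ev_big (c κ η : ℝ) (hc : 0 < c) (hκ : 0 < κ) (hη : η < 1 / 2) :
    ∀ᶠ T : ℝ in atTop, 2 ≤ c * Real.log (Yt η T) ^ (κ ^ 2) := by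
  have h1 : Tendsto (fun T : ℝ => c * Real.log (Yt η T) ^ (κ ^ 2)) atTop atTop :=
    Tendsto.const_mul_atTop hc ((tendsto_rpow_atTop (by positivity)).comp (Yt_tendsto hη))
  exact h1.eventually_ge_atTop 2

lemma ev_pow (m : ℕ) : ∀ᶠ T : ℝ in atTop, (1 + Real.log T) ^ m ≤ Real.log T ^ (m + 1) := by
  filter_upwards [Real.tendsto_log_atTop.eventually_ge_atTop (2 ^ m),
    Real.tendsto_log_atTop.eventually_ge_atTop 1] with T h1 h2
  calc (1 + Real.log T) ^ m ≤ (2 * Real.log T) ^ m := pow_le_pow_left₀ (by linarith) (by linarith) m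
    _ = 2 ^ m * Real.log T ^ m := mul_pow _ _ _
    _ ≤ Real.log T * Real.log T ^ m := by gcongr
    _ = _ := (pow_succ' _ _).symm

/-- the first function -/
lemma typN {n : ℕ} (κ : ℝ) (hκ0 : 0 < κ) (j : ℕ) (q : Fin n → ℕ) (β : Fin n → ℝ)
    (hA : AdmN κ j q β) (N : ℝ) (hNV : N < aF κ * VL j (fun a => κ / q a) (1 - ∑ a, β a) β)
    (x : ℝ) (hx : 0 < x) (hx2 : x < 1 / 4) :
    ∃ C : ℕ, ∀ᶠ T : ℝ in atTop, ∀ U : ℝ, Real.log T ≤ U → U * Real.log T ≤ T / 8 →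
      ∃ E : Set ℝ, MeasurableSet E ∧ volume E ≤ ENNReal.ofReal (T * Real.log T ^ C / U) ∧
      ∀ τ ∈ Set.Icc T (3 * T), τ ∉ E →
        N * Real.log (Yt (1 / 4 + x) T) ^ (κ ^ 2) ≤
        ‖∫ t in (τ - U * Real.log T)..(τ + U * Real.log T),
          (riemannZeta (1 / 2 + t * Complex.I) ^ j *
          ∏ a, (starRingEnd ℂ) (Dp (tr (dA (κ / (q a : ℝ))) (Yt (1 / 4 + x) T ^ β a))
            (Yt (1 / 4 + x) T ^ β a) (1 / 2 + t * Complex.I))) *
        (starRingEnd ℂ) (Ct j (κ - j) (Yt (1 / 4 + x) T ^ (1 - ∑ a, β a))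
          (Yt (1 / 4 + x) T ^ (∑ a, β a)) t) * (gw τ U t : ℂ)‖ := by
  obtain ⟨N', hN1, hN2⟩ := exists_between hNV
  have he := hA.e0 hκ0
  have hei := hA.eie hκ0
  have hi0 := hA.i0 hκ0
  have hα0 := hA.α0 hκ0
  have hθ0 := hA.θ0
  set e : Fin n → ℝ := fun a => κ / (q a : ℝ) with hedef
  set J : ℕ := j + ⌈κ⌉₊ + 1 with hJ
  have hJ1 : 1 ≤ J := by omega
  have hjJ : j ≤ J := by omega
  have hκJ : κ ≤ J := by
    have := Nat.le_ceil κ
    rw [hJ]; push_cast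
    linarith [(Nat.cast_nonneg j : (0:ℝ) ≤ j)]
  have hiJ : κ - j ≤ J := by linarith [(Nat.cast_nonneg j : (0:ℝ) ≤ j)]
  have hη2 : (1 / 4 + x : ℝ) < 1 / 2 := by linarith
  obtain ⟨C, hC⟩ := bad_meas j (2 * J) (J ^ 2 + 1) (by omega) (2 * x) (by linarith) (by linarith)
  have hL := (Yt_tendsto (η := 1 / 4 + x) hη2).eventually (CR_lower hA.hj e he hA.hn (1 - ∑ a, β a) hα0 β
    hA.hβ N' (by
      have : (j : ℝ) + ei e = κ := by rw [hei]; ring
      rw [this]; exact hN2))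
  refine ⟨C, ?_⟩
  filter_upwards [hC, hL, ev_big (N' - N) κ (1 / 4 + x) (by linarith) hκ0 hη2, ev_pow (J ^ 2),
    typ_win j (2 * J) (J ^ 2 + 1), eventually_gt_atTop 1,
    Real.tendsto_log_atTop.eventually_ge_atTop 1]
    with T hC hL hbig hpow htyp hT1 hlog U hU1 hU2
  have hT0 : 0 < T := by linarith
  set Y := Yt (1 / 4 + x) T with hY
  have hY1 : 1 ≤ Y := one_le_Yt hη2 hT1.le
  have hY0 : 0 < Y := by linarith
  have hYT : Y ≤ T := Yt_le (by linarith) hT1.le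
  have e1 : ∀ a : ℝ, Real.exp (a * Real.log Y) = Y ^ a := fun a => by
    rw [Real.rpow_def_of_pos hY0, mul_comm]
  simp only [e1] at hL
  set XH := Y ^ (1 - ∑ a, β a) with hXH
  set Xt := Y ^ (∑ a, β a) with hXt
  set X : Fin n → ℝ := fun a => Y ^ β a with hX
  have hXH1 : 1 ≤ XH := Real.one_le_rpow hY1 hα0.le
  have hXt1 : 1 ≤ Xt := Real.one_le_rpow hY1 hθ0.le
  have hXX : XH * Xt = Y := by
    rw [hXH, hXt, ← Real.rpow_add hY0]
    simp
  have hXtT : Xt ≤ T := by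
    have : Xt ≤ XH * Xt := le_mul_of_one_le_left (by linarith) hXH1
    linarith
  have hX1 : ∀ a, 1 ≤ X a := fun a => Real.one_le_rpow hY1 (hA.hβ a).le
  have hXp : ∏ a, X a ≤ Xt := by rw [hX, hXt, ← Real.rpow_sum_of_pos hY0]
  set v : ArithmeticFunction ℝ := PA e X with hv
  have hv0 : ∀ m, 0 ≤ v m := PA_nonneg (fun a => (he a).le) X
  have hvJ : ∀ m, v m ≤ dv J m := PA_le (fun a => (he a).le) X (by rw [hei]; exact hiJ)
  have hD := fun s => Dp_prod univ (fun i => tr (dA (e i)) (X i)) X hX1 (fun i n hn => tr_supp _ _ n hn) s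
  have hsupp : ∀ m : ℕ, Xt < m → v m = 0 := fun m hm => (hD 0).1 m (lt_of_le_of_lt hXp hm)
  set Nn : ℕ := ⌊Y⌋₊ with hNn
  have hNn1 : 1 ≤ Nn := Nat.le_floor (by simpa using hY1)
  have hNY : (Nn : ℝ) ≤ Y := Nat.floor_le hY0.le
  have hNX : ⌊XH * Xt⌋₊ ≤ Nn := by rw [hXX]
  have hlogXt : 1 + Real.log Xt ≤ 1 + Real.log T := by
    have := Real.log_le_log (by linarith) hXtT
    linarith
  have hlX0 : 0 ≤ Real.log Xt := Real.log_nonneg hXt1
  set qq := qN j (κ - j) v XH Xt with hqq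
  have hq0 : ∀ a b, 0 ≤ qq a b := qN_nonneg j hi0.le v hv0 XH Xt
  have hq1 : ∀ a b : ℕ, 1 ≤ a → 1 ≤ b → qq a b ≤ Real.log T ^ (J ^ 2 + 1) *
      (dv ((2 * J : ℕ) : ℝ) a * dv ((2 * J : ℕ) : ℝ) b / Real.sqrt ((a : ℝ) * b)) := by
    intro a b ha hb
    refine (qN_le j hi0.le hJ1 hjJ hiJ v hv0 hvJ XH Xt hXH1 hXt1 ha hb).trans ?_
    have d1 := dv_nonneg (Nat.cast_nonneg (2 * J)) a
    have d2 := dv_nonneg (Nat.cast_nonneg (2 * J)) b
    refine mul_le_mul_of_nonneg_right ?_ (by positivity)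
    exact (pow_le_pow_left₀ (by linarith) hlogXt _).trans hpow
  have hU0 : 0 < U := by linarith
  have hUT : U ≤ T := by nlinarith
  have hNT : (Nn : ℝ) ≤ T ^ (1 / 2 - 2 * x) := by
    refine hNY.trans (le_of_eq ?_)
    rw [hY]; unfold Yt
    congr 1
    ring
  have hmeas := hC U (by linarith) hUT Nn hNn1 hNT qq hq0 hq1
  refine ⟨_, ?_, hmeas, fun τ hτ hτE => ?_⟩
  · exact (measurableSet_Icc.inter (measurableSet_le measurable_const (Sz_cont _ _).norm.measurable))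
  have hS : ‖Sz (Zn Nn) (ρq j Nn qq U) τ‖ ≤ 1 := by
    by_contra hcon
    exact hτE ⟨hτ, (not_le.1 hcon).le⟩
  have hW := htyp U hU1 hU2 Nn (hNY.trans hYT) qq hq0 hq1 τ hτ hS
  rw [hqq, Dg_qN j (κ - j) v XH Xt hXH1 hXt1 hNX hsupp] at hW
  have hWeq : Wq j Nn (qN j (κ - j) v XH Xt) U (Real.log T) τ =
      ∫ t in (τ - U * Real.log T)..(τ + U * Real.log T),
          (riemannZeta (1 / 2 + t * Complex.I) ^ j *
          ∏ a, (starRingEnd ℂ) (Dp (tr (dA (e a)) (X a)) (X a) (1 / 2 + t * Complex.I))) *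
        (starRingEnd ℂ) (Ct j (κ - j) XH Xt t) * (gw τ U t : ℂ) := by
    unfold Wq
    refine intervalIntegral.integral_congr fun t _ => ?_
    rw [Pq_qN j (κ - j) v XH Xt hXH1 hXt1 hNX t]
    have hVt : Vt v Xt t =
        ∏ a, (starRingEnd ℂ) (Dp (tr (dA (e a)) (X a)) (X a) (1 / 2 + t * Complex.I)) := by
      rw [Vt_eq, Dp_mono v (∏ a, X a) Xt hXp (hD 0).1, ← map_prod]
      congr 1
      exact (hD _).2
    rw [hVt]
    ring
  rw [hWeq] at hW
  have hjk : (j : ℝ) + ei e = κ := by rw [hei]; ring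
  rw [hjk, hei] at hL
  have h3 := norm_sub_norm_le (((CR j (κ - j) v XH Xt : ℝ) : ℂ))
    (∫ t in (τ - U * Real.log T)..(τ + U * Real.log T),
          (riemannZeta (1 / 2 + t * Complex.I) ^ j *
          ∏ a, (starRingEnd ℂ) (Dp (tr (dA (e a)) (X a)) (X a) (1 / 2 + t * Complex.I))) *
        (starRingEnd ℂ) (Ct j (κ - j) XH Xt t) * (gw τ U t : ℂ))
  rw [norm_sub_rev, Complex.norm_real] at h3
  have h4 := Real.le_norm_self (CR j (κ - j) v XH Xt)
  linarith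

end

end Pool.Agent.K1H84.MW
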