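import Pool.Agent.K1H84.MW.Heights

set_option autoImplicit false
set_option linter.unusedSectionVars false

/-! The lower bound on one short window at a typical height: the other two functions. -/

namespace Pool.Agent.K1H84.MW

open Finset MeasureTheory Filter Topology
open Pool.Agent.H306R2 hiding fr
open Pool.Agent.TH535

noncomputable section

/-- the second function -/
lemma typC {n : ℕ} (κ : ℝ) (hκ0 : 0 < κ) (j : ℕ) (q : Fin n → ℕ) (β : Fin n → ℝ)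
    (hA : AdmN κ j q β) (S : ℝ) (hSV : aF κ * Vn j (κ - j) (1 - ∑ a, β a) (∑ a, β a) < S)
    (x : ℝ) (hx : 0 < x) (hx2 : x < 1 / 4) :
    ∃ C : ℕ, ∀ᶠ T : ℝ in atTop, ∀ U : ℝ, Real.log T ≤ U → U * Real.log T ≤ T / 8 →
      ∃ E : Set ℝ, MeasurableSet E ∧ volume E ≤ ENNReal.ofReal (T * Real.log T ^ C / U) ∧
      ∀ τ ∈ Set.Icc T (3 * T), τ ∉ E →
        ∫ t in (τ - U * Real.log T)..(τ + U * Real.log T),
          ‖Ct j (κ - j) (Yt (1 / 4 + x) T ^ (1 - ∑ a, β a))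
          (Yt (1 / 4 + x) T ^ (∑ a, β a)) t‖ ^ 2 * gw τ U t ≤
        S * Real.log (Yt (1 / 4 + x) T) ^ (κ ^ 2) := by
  obtain ⟨S', hS1, hS2⟩ := exists_between hSV
  have hi0 := hA.i0 hκ0
  have hα0 := hA.α0 hκ0
  have hθ0 := hA.θ0
  set J : ℕ := j + ⌈κ⌉₊ + 1 with hJ
  have hJ1 : 1 ≤ J := by omega
  have hjJ : j ≤ J := by omega
  have hκJ : κ ≤ J := by
    have := Nat.le_ceil κ
    rw [hJ]; push_cast
    linarith [(Nat.cast_nonneg j : (0:ℝ) ≤ j)]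
  have hiJ : κ - j ≤ J := by linarith [(Nat.cast_nonneg j : (0:ℝ) ≤ j)]
  have hη2 : (1 / 4 + x : ℝ) < 1 / 2 := by linarith
  have hjk : (j : ℝ) + (κ - j) = κ := by ring
  obtain ⟨C, hC⟩ := bad_meas 0 (2 * J) (2 * J ^ 2 + 1) (by omega) (2 * x) (by linarith) (by linarith)
  have hL := (Yt_tendsto (η := 1 / 4 + x) hη2).eventually (CR_upper hA.hj hi0 (1 - ∑ a, β a) hα0
    (∑ a, β a) hθ0 S' (by rw [hjk]; exact hS1))
  refine ⟨C, ?_⟩
  filter_upwards [hC, hL, ev_big (S - S') κ (1 / 4 + x) (by linarith) hκ0 hη2, ev_pow (2 * J ^ 2),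
    typ_win 0 (2 * J) (2 * J ^ 2 + 1), eventually_gt_atTop 1,
    Real.tendsto_log_atTop.eventually_ge_atTop 1]
    with T hC hL hbig hpow htyp hT1 hlog U hU1 hU2
  have hT0 : 0 < T := by linarith
  set Y := Yt (1 / 4 + x) T with hY
  have hY1 : 1 ≤ Y := one_le_Yt hη2 hT1.le
  have hY0 : 0 < Y := by linarith
  have hYT : Y ≤ T := Yt_le (by linarith) hT1.le
  have e1 : ∀ a : ℝ, Real.exp (a * Real.log Y) = Y ^ a := fun a => by
    rw [Real.rpow_def_of_pos hY0, mul_comm]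
  simp only [e1] at hL
  set XH := Y ^ (1 - ∑ a, β a) with hXH
  set Xt := Y ^ (∑ a, β a) with hXt
  have hXH1 : 1 ≤ XH := Real.one_le_rpow hY1 hα0.le
  have hXt1 : 1 ≤ Xt := Real.one_le_rpow hY1 hθ0.le
  have hXX : XH * Xt = Y := by
    rw [hXH, hXt, ← Real.rpow_add hY0]
    simp
  have hXtT : Xt ≤ T := by
    have : Xt ≤ XH * Xt := le_mul_of_one_le_left (by linarith) hXH1
    linarith
  set Nn : ℕ := ⌊Y⌋₊ with hNn
  have hNn1 : 1 ≤ Nn := Nat.le_floor (by simpa using hY1)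
  have hNY : (Nn : ℝ) ≤ Y := Nat.floor_le hY0.le
  have hNX : ⌊XH * Xt⌋₊ ≤ Nn := by rw [hXX]
  have hlogXt : 1 + Real.log Xt ≤ 1 + Real.log T := by
    have := Real.log_le_log (by linarith) hXtT
    linarith
  have hlX0 : 0 ≤ Real.log Xt := Real.log_nonneg hXt1
  set qq := qC j (κ - j) XH Xt with hqq
  have hq0 : ∀ a b, 0 ≤ qq a b := qC_nonneg j hi0.le XH Xt
  have hq1 : ∀ a b : ℕ, 1 ≤ a → 1 ≤ b → qq a b ≤ Real.log T ^ (2 * J ^ 2 + 1) *
      (dv ((2 * J : ℕ) : ℝ) a * dv ((2 * J : ℕ) : ℝ) b / Real.sqrt ((a : ℝ) * b)) := by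
    intro a b ha hb
    refine (qC_le j hi0.le hJ1 hjJ hiJ XH Xt hXH1 hXt1 ha hb).trans ?_
    have d1 := dv_nonneg (Nat.cast_nonneg (2 * J)) a
    have d2 := dv_nonneg (Nat.cast_nonneg (2 * J)) b
    refine mul_le_mul_of_nonneg_right ?_ (by positivity)
    exact (pow_le_pow_left₀ (by linarith) hlogXt _).trans hpow
  have hU0 : 0 < U := by linarith
  have hUT : U ≤ T := by nlinarith
  have hNT : (Nn : ℝ) ≤ T ^ (1 / 2 - 2 * x) := by
    refine hNY.trans (le_of_eq ?_)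
    rw [hY]; unfold Yt
    congr 1
    ring
  have hmeas := hC U (by linarith) hUT Nn hNn1 hNT qq hq0 hq1
  refine ⟨_, ?_, hmeas, fun τ hτ hτE => ?_⟩
  · exact (measurableSet_Icc.inter (measurableSet_le measurable_const (Sz_cont _ _).norm.measurable))
  have hS : ‖Sz (Zn Nn) (ρq 0 Nn qq U) τ‖ ≤ 1 := by
    by_contra hcon
    exact hτE ⟨hτ, (not_le.1 hcon).le⟩
  have hW := htyp U hU1 hU2 Nn (hNY.trans hYT) qq hq0 hq1 τ hτ hS
  rw [hqq, Dg_qC j (κ - j) XH Xt hXH1 hXt1 hNX,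
    Wq_real Nn (qC j (κ - j) XH Xt) (fun t => ‖Ct j (κ - j) XH Xt t‖ ^ 2)
      (fun t => Pq_qC j (κ - j) XH Xt hXH1 hXt1 hNX t), ← Complex.ofReal_sub, Complex.norm_real,
    Real.norm_eq_abs] at hW
  rw [← ES_eq, hjk] at hL
  have h3 := (abs_le.1 hW).2
  linarith

/-- the other functions -/
lemma typK (κ : ℝ) (hκ0 : 0 < κ) (q : ℕ) (hq : 2 ≤ q) (β : ℝ) (hβ : 0 < β) (hβq : β ≤ 1 / (q : ℝ))
    (K : ℝ) (hK : aF κ * (β ^ (κ ^ 2 / q) / Real.Gamma (κ ^ 2 / q + 1)) ^ q < K)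
    (x : ℝ) (hx : 0 < x) (hx2 : x < 1 / 4) :
    ∃ C : ℕ, ∀ᶠ T : ℝ in atTop, ∀ U : ℝ, Real.log T ≤ U → U * Real.log T ≤ T / 8 →
      ∃ E : Set ℝ, MeasurableSet E ∧ volume E ≤ ENNReal.ofReal (T * Real.log T ^ C / U) ∧
      ∀ τ ∈ Set.Icc T (3 * T), τ ∉ E →
        ∫ t in (τ - U * Real.log T)..(τ + U * Real.log T),
          ‖Dp (tr (dA (κ / (q : ℝ))) (Yt (1 / 4 + x) T ^ β)) (Yt (1 / 4 + x) T ^ β)
            (1 / 2 + t * Complex.I)‖ ^ (2 * q) * gw τ U t ≤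
        K * Real.log (Yt (1 / 4 + x) T) ^ (κ ^ 2) := by
  obtain ⟨K', hK1, hK2⟩ := exists_between hK
  have hq0 : (0 : ℝ) < q := by exact_mod_cast (by omega : 0 < q)
  set e : ℝ := κ / (q : ℝ) with he
  have he0 : 0 < e := by positivity
  have hqe : (q : ℝ) * e = κ := by rw [he]; field_simp
  set J : ℕ := ⌈κ⌉₊ + 1 with hJ
  have hκJ : κ ≤ J := by
    have := Nat.le_ceil κ
    rw [hJ]; push_cast
    linarith
  have hη2 : (1 / 4 + x : ℝ) < 1 / 2 := by linarith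
  obtain ⟨C, hC⟩ := bad_meas 0 J 0 (by omega) (2 * x) (by linarith) (by linarith)
  have hL := K_sum e he0 q (by omega) β hβ K' (by
    rw [hqe]
    have : κ * e = κ ^ 2 / q := by rw [he]; ring
    rw [this]
    exact hK1) (1 / 4 + x) hη2
  refine ⟨C, ?_⟩
  filter_upwards [hC, hL, ev_big (K - K') κ (1 / 4 + x) (by linarith) hκ0 hη2,
    typ_win 0 J 0, eventually_gt_atTop 1,
    Real.tendsto_log_atTop.eventually_ge_atTop 1]
    with T hC hL hbig htyp hT1 hlog U hU1 hU2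
  have hT0 : 0 < T := by linarith
  set Y := Yt (1 / 4 + x) T with hY
  have hY1 : 1 ≤ Y := one_le_Yt hη2 hT1.le
  have hY0 : 0 < Y := by linarith
  have hYT : Y ≤ T := Yt_le (by linarith) hT1.le
  set X := Y ^ β with hX
  have hX1 : 1 ≤ X := Real.one_le_rpow hY1 hβ.le
  have hXq : X ^ q ≤ Y := by
    rw [hX, ← Real.rpow_natCast, ← Real.rpow_mul (by linarith)]
    calc Y ^ (β * q) ≤ Y ^ (1:ℝ) := Real.rpow_le_rpow_of_exponent_le hY1 (by
          rwa [le_div_iff₀ hq0] at hβq)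
      _ = Y := Real.rpow_one Y
  set B := tr (dA e) X with hB
  have hD := fun s => Dp_pow B X hX1 (fun n hn => tr_supp _ _ n hn) s q
  have hBY : ∀ s, Dp (B ^ q : ArithmeticFunction ℝ) Y s = Dp B X s ^ q := by
    intro s
    rw [Dp_mono (B ^ q) (X ^ q) Y hXq (hD s).1]
    exact (hD s).2
  set A : ArithmeticFunction ℝ := B ^ q with hAdef
  have hA0 : ∀ m, 0 ≤ A m := fun m => tr_pow_nonneg he0.le X q m
  have hAJ : ∀ m, A m ≤ dv J m := by
    intro m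
    refine (tr_pow_le he0.le X q m).trans ?_
    rw [hqe]
    exact dv_mono hκ0.le hκJ m
  set Nn : ℕ := ⌊Y⌋₊ with hNn
  have hNn1 : 1 ≤ Nn := Nat.le_floor (by simpa using hY1)
  have hNY : (Nn : ℝ) ≤ Y := Nat.floor_le hY0.le
  set qq := qK A with hqq
  have hq0' : ∀ a b, 0 ≤ qq a b := by
    intro a b
    rw [hqq]; unfold qK
    have := hA0 a
    have := hA0 b
    positivity
  have hq1 : ∀ a b : ℕ, 1 ≤ a → 1 ≤ b → qq a b ≤ Real.log T ^ 0 *
      (dv (J : ℝ) a * dv (J : ℝ) b / Real.sqrt ((a : ℝ) * b)) := by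
    intro a b ha hb
    rw [pow_zero, one_mul, hqq]
    unfold qK
    have h1 := hA0 a
    have h2 := hA0 b
    have h3 := hAJ a
    have h4 := hAJ b
    refine div_le_div_of_nonneg_right (mul_le_mul h3 h4 h2 (h1.trans h3)) (Real.sqrt_nonneg _)
  have hU0 : 0 < U := by linarith
  have hUT : U ≤ T := by nlinarith
  have hNT : (Nn : ℝ) ≤ T ^ (1 / 2 - 2 * x) := by
    refine hNY.trans (le_of_eq ?_)
    rw [hY]; unfold Yt
    congr 1
    ring
  have hmeas := hC U (by linarith) hUT Nn hNn1 hNT qq hq0' hq1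
  refine ⟨_, ?_, hmeas, fun τ hτ hτE => ?_⟩
  · exact (measurableSet_Icc.inter (measurableSet_le measurable_const (Sz_cont _ _).norm.measurable))
  have hS : ‖Sz (Zn Nn) (ρq 0 Nn qq U) τ‖ ≤ 1 := by
    by_contra hcon
    exact hτE ⟨hτ, (not_le.1 hcon).le⟩
  have hW := htyp U hU1 hU2 Nn (hNY.trans hYT) qq hq0' hq1 τ hτ hS
  rw [hqq, Dg_qK, Wq_real Nn (qK A) (fun t => ‖Dp B X (1 / 2 + t * Complex.I)‖ ^ (2 * q))
      (fun t => by
        rw [Pq_qK, hBY, norm_pow, ← pow_mul, mul_comm q 2]), ← Complex.ofReal_sub, Complex.norm_real,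
    Real.norm_eq_abs] at hW
  rw [hqe] at hL
  have h3 := (abs_le.1 hW).2
  linarith

end

end Pool.Agent.K1H84.MW
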