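import Pool.Agent.K1H84.MW.TW
import Pool.Agent.TH535.WinX

set_option autoImplicit false
set_option linter.unusedSectionVars false

/-! The three functions of the Hölder argument. -/

namespace Pool.Agent.K1H84.MW

open Finset MeasureTheory Filter Topology
open Pool.Agent.H306R2 hiding fr
open Pool.Agent.TH535
open H295MK (fr mt cl)

noncomputable section

lemma cc_le (j : ℕ) {i : ℝ} (hi : 0 ≤ i) {J : ℕ} (hJ1 : 1 ≤ J) (hj : j ≤ J) (hiJ : i ≤ J) (XH Xt : ℝ)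
    (hH : 1 ≤ XH) (ht : 1 ≤ Xt) (z : ℕ × ℕ) (hz : z ∈ SPs XH Xt) :
    cc j i Xt z ≤ (1 + Real.log Xt) ^ (J ^ 2) *
      (dv J z.1 * dv J z.2 / Real.sqrt ((z.1 : ℝ) * z.2)) := by
  obtain ⟨h1, h2, h3, h4, h5⟩ := mem_SPs hz (by linarith) (by linarith)
  have hJ1' : (1 : ℝ) ≤ J := by exact_mod_cast hJ1
  have hJ0 : (0 : ℝ) ≤ J := by linarith
  have hj0 : (0 : ℝ) ≤ j := Nat.cast_nonneg j
  have hjJ : (j : ℝ) ≤ J := by exact_mod_cast hj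
  have hN : 1 ≤ ⌊Xt⌋₊ := Nat.le_floor (by simpa using ht)
  have d1 := dv_nonneg hJ0 z.1
  have d2 := dv_nonneg hJ0 z.2
  have hterm : ∀ s ∈ Icc 1 ⌊Xt⌋₊,
      (if ((z.2 * s : ℕ) : ℝ) ≤ Xt then dv j (z.1 * s) * dv i (z.2 * s) / (s : ℝ) else 0) ≤
        dv J z.1 * dv J z.2 * (dv J s ^ 2 / s) := by
    intro s hs
    rw [mem_Icc] at hs
    have hs0 : (0 : ℝ) < s := by exact_mod_cast hs.1
    have d3 := dv_nonneg hJ0 s
    split_ifs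
    · have e1 : dv j (z.1 * s) ≤ dv J z.1 * dv J s :=
        (dv_mono hj0 hjJ _).trans (dv_mul_le hJ1' _ _)
      have e2 : dv i (z.2 * s) ≤ dv J z.2 * dv J s :=
        (dv_mono hi hiJ _).trans (dv_mul_le hJ1' _ _)
      have e3 := dv_nonneg hi (z.2 * s)
      calc dv j (z.1 * s) * dv i (z.2 * s) / (s : ℝ) ≤
          (dv J z.1 * dv J s) * (dv J z.2 * dv J s) / s := by
            refine div_le_div_of_nonneg_right (mul_le_mul e1 e2 e3 (by positivity)) hs0.le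
        _ = _ := by ring
    · positivity
  have hsum : ∑ s ∈ Icc 1 ⌊Xt⌋₊,
      (if ((z.2 * s : ℕ) : ℝ) ≤ Xt then dv j (z.1 * s) * dv i (z.2 * s) / (s : ℝ) else 0) ≤
      dv J z.1 * dv J z.2 * (1 + Real.log Xt) ^ (J ^ 2) := by
    refine (sum_le_sum hterm).trans ?_
    rw [← mul_sum]
    refine mul_le_mul_of_nonneg_left ((sum_sq_le J hN).trans ?_) (by positivity)
    have h6 : Real.log (⌊Xt⌋₊ : ℝ) ≤ Real.log Xt :=
      Real.log_le_log (by exact_mod_cast hN) (Nat.floor_le (by linarith))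
    have h7 : 0 ≤ Real.log (⌊Xt⌋₊ : ℝ) := Real.log_natCast_nonneg _
    exact pow_le_pow_left₀ (by linarith) (by linarith) _
  unfold cc
  calc _ ≤ dv J z.1 * dv J z.2 * (1 + Real.log Xt) ^ (J ^ 2) / Real.sqrt ((z.1 : ℝ) * z.2) :=
        div_le_div_of_nonneg_right hsum (Real.sqrt_nonneg _)
    _ = _ := by ring

lemma PA_nonneg {n : ℕ} {e : Fin n → ℝ} (he : ∀ i, 0 ≤ e i) (X : Fin n → ℝ) (m : ℕ) :
    0 ≤ PA e X m :=
  prod_nonneg_af _ _ (fun i n => tr_nonneg (fun m => dv_nonneg (he i) m) _ n) m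

lemma PA_le {n : ℕ} {e : Fin n → ℝ} (he : ∀ i, 0 ≤ e i) (X : Fin n → ℝ) {J : ℕ}
    (hJ : ei e ≤ J) (m : ℕ) : PA e X m ≤ dv J m := by
  have h1 : (PA e X) m ≤ dA (∑ i, e i) m := by
    have h2 : ∏ i, dA (e i) = dA (∑ i, e i) := by
      have := prod_tw_const (univ : Finset (Fin n)) e 0
      simpa only [tw_zero] using this
    rw [← h2]
    exact prod_mono_af _ _ _ (fun i n => tr_nonneg (fun m => dv_nonneg (he i) m) _ n)
      (fun i n => tr_le (fun m => dv_nonneg (he i) m) _ n) m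
  rw [dA_apply] at h1
  exact h1.trans (dv_mono (sum_nonneg fun i _ => he i) hJ m)

/-- coefficients of `∏ conj Dp * conj C` -/
def qN (j : ℕ) (i : ℝ) (v : ArithmeticFunction ℝ) (XH Xt : ℝ) (a b : ℕ) : ℝ :=
  ∑ x ∈ SPs XH Xt ×ˢ Icc 1 ⌊Xt⌋₊, if x.1.2 = a ∧ x.2 * x.1.1 = b then
    v x.2 / Real.sqrt x.2 * cc j i Xt x.1 else 0

/-- coefficients of `‖C‖^2` -/
def qC (j : ℕ) (i XH Xt : ℝ) (a b : ℕ) : ℝ :=
  ∑ x ∈ SPs XH Xt ×ˢ SPs XH Xt, if x.1.1 * x.2.2 = a ∧ x.1.2 * x.2.1 = b then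
    cc j i Xt x.1 * cc j i Xt x.2 else 0

/-- coefficients of the square of a Dirichlet polynomial -/
def qK (A : ArithmeticFunction ℝ) (a b : ℕ) : ℝ := A a * A b / Real.sqrt ((a : ℝ) * b)

lemma cc_nonneg (j : ℕ) {i : ℝ} (hi : 0 ≤ i) (Xt : ℝ) (z : ℕ × ℕ) : 0 ≤ cc j i Xt z := by
  unfold cc
  refine div_nonneg (sum_nonneg fun s _ => ?_) (Real.sqrt_nonneg _)
  have h1 := dv_nonneg (Nat.cast_nonneg j : (0:ℝ) ≤ j) (z.1 * s)
  have h2 := dv_nonneg hi (z.2 * s)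
  split_ifs
  · positivity
  · exact le_rfl

lemma qN_nonneg (j : ℕ) {i : ℝ} (hi : 0 ≤ i) (v : ArithmeticFunction ℝ) (hv : ∀ m, 0 ≤ v m)
    (XH Xt : ℝ) (a b : ℕ) : 0 ≤ qN j i v XH Xt a b := by
  unfold qN
  refine sum_nonneg fun x _ => ?_
  have h1 := hv x.2
  have h2 := cc_nonneg j hi Xt x.1
  split_ifs
  · positivity
  · exact le_rfl

lemma qC_nonneg (j : ℕ) {i : ℝ} (hi : 0 ≤ i) (XH Xt : ℝ) (a b : ℕ) : 0 ≤ qC j i XH Xt a b := by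
  unfold qC
  refine sum_nonneg fun x _ => ?_
  have h1 := cc_nonneg j hi Xt x.1
  have h2 := cc_nonneg j hi Xt x.2
  split_ifs
  · positivity
  · exact le_rfl

lemma dv_conv (J : ℕ) (b : ℕ) :
    ∑ x ∈ b.divisorsAntidiagonal, dv J x.1 * dv J x.2 = dv ((2 * J : ℕ) : ℝ) b := by
  have e4 : dv ((2 * J : ℕ) : ℝ) b = (dA J * dA J) b := by
    rw [dA_mul, dA_apply]
    push_cast
    congr 1
    ring
  rw [e4, ArithmeticFunction.mul_apply]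
  rfl

lemma dv_two (J : ℕ) (a : ℕ) : dv J a ≤ dv ((2 * J : ℕ) : ℝ) a :=
  dv_mono (Nat.cast_nonneg J) (by push_cast; linarith [(Nat.cast_nonneg J : (0:ℝ) ≤ J)]) a

lemma qN_le (j : ℕ) {i : ℝ} (hi : 0 ≤ i) {J : ℕ} (hJ1 : 1 ≤ J) (hj : j ≤ J) (hiJ : i ≤ J)
    (v : ArithmeticFunction ℝ) (hv0 : ∀ m, 0 ≤ v m) (hv : ∀ m, v m ≤ dv J m) (XH Xt : ℝ)
    (hH : 1 ≤ XH) (ht : 1 ≤ Xt) {a b : ℕ} (ha : 1 ≤ a) (hb : 1 ≤ b) :
    qN j i v XH Xt a b ≤ (1 + Real.log Xt) ^ (J ^ 2) *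
      (dv ((2 * J : ℕ) : ℝ) a * dv ((2 * J : ℕ) : ℝ) b / Real.sqrt ((a : ℝ) * b)) := by
  classical
  have hJ0 : (0 : ℝ) ≤ J := Nat.cast_nonneg J
  have ha0 : (0 : ℝ) < a := by exact_mod_cast ha
  have hb0 : (0 : ℝ) < b := by exact_mod_cast hb
  set M := (1 + Real.log Xt) ^ (J ^ 2) with hM
  have hlog : 0 ≤ Real.log Xt := Real.log_nonneg ht
  have hM0 : 0 ≤ M := by positivity
  unfold qN
  rw [← sum_filter]
  have h1 : ∀ x ∈ (SPs XH Xt ×ˢ Icc 1 ⌊Xt⌋₊).filter (fun x => x.1.2 = a ∧ x.2 * x.1.1 = b),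
      v x.2 / Real.sqrt x.2 * cc j i Xt x.1 ≤
      M * dv J a / Real.sqrt ((a : ℝ) * b) * (dv J x.2 * dv J x.1.1) := by
    intro x hx
    rw [mem_filter, mem_product, mem_Icc] at hx
    obtain ⟨⟨hx1, hx2⟩, hx3, hx4⟩ := hx
    obtain ⟨g1, g2, g3, g4, g5⟩ := mem_SPs hx1 (by linarith) (by linarith)
    have h2 := cc_le j hi hJ1 hj hiJ XH Xt hH ht x.1 hx1
    have h3 := hv x.2
    have h4 := hv0 x.2
    have x0 : (0 : ℝ) < x.2 := by exact_mod_cast hx2.1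
    have x1 : (0 : ℝ) < x.1.1 := by exact_mod_cast g1
    have x2 : (0 : ℝ) < x.1.2 := by exact_mod_cast g3
    have h5 := cc_nonneg j hi Xt x.1
    have d1 := dv_nonneg hJ0 x.2
    have e1 : Real.sqrt ((a : ℝ) * b) = Real.sqrt x.2 * Real.sqrt ((x.1.1 : ℝ) * x.1.2) := by
      rw [← hx3, ← hx4, ← Real.sqrt_mul x0.le]
      congr 1
      push_cast
      ring
    calc v x.2 / Real.sqrt x.2 * cc j i Xt x.1 ≤ dv J x.2 / Real.sqrt x.2 *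
          (M * (dv J x.1.1 * dv J x.1.2 / Real.sqrt ((x.1.1 : ℝ) * x.1.2))) := by
            gcongr
      _ = _ := by
          rw [e1, hx3]
          ring
  refine (sum_le_sum h1).trans ?_
  rw [← mul_sum]
  have h6 : ∑ x ∈ (SPs XH Xt ×ˢ Icc 1 ⌊Xt⌋₊).filter (fun x => x.1.2 = a ∧ x.2 * x.1.1 = b),
      dv J x.2 * dv J x.1.1 ≤ dv ((2 * J : ℕ) : ℝ) b := by
    rw [← dv_conv J b]
    have e2 : ∀ x ∈ (SPs XH Xt ×ˢ Icc 1 ⌊Xt⌋₊).filter (fun x => x.1.2 = a ∧ x.2 * x.1.1 = b),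
        dv (J : ℝ) x.2 * dv J x.1.1 = (fun y : ℕ × ℕ => dv (J : ℝ) y.1 * dv J y.2) (x.2, x.1.1) :=
      fun _ _ => rfl
    rw [sum_congr rfl e2, ← sum_image (f := fun y : ℕ × ℕ => dv (J : ℝ) y.1 * dv J y.2)]
    · refine sum_le_sum_of_subset_of_nonneg ?_ fun y _ _ => mul_nonneg (dv_nonneg hJ0 _) (dv_nonneg hJ0 _)
      intro y hy
      rw [mem_image] at hy
      obtain ⟨x, hx, rfl⟩ := hy
      rw [mem_filter] at hx
      rw [Nat.mem_divisorsAntidiagonal]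
      exact ⟨hx.2.2, by omega⟩
    · intro x hx y hy hxy
      rw [mem_coe, mem_filter] at hx hy
      have hxy' : (x.2, x.1.1) = (y.2, y.1.1) := hxy
      rw [Prod.mk.injEq] at hxy'
      refine Prod.ext (Prod.ext hxy'.2 ?_) hxy'.1
      rw [hx.2.1, hy.2.1]
  have d2 := dv_nonneg hJ0 a
  have d3 := dv_two J a
  have d4 := dv_nonneg (Nat.cast_nonneg (2 * J)) b
  calc M * dv J a / Real.sqrt ((a : ℝ) * b) * _ ≤
      M * dv J a / Real.sqrt ((a : ℝ) * b) * dv ((2 * J : ℕ) : ℝ) b :=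
        mul_le_mul_of_nonneg_left h6 (by positivity)
    _ ≤ M * dv ((2 * J : ℕ) : ℝ) a / Real.sqrt ((a : ℝ) * b) * dv ((2 * J : ℕ) : ℝ) b := by gcongr
    _ = _ := by ring

lemma qC_le (j : ℕ) {i : ℝ} (hi : 0 ≤ i) {J : ℕ} (hJ1 : 1 ≤ J) (hj : j ≤ J) (hiJ : i ≤ J)
    (XH Xt : ℝ) (hH : 1 ≤ XH) (ht : 1 ≤ Xt) {a b : ℕ} (ha : 1 ≤ a) (hb : 1 ≤ b) :
    qC j i XH Xt a b ≤ (1 + Real.log Xt) ^ (2 * J ^ 2) *
      (dv ((2 * J : ℕ) : ℝ) a * dv ((2 * J : ℕ) : ℝ) b / Real.sqrt ((a : ℝ) * b)) := by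
  classical
  have hJ0 : (0 : ℝ) ≤ J := Nat.cast_nonneg J
  have ha0 : (0 : ℝ) < a := by exact_mod_cast ha
  have hb0 : (0 : ℝ) < b := by exact_mod_cast hb
  set M := (1 + Real.log Xt) ^ (J ^ 2) with hM
  have hlog : 0 ≤ Real.log Xt := Real.log_nonneg ht
  have hM0 : 0 ≤ M := by positivity
  have hM2 : (1 + Real.log Xt) ^ (2 * J ^ 2) = M * M := by
    rw [hM, ← pow_add]
    congr 1
    ring
  rw [hM2]
  unfold qC
  rw [← sum_filter]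
  have h1 : ∀ x ∈ (SPs XH Xt ×ˢ SPs XH Xt).filter
      (fun x => x.1.1 * x.2.2 = a ∧ x.1.2 * x.2.1 = b),
      cc j i Xt x.1 * cc j i Xt x.2 ≤
      M * M / Real.sqrt ((a : ℝ) * b) *
        ((dv J x.1.1 * dv J x.2.2) * (dv J x.1.2 * dv J x.2.1)) := by
    intro x hx
    rw [mem_filter, mem_product] at hx
    obtain ⟨⟨hx1, hx2⟩, hx3, hx4⟩ := hx
    obtain ⟨g1, g2, g3, g4, g5⟩ := mem_SPs hx1 (by linarith) (by linarith)
    obtain ⟨k1, k2, k3, k4, k5⟩ := mem_SPs hx2 (by linarith) (by linarith)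
    have h2 := cc_le j hi hJ1 hj hiJ XH Xt hH ht x.1 hx1
    have h3 := cc_le j hi hJ1 hj hiJ XH Xt hH ht x.2 hx2
    have x1 : (0 : ℝ) < x.1.1 := by exact_mod_cast g1
    have x2 : (0 : ℝ) < x.1.2 := by exact_mod_cast g3
    have y1 : (0 : ℝ) < x.2.1 := by exact_mod_cast k1
    have y2 : (0 : ℝ) < x.2.2 := by exact_mod_cast k3
    have h5 := cc_nonneg j hi Xt x.2
    have d1 := dv_nonneg hJ0 x.1.1
    have d2 := dv_nonneg hJ0 x.1.2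
    have e1 : Real.sqrt ((a : ℝ) * b) =
        Real.sqrt ((x.1.1 : ℝ) * x.1.2) * Real.sqrt ((x.2.1 : ℝ) * x.2.2) := by
      rw [← hx3, ← hx4, ← Real.sqrt_mul (by positivity)]
      congr 1
      push_cast
      ring
    calc cc j i Xt x.1 * cc j i Xt x.2 ≤
          (M * (dv J x.1.1 * dv J x.1.2 / Real.sqrt ((x.1.1 : ℝ) * x.1.2))) *
          (M * (dv J x.2.1 * dv J x.2.2 / Real.sqrt ((x.2.1 : ℝ) * x.2.2))) :=
            mul_le_mul h2 h3 h5 (by positivity)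
      _ = _ := by
          rw [e1]
          ring
  refine (sum_le_sum h1).trans ?_
  rw [← mul_sum]
  have h6 : ∑ x ∈ (SPs XH Xt ×ˢ SPs XH Xt).filter (fun x => x.1.1 * x.2.2 = a ∧ x.1.2 * x.2.1 = b),
      ((dv (J : ℝ) x.1.1 * dv J x.2.2) * (dv J x.1.2 * dv J x.2.1)) ≤
        dv ((2 * J : ℕ) : ℝ) a * dv ((2 * J : ℕ) : ℝ) b := by
    rw [← dv_conv J a, ← dv_conv J b, sum_mul_sum, ← sum_product']
    have e2 : ∀ x ∈ (SPs XH Xt ×ˢ SPs XH Xt).filter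
        (fun x => x.1.1 * x.2.2 = a ∧ x.1.2 * x.2.1 = b),
        ((dv (J : ℝ) x.1.1 * dv J x.2.2) * (dv J x.1.2 * dv J x.2.1)) =
        (fun y : (ℕ × ℕ) × (ℕ × ℕ) => dv (J : ℝ) y.1.1 * dv J y.1.2 * (dv J y.2.1 * dv J y.2.2))
          ((x.1.1, x.2.2), (x.1.2, x.2.1)) :=
      fun _ _ => rfl
    rw [sum_congr rfl e2, ← sum_image (f := fun y : (ℕ × ℕ) × (ℕ × ℕ) =>
      dv (J : ℝ) y.1.1 * dv J y.1.2 * (dv J y.2.1 * dv J y.2.2))]
    · refine sum_le_sum_of_subset_of_nonneg ?_ fun y _ _ => ?_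
      · intro y hy
        rw [mem_image] at hy
        obtain ⟨x, hx, rfl⟩ := hy
        rw [mem_filter] at hx
        rw [mem_product, Nat.mem_divisorsAntidiagonal, Nat.mem_divisorsAntidiagonal]
        exact ⟨⟨hx.2.1, by omega⟩, ⟨hx.2.2, by omega⟩⟩
      · have := dv_nonneg hJ0 y.1.1
        have := dv_nonneg hJ0 y.1.2
        have := dv_nonneg hJ0 y.2.1
        have := dv_nonneg hJ0 y.2.2
        positivity
    · intro x _ y _ hxy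
      have hxy' : ((x.1.1, x.2.2), (x.1.2, x.2.1)) = ((y.1.1, y.2.2), (y.1.2, y.2.1)) := hxy
      simp only [Prod.mk.injEq] at hxy'
      obtain ⟨⟨c1, c2⟩, c3, c4⟩ := hxy'
      exact Prod.ext (Prod.ext c1 c3) (Prod.ext c4 c2)
  calc _ ≤ M * M / Real.sqrt ((a : ℝ) * b) * (dv ((2 * J : ℕ) : ℝ) a * dv ((2 * J : ℕ) : ℝ) b) :=
        mul_le_mul_of_nonneg_left h6 (by positivity)
    _ = _ := by ring

end

end Pool.Agent.K1H84.MW
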