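import Pool.Agent.H306R2.Contour
import Pool.Agent.H802R2.MK_R1

set_option autoImplicit false

/-! Window integrals of `ζ^j (b/a)^{it}` with short Gaussian windows: the closed form with all the
terms off the diagonal (the contour shift is that of `Pool.Agent.H306R2.contour`). -/

namespace Pool.Agent.K1H84.MW

open MeasureTheory Filter Topology Finset
open Pool.Agent.H306R2

noncomputable section

/-- Contour shift for a window, off-diagonal terms kept. -/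
theorem contourX (Φ : ℂ → ℂ) (B : ℝ) (hB : 0 ≤ B) (N : ℕ)
    (hd : ∀ s : ℂ, 0 < s.re → s ≠ 1 → DifferentiableAt ℂ Φ s)
    (hb : ∀ s : ℂ, 1 / 2 ≤ s.re → 1 ≤ |s.im| → ‖Φ s‖ ≤ B * (‖s‖ + 1) ^ N)
    (f g : ℕ → ℝ) (Y τ H R M : ℝ) (hY : 1 ≤ Y) (hH : 1 ≤ H) (c : ℕ) (hf0 : f 0 = 0)
    (hf : ∀ n, |f n| ≤ (n : ℝ) ^ c) (hg : ∀ n, |g n| ≤ (n : ℝ) ^ c)
    (hser : ∀ y : ℝ, HasSum (fun n : ℕ => (f n : ℂ) *
        (n : ℂ) ^ (-(((1 / 2 + ((c:ℝ) + 2) : ℝ) : ℂ) + y * Complex.I)))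
        (Φ (((1 / 2 + ((c:ℝ) + 2) : ℝ) : ℂ) + y * Complex.I)))
    (hR : 0 ≤ R) (hτ : 1 ≤ τ - R) (hM : (c:ℝ) + 5 / 2 + (τ + R) + 1 ≤ M) :
    ‖(∫ t in (τ - R)..(τ + R), Φ (1 / 2 + t * Complex.I) *
        (starRingEnd ℂ) (Dp g Y (1 / 2 + t * Complex.I)) * (gw τ H t : ℂ)) -
      ∫ y, ∑' n, Fr f g Y τ H ((c:ℝ) + 2) n y‖ ≤
      Z2 * (Y ^ (2 * c + 3) * Real.exp (((c:ℝ) + 2) ^ 2 / H ^ 2)) *
        (2 * Real.exp (-(R ^ 2 / (2 * H ^ 2)))) +
      2 * (((c:ℝ) + 2) * (B * M ^ N * Y ^ (2 * c + 3) *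
        (Real.exp (((c:ℝ) + 2) ^ 2 / H ^ 2) * Real.exp (-(R ^ 2 / H ^ 2))))) := by
  have hH0 : 0 < H := by linarith
  set Ψ : ℂ → ℂ := fun s => Φ s * Gp g Y s * Wa τ H s with hΨ
  set σ : ℝ := 1 / 2 + ((c:ℝ) + 2) with hσ
  have hc0 : (0:ℝ) ≤ c := Nat.cast_nonneg c
  -- rectangle
  have hrect := Complex.integral_boundary_rect_eq_zero_of_differentiableOn Ψ
    ⟨1/2, τ - R⟩ ⟨σ, τ + R⟩ ?_
  swap
  · intro s hs
    simp only at hs
    rw [Complex.mem_reProdIm] at hs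
    obtain ⟨h1, h2⟩ := hs
    rw [Set.uIcc_of_le (by rw [hσ]; linarith)] at h1
    rw [Set.uIcc_of_le (by linarith)] at h2
    have hs1 : s ≠ 1 := by
      rintro rfl
      simp at h2
      linarith [h2.1]
    have hd1 := hd s (by linarith [h1.1]) hs1
    exact ((hd1.mul (Gp_differentiable g Y s)).mul (Wa_differentiable τ H s)).differentiableWithinAt
  simp only at hrect
  -- left line
  have hleft : (∫ y in (τ - R)..(τ + R), Ψ (((1/2 : ℝ) : ℂ) + y * Complex.I)) =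
      ∫ t in (τ - R)..(τ + R), Φ (1 / 2 + t * Complex.I) *
        (starRingEnd ℂ) (Dp g Y (1 / 2 + t * Complex.I)) * (gw τ H t : ℂ) := by
    refine intervalIntegral.integral_congr fun t _ => ?_
    simp only [hΨ]
    have e : (((1/2 : ℝ) : ℂ) + (t:ℂ) * Complex.I) = 1 / 2 + (t:ℂ) * Complex.I := by
      push_cast; rfl
    rw [e, Wa_half, Gp_half]
  -- right line
  have hright : ∀ y : ℝ, Ψ ((σ : ℂ) + y * Complex.I) = ∑' n, Fr f g Y τ H ((c:ℝ) + 2) n y := by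
    intro y
    have h1 := (hser y).mul_right (Gp g Y (((1 / 2 + ((c:ℝ) + 2) : ℝ) : ℂ) + y * Complex.I) *
      Wa τ H (((1 / 2 + ((c:ℝ) + 2) : ℝ) : ℂ) + y * Complex.I))
    have h2 := h1.tsum_eq
    simp only [hΨ, Fr, hσ]
    rw [mul_assoc, ← h2]
    refine tsum_congr fun n => ?_
    ring
  have hGnorm : ∀ y : ℝ, ‖∑' n, Fr f g Y τ H ((c:ℝ) + 2) n y‖ ≤
      Z2 * (Y ^ (2 * c + 3) * Real.exp (((c:ℝ) + 2) ^ 2 / H ^ 2)) * gw τ H y := by
    intro y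
    have h1 : HasSum (fun n : ℕ => 1 / (n:ℝ) ^ 2 *
        (Y ^ (2 * c + 3) * Real.exp (((c:ℝ) + 2) ^ 2 / H ^ 2)) * gw τ H y)
        (Z2 * (Y ^ (2 * c + 3) * Real.exp (((c:ℝ) + 2) ^ 2 / H ^ 2)) * gw τ H y) :=
      (Z2_summable.hasSum.mul_right _).mul_right _
    exact tsum_of_norm_bounded h1 fun n => Fr_norm' f g Y τ H hY hH0 c hf0 hf hg n y
  -- continuity / integrability of the right line function
  have hGcont : Continuous (fun y : ℝ => ∑' n, Fr f g Y τ H ((c:ℝ) + 2) n y) := by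
    have h1 : (fun y : ℝ => ∑' n, Fr f g Y τ H ((c:ℝ) + 2) n y) =
        fun y : ℝ => ∑' n : ℕ, Fr f g Y τ H ((c:ℝ) + 2) n y := rfl
    refine continuous_tsum (u := fun n : ℕ => 1 / (n:ℝ) ^ 2 *
        (Y ^ (2 * c + 3) * Real.exp (((c:ℝ) + 2) ^ 2 / H ^ 2)) * (1 / (H * Real.sqrt Real.pi))) ?_ ?_ ?_
    · intro n
      rcases Nat.eq_zero_or_pos n with h | h
      · subst h
        have : Fr f g Y τ H ((c:ℝ) + 2) 0 = fun _ => 0 := by
          ext y; exact Fr_zero f g Y τ H _ hf0 y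
        rw [this]; exact continuous_const
      · exact Fr_continuous f g Y τ H _ n h
    · exact (Z2_summable.mul_right _).mul_right _
    · intro n y
      refine (Fr_norm' f g Y τ H hY hH0 c hf0 hf hg n y).trans ?_
      have : gw τ H y ≤ 1 / (H * Real.sqrt Real.pi) := by
        unfold gw
        have : Real.exp (-((y - τ) ^ 2 / H ^ 2)) ≤ 1 := by
          rw [Real.exp_le_one_iff]
          have : 0 ≤ (y - τ) ^ 2 / H ^ 2 := by positivity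
          linarith
        gcongr
      gcongr
  have hGint : Integrable (fun y : ℝ => ∑' n, Fr f g Y τ H ((c:ℝ) + 2) n y) :=
    Integrable.mono' ((gw_integrable τ H hH0).const_mul _) hGcont.aestronglyMeasurable
      (Eventually.of_forall hGnorm)
  have hright2 : (∫ y in (τ - R)..(τ + R), Ψ ((σ : ℂ) + y * Complex.I)) =
      (∫ y, ∑' n, Fr f g Y τ H ((c:ℝ) + 2) n y) -
        ∫ y in (Set.Ioc (τ - R) (τ + R))ᶜ, ∑' n, Fr f g Y τ H ((c:ℝ) + 2) n y := by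
    have h1 : (∫ y in (τ - R)..(τ + R), Ψ ((σ : ℂ) + y * Complex.I)) =
        ∫ y in (τ - R)..(τ + R), ∑' n, Fr f g Y τ H ((c:ℝ) + 2) n y :=
      intervalIntegral.integral_congr fun y _ => hright y
    rw [h1, intervalIntegral.integral_of_le (by linarith)]
    rw [← integral_add_compl measurableSet_Ioc hGint]
    ring
  have htail : ‖∫ y in (Set.Ioc (τ - R) (τ + R))ᶜ, ∑' n, Fr f g Y τ H ((c:ℝ) + 2) n y‖ ≤
      Z2 * (Y ^ (2 * c + 3) * Real.exp (((c:ℝ) + 2) ^ 2 / H ^ 2)) *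
        (2 * Real.exp (-(R ^ 2 / (2 * H ^ 2)))) := by
    have hZ := Z2_nonneg
    calc ‖∫ y in (Set.Ioc (τ - R) (τ + R))ᶜ, ∑' n, Fr f g Y τ H ((c:ℝ) + 2) n y‖ ≤
        ∫ y in (Set.Ioc (τ - R) (τ + R))ᶜ,
          Z2 * (Y ^ (2 * c + 3) * Real.exp (((c:ℝ) + 2) ^ 2 / H ^ 2)) * gw τ H y := by
          refine norm_integral_le_of_norm_le ((gw_integrable τ H hH0).const_mul _).integrableOn ?_
          exact Eventually.of_forall hGnorm
      _ = Z2 * (Y ^ (2 * c + 3) * Real.exp (((c:ℝ) + 2) ^ 2 / H ^ 2)) *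
          ∫ y in (Set.Ioc (τ - R) (τ + R))ᶜ, gw τ H y := by rw [integral_const_mul]
      _ ≤ _ := by
          have := gw_tail τ H R hH0 hR
          gcongr
  have hz1 := horiz_bound Φ B hB N hb g Y τ H hY hH c hg (τ - R) R M
    (by rw [show τ - R - τ = -R by ring, abs_neg, abs_of_nonneg hR])
    (by rw [abs_of_nonneg (by linarith)]; exact hτ)
    (by rw [abs_of_nonneg (by linarith : 0 ≤ τ - R)]; linarith)
  have hz2 := horiz_bound Φ B hB N hb g Y τ H hY hH c hg (τ + R) R M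
    (by rw [show τ + R - τ = R by ring, abs_of_nonneg hR])
    (by rw [abs_of_nonneg (by linarith)]; linarith)
    (by rw [abs_of_nonneg (by linarith : 0 ≤ τ + R)]; linarith)
  -- combine
  set hor1 := ∫ x : ℝ in (1/2 : ℝ)..σ, Ψ (x + ((τ - R : ℝ) : ℂ) * Complex.I) with hh1
  set hor2 := ∫ x : ℝ in (1/2 : ℝ)..σ, Ψ (x + ((τ + R : ℝ) : ℂ) * Complex.I) with hh2
  have hkey : (∫ y in (τ - R)..(τ + R), Ψ (((1/2 : ℝ) : ℂ) + y * Complex.I)) =
      (∫ y in (τ - R)..(τ + R), Ψ ((σ : ℂ) + y * Complex.I)) - Complex.I * (hor1 - hor2) := by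
    simp only [smul_eq_mul] at hrect
    have hI : Complex.I * Complex.I = -1 := Complex.I_mul_I
    linear_combination (Complex.I) * hrect + (-(∫ y in (τ - R)..(τ + R), Ψ ((σ : ℂ) + y * Complex.I)) +
      (∫ y in (τ - R)..(τ + R), Ψ (((1/2 : ℝ) : ℂ) + y * Complex.I))) * hI
  rw [← hleft, hkey, hright2]
  set T0 := (∫ y, ∑' n, Fr f g Y τ H ((c:ℝ) + 2) n y)
  set T1 := ∫ y in (Set.Ioc (τ - R) (τ + R))ᶜ, ∑' n, Fr f g Y τ H ((c:ℝ) + 2) n y
  have e : T0 - T1 - Complex.I * (hor1 - hor2) - T0 = - T1 - Complex.I * (hor1 - hor2) := by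
    ring
  rw [e]
  have hz : ‖Complex.I * (hor1 - hor2)‖ ≤ 2 * (((c:ℝ) + 2) * (B * M ^ N * Y ^ (2 * c + 3) *
        (Real.exp (((c:ℝ) + 2) ^ 2 / H ^ 2) * Real.exp (-(R ^ 2 / H ^ 2))))) := by
    rw [norm_mul, Complex.norm_I, one_mul, two_mul]
    exact (norm_sub_le _ _).trans (add_le_add hz1 hz2)
  calc ‖-T1 - Complex.I * (hor1 - hor2)‖ ≤
      ‖-T1‖ + ‖Complex.I * (hor1 - hor2)‖ := norm_sub_le _ _
    _ ≤ _ := by
        rw [norm_neg]
        gcongr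

/-- a term of the closed form -/
def tm (f : ℕ → ℝ) (U : ℝ) (a b n : ℕ) (τ : ℝ) : ℂ :=
  ((f n * Real.sqrt ((a : ℝ) / n) * Real.exp (-(U ^ 2 * (Real.log b - Real.log n) ^ 2 / 4)) : ℝ) : ℂ) *
    H295MK.fr n b τ

/-- the closed form -/
def Gc (j : ℕ) (U : ℝ) (a b : ℕ) (τ : ℝ) : ℂ :=
  ∑ n ∈ Icc 1 (2 * b), tm (fun n => (zR ^ j * Pool.Agent.H802R2.MK.dl a) n) U a b n τ

lemma fr_norm (a b : ℕ) (t : ℝ) : ‖H295MK.fr a b t‖ = 1 := by
  unfold H295MK.fr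
  exact Complex.norm_exp_ofReal_mul_I _

/-- value of the terms of the right line -/
lemma Fr_dl (f : ℕ → ℝ) (Y τ H : ℝ) (hH : 0 < H) (ρ : ℝ) (a b n : ℕ) (ha : 1 ≤ a) (hb : 1 ≤ b)
    (hbY : (b : ℝ) ≤ Y) (hn : 1 ≤ n) :
    ((Real.sqrt ((a : ℝ) * b) : ℝ) : ℂ) *
      ∫ y, Fr f (fun n => Pool.Agent.H802R2.MK.dl b n) Y τ H ρ n y = tm f H a b n τ := by
  have hb0 : (0 : ℝ) < b := by exact_mod_cast hb
  have ha0 : (0 : ℝ) < a := by exact_mod_cast ha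
  have hn0 : (0 : ℝ) < n := by exact_mod_cast hn
  rw [Fr_integral f _ Y τ H hH ρ n hn, sum_eq_single b]
  · rw [Pool.Agent.H802R2.MK.dl_self hb, mul_one]
    unfold tm H295MK.fr
    have e1 : Complex.exp ((1 / 2 + τ * Complex.I) * ((Real.log b - Real.log n : ℝ) : ℂ)) =
        ((Real.sqrt ((b : ℝ) / n) : ℝ) : ℂ) *
          Complex.exp (((Real.log b - Real.log n) * τ : ℝ) * Complex.I) := by
      have h1 : Real.sqrt ((b : ℝ) / n) = Real.exp (1 / 2 * (Real.log b - Real.log n)) := by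
        rw [Real.sqrt_eq_rpow, Real.rpow_def_of_pos (by positivity),
          Real.log_div hb0.ne' hn0.ne']
        congr 1
        ring
      rw [h1, Complex.ofReal_exp, ← Complex.exp_add]
      congr 1
      push_cast
      ring
    rw [e1]
    have e2 : Real.sqrt ((a : ℝ) * b) * (Real.sqrt ((b : ℝ) / n) * (b : ℝ)⁻¹) =
        Real.sqrt ((a : ℝ) / n) := by
      rw [Real.sqrt_mul ha0.le, Real.sqrt_div hb0.le, Real.sqrt_div ha0.le]
      have h2 : Real.sqrt b * Real.sqrt b = b := Real.mul_self_sqrt hb0.le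
      have h3 : Real.sqrt (b : ℝ) ≠ 0 := (Real.sqrt_pos.2 hb0).ne'
      have h4 : Real.sqrt (n : ℝ) ≠ 0 := (Real.sqrt_pos.2 hn0).ne'
      field_simp
      nlinarith [h2]
    have e3 : ((Real.sqrt ((a : ℝ) / n) : ℝ) : ℂ) =
        ((Real.sqrt ((a : ℝ) * b) : ℝ) : ℂ) * (((Real.sqrt ((b : ℝ) / n) : ℝ) : ℂ) * (b : ℂ)⁻¹) := by
      rw [← e2]
      push_cast
      ring
    push_cast
    rw [e3]
    ring
  · intro m _ hm
    rw [Pool.Agent.H802R2.MK.dl_ne hm]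
    simp
  · intro h
    exact absurd (mem_Icc.2 ⟨hb, Nat.le_floor hbY⟩) h

end

end Pool.Agent.K1H84.MW
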