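import Pool.Agent.K1H84.MW.Heights2
import Pool.Agent.K1H84.MW.Avg

set_option autoImplicit false
set_option linter.unusedSectionVars false

/-! The lower bound for almost all windows. -/

namespace Pool.Agent.K1H84.MW

open Finset MeasureTheory Filter Topology
open Pool.Agent.H306R2 hiding fr
open Pool.Agent.TH535

noncomputable section

theorem heights {n : ℕ} (κ : ℝ) (hκ0 : 0 < κ) (j : ℕ) (q : Fin n → ℕ) (β : Fin n → ℝ)
    (hA : AdmN κ j q β) (N S : ℝ) (K : Fin n → ℝ) (hN : 0 < N)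
    (hNV : N < aF κ * VL j (fun a => κ / q a) (1 - ∑ a, β a) β)
    (hSV : aF κ * Vn j (κ - j) (1 - ∑ a, β a) (∑ a, β a) < S)
    (hKV : ∀ i, aF κ * ((β i) ^ (κ ^ 2 / q i) /
        Real.Gamma (κ ^ 2 / q i + 1)) ^ (q i) < K i)
    (x : ℝ) (hx : 0 < x) (hx2 : x < 1 / 4) :
    ∃ C : ℕ, ∀ᶠ T : ℝ in atTop, ∀ U : ℝ, Real.log T ≤ U → U * Real.log T ≤ T / 8 →
      ∃ E : Set ℝ, MeasurableSet E ∧ volume E ≤ ENNReal.ofReal (T * Real.log T ^ C / U) ∧
      ∀ τ ∈ Set.Icc T (3 * T), τ ∉ E →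
        (N / (S ^ (1 / 2 : ℝ) * ∏ i, K i ^ (1 / (2 * (q i : ℝ))))) ^ (2 * κ / (j:ℝ)) *
          Real.log (Yt (1 / 4 + x) T) ^ (κ ^ 2) ≤
        ∫ t in (τ - U * Real.log T)..(τ + U * Real.log T),
          ‖riemannZeta (1 / 2 + t * Complex.I)‖ ^ (2 * κ) * gw τ U t := by
  classical
  have hη2 : (1 / 4 + x : ℝ) < 1 / 2 := by linarith
  obtain ⟨C1, h1⟩ := typN κ hκ0 j q β hA N hNV x hx hx2
  obtain ⟨C2, h2⟩ := typC κ hκ0 j q β hA S hSV x hx hx2
  have h3 := fun i => typK κ hκ0 (q i) (hA.hq i) (β i) (hA.hβ i) (hA.hβq i) (K i) (hKV i) x hx hx2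
  choose C3 h3 using h3
  have h3' := eventually_all.mpr h3
  set C : ℕ := C1 + C2 + ∑ i, C3 i with hC
  have hj0 := hA.j0
  have hq0 := hA.q0
  have hα0 := hA.α0 hκ0
  have hθ0 := hA.θ0
  have hi0 := hA.i0 hκ0
  have hjk := hA.jk hκ0
  have hVn0 : 0 < Vn j (κ - j) (1 - ∑ a, β a) (∑ a, β a) :=
    VL_pos hA.hj (fun _ => hi0) one_pos hα0 (fun _ => hθ0)
  have hS0 : 0 < S := lt_trans (mul_pos (aF_pos hκ0) hVn0) hSV
  have hV0 : ∀ i, 0 < (β i) ^ (κ ^ 2 / q i) / Real.Gamma (κ ^ 2 / q i + 1) := fun i => by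
    have h1 := hA.hβ i
    have h2 := hq0 i
    have h3 := Real.Gamma_pos_of_pos (by positivity : 0 < κ ^ 2 / q i + 1)
    positivity
  have hK0 : ∀ i, 0 < K i := fun i =>
    lt_trans (mul_pos (aF_pos hκ0) (pow_pos (hV0 i) _)) (hKV i)
  refine ⟨C + 1, ?_⟩
  filter_upwards [h1, h2, h3', eventually_gt_atTop 1,
    Real.tendsto_log_atTop.eventually_ge_atTop ((n : ℝ) + 2),
    (Yt_tendsto (η := 1 / 4 + x) hη2).eventually_gt_atTop 0] with T h1 h2 h3 hT1 hlog hYl U hU1 hU2
  have hT0 : 0 < T := by linarith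
  set L := Real.log T with hL
  have hn0 : (0 : ℝ) ≤ n := Nat.cast_nonneg n
  have hL1 : 1 ≤ L := by linarith
  have hU0 : 0 < U := by linarith
  obtain ⟨E1, m1, v1, p1⟩ := h1 U hU1 hU2
  obtain ⟨E2, m2, v2, p2⟩ := h2 U hU1 hU2
  have h4 := fun i => h3 i U hU1 hU2
  choose E3 m3 v3 p3 using h4
  have hcmp : ∀ c : ℕ, c ≤ C → ENNReal.ofReal (T * L ^ c / U) ≤ ENNReal.ofReal (T * L ^ C / U) := by
    intro c hc
    refine ENNReal.ofReal_le_ofReal ?_
    have := pow_le_pow_right₀ hL1 hc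
    gcongr
  refine ⟨E1 ∪ E2 ∪ ⋃ i, E3 i, (m1.union m2).union (MeasurableSet.iUnion m3), ?_, fun τ hτ hτE => ?_⟩
  · have hv : volume (E1 ∪ E2 ∪ ⋃ i, E3 i) ≤ ENNReal.ofReal (T * L ^ C / U) +
        ENNReal.ofReal (T * L ^ C / U) + ∑ _i : Fin n, ENNReal.ofReal (T * L ^ C / U) := by
      refine (measure_union_le _ _).trans (add_le_add ?_ ?_)
      · refine (measure_union_le _ _).trans (add_le_add ?_ ?_)
        · exact v1.trans (hcmp C1 (by rw [hC]; omega))
        · exact v2.trans (hcmp C2 (by rw [hC]; omega))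
      · refine (measure_iUnion_le _).trans ?_
        rw [tsum_fintype]
        refine sum_le_sum fun i _ => (v3 i).trans (hcmp (C3 i) ?_)
        have := single_le_sum (f := C3) (fun _ _ => Nat.zero_le _) (mem_univ i)
        rw [hC]; omega
    refine hv.trans ?_
    rw [sum_const, card_univ, Fintype.card_fin, nsmul_eq_mul]
    have hp : 0 ≤ T * L ^ C / U := by positivity
    rw [← ENNReal.ofReal_add hp hp, ← ENNReal.ofReal_natCast, ← ENNReal.ofReal_mul hn0,
      ← ENNReal.ofReal_add (by positivity) (by positivity)]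
    refine ENNReal.ofReal_le_ofReal ?_
    calc T * L ^ C / U + T * L ^ C / U + n * (T * L ^ C / U) = T * (L ^ C * (n + 2)) / U := by ring
      _ ≤ T * (L ^ C * L) / U := by gcongr
      _ = _ := by rw [← pow_succ]
  · have q1 := p1 τ hτ (fun h => hτE (Or.inl (Or.inl h)))
    have q2 := p2 τ hτ (fun h => hτE (Or.inl (Or.inr h)))
    have q3 := fun i => p3 i τ hτ (fun h => hτE (Or.inr (Set.mem_iUnion.2 ⟨i, h⟩)))
    set Λ := Real.log (Yt (1 / 4 + x) T) ^ (κ ^ 2) with hΛ
    have hΛ0 : 0 < Λ := Real.rpow_pos_of_pos hYl _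
    have h := window_holder_real n q (fun i => by linarith [hA.hq i]) j (2 * κ) hA.hj (by positivity) hjk
      (fun t => riemannZeta (1 / 2 + t * Complex.I))
      (fun t => Ct j (κ - j) (Yt (1 / 4 + x) T ^ (1 - ∑ a, β a)) (Yt (1 / 4 + x) T ^ (∑ a, β a)) t)
      (fun i t => (starRingEnd ℂ) (Dp (tr (dA (κ / (q i : ℝ))) (Yt (1 / 4 + x) T ^ β i))
        (Yt (1 / 4 + x) T ^ β i) (1 / 2 + t * Complex.I)))
      zeta_line_continuous (by
        unfold Ct
        exact continuous_finsetSum _ fun b _ => continuous_const.mul (fr_cont _ _))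
      (fun i => Complex.continuous_conj.comp (Dp_line_continuous _ _))
      (gw τ U) (gw_continuous _ _) (fun t => gw_nonneg _ _ _ hU0)
      (τ - U * L) (τ + U * L) (by nlinarith) (N * Λ) (S * Λ) (fun i => K i * Λ)
      (by positivity) (by positivity) (fun i => mul_pos (hK0 i) hΛ0)
      q1 q2 (fun i => by
        simp only [RCLike.norm_conj]
        exact q3 i)
    rw [pullR q j (2 * κ) hA.hj (by positivity) hjk N S K Λ hN hS0 hK0 hΛ0] at h
    exact h

theorem windows {n : ℕ} (κ : ℝ) (hκ0 : 0 < κ) (j : ℕ) (q : Fin n → ℕ) (β : Fin n → ℝ)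
    (hA : AdmN κ j q β) (N S : ℝ) (K : Fin n → ℝ) (hN : 0 < N)
    (hNV : N < aF κ * VL j (fun a => κ / q a) (1 - ∑ a, β a) β)
    (hSV : aF κ * Vn j (κ - j) (1 - ∑ a, β a) (∑ a, β a) < S)
    (hKV : ∀ i, aF κ * ((β i) ^ (κ ^ 2 / q i) /
        Real.Gamma (κ ^ 2 / q i + 1)) ^ (q i) < K i)
    (x : ℝ) (hx : 0 < x) (hx2 : x < 1 / 4) :
    ∃ C : ℕ, ∀ᶠ T : ℝ in atTop, ∀ V : ℝ, 1 ≤ V → volume {t : ℝ | t ∈ Set.Icc T (2 * T) ∧ ∃ U : ℝ,
      V ≤ U ∧ U ≤ T ∧
      ∫ s in t..(t + U), ‖riemannZeta (1 / 2 + s * Complex.I)‖ ^ (2 * κ) <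
        (1 - 3 * x) * ((N / (S ^ (1 / 2 : ℝ) * ∏ i, K i ^ (1 / (2 * (q i : ℝ))))) ^ (2 * κ / (j:ℝ)) *
          Real.log (Yt (1 / 4 + x) T) ^ (κ ^ 2)) * U} ≤ ENNReal.ofReal (T * Real.log T ^ C / V) := by
  classical
  obtain ⟨C, hC⟩ := heights κ hκ0 j q β hA N S K hN hNV hSV hKV x hx hx2
  have hη2 : (1 / 4 + x : ℝ) < 1 / 2 := by linarith
  have hlx : 0 < Real.log (1 + x) := Real.log_pos (by linarith)
  set cc : ℝ := 1 / Real.log (1 + x) + 2 with hcc
  have hcc0 : 0 < cc := by positivity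
  refine ⟨C + 4, ?_⟩
  filter_upwards [hC, eventually_gt_atTop 1, Real.tendsto_log_atTop.eventually_ge_atTop 8,
    Real.tendsto_log_atTop.eventually_ge_atTop (4 / x),
    Real.tendsto_log_atTop.eventually_ge_atTop (cc / x),
    (Yt_tendsto (η := 1 / 4 + x) hη2).eventually_gt_atTop 0] with T hC hT1 hL8 hLx hLc hYl V hV1
  have hT0 : 0 < T := by linarith
  set L := Real.log T with hL
  have hL1 : 1 ≤ L := by linarith
  have hL0 : 0 < L := by linarith
  set J := (N / (S ^ (1 / 2 : ℝ) * ∏ i, K i ^ (1 / (2 * (q i : ℝ))))) ^ (2 * κ / (j:ℝ)) *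
          Real.log (Yt (1 / 4 + x) T) ^ (κ ^ 2) with hJ
  set F : ℝ → ℝ := fun s => ‖riemannZeta (1 / 2 + s * Complex.I)‖ ^ (2 * κ) with hF
  have hFc : Continuous F := zeta_line_continuous.norm.rpow_const fun _ => Or.inr (by positivity)
  have hF0 : ∀ s, 0 ≤ F s := fun s => by positivity
  have hV0 : 0 < V := by linarith
  rcases lt_or_ge V (L ^ 3) with hVL | hVL
  · -- the trivial bound
    refine (measure_mono (fun t ht => ht.1 : _ ⊆ Set.Icc T (2 * T))).trans ?_
    rw [Real.volume_Icc]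
    refine ENNReal.ofReal_le_ofReal ?_
    rw [le_div_iff₀ hV0]
    have h1 : V ≤ L ^ (C + 4) := hVL.le.trans (pow_le_pow_right₀ hL1 (by omega))
    nlinarith
  -- the scales
  set W : ℕ → ℝ := fun m => V * (1 + x) ^ m with hW
  have hW0 : ∀ m, 0 < W m := fun m => by
    have : 0 < 1 + x := by linarith
    positivity
  have hWL : ∀ m, V ≤ W m := fun m =>
    le_mul_of_one_le_right (by positivity) (one_le_pow₀ (by linarith))
  have hex : ∀ m, ∃ E : Set ℝ, MeasurableSet E ∧ (W m ≤ T →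
      volume E ≤ ENNReal.ofReal (T * L ^ C / (W m / L ^ 2)) ∧
      ∀ τ ∈ Set.Icc T (3 * T), τ ∉ E → J ≤ ∫ s in (τ - W m / L)..(τ + W m / L),
        F s * gw τ (W m / L ^ 2) s) := by
    intro m
    by_cases hm : W m ≤ T
    · have e1 : W m / L ^ 2 * L = W m / L := by field_simp
      obtain ⟨E, k1, k2, k3⟩ := hC (W m / L ^ 2) (by
          rw [le_div_iff₀ (by positivity)]
          have := hWL m
          nlinarith [hVL]) (by
          rw [e1, div_le_iff₀ hL0]
          nlinarith)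
      refine ⟨E, k1, fun _ => ⟨k2, fun τ hτ hτE => ?_⟩⟩
      have k4 := k3 τ hτ hτE
      rw [e1] at k4
      exact k4
    · exact ⟨∅, MeasurableSet.empty, fun h => absurd h hm⟩
  choose E hE1 hE2 using hex
  set Mx : ℕ := ⌈L / Real.log (1 + x)⌉₊ + 1 with hMx
  -- the bad set
  set Bad : ℕ → Set ℝ := fun m => if W m ≤ T then
    {t : ℝ | ENNReal.ofReal (x * W m) ≤ volume (E m ∩ Set.Icc t (t + W m))} else ∅ with hBad
  have hBadv : ∀ m, volume (Bad m) ≤ ENNReal.ofReal (T * L ^ (C + 2) / (V * x)) := by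
    intro m
    simp only [hBad]
    split_ifs with hm
    · refine (few_windows (E m) (hE1 m) (W m) x (hW0 m) hx).trans ?_
      refine (ENNReal.div_le_div_right (hE2 m hm).1 _).trans ?_
      rw [← ENNReal.ofReal_div_of_pos hx]
      refine ENNReal.ofReal_le_ofReal ?_
      have h1 : T * L ^ C / (W m / L ^ 2) ≤ T * L ^ C / (V / L ^ 2) := by
        have := hWL m
        gcongr
      calc T * L ^ C / (W m / L ^ 2) / x ≤ T * L ^ C / (V / L ^ 2) / x := by gcongr
        _ = T * L ^ (C + 2) / (V * x) := by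
          rw [pow_add]
          field_simp
    · rw [measure_empty]
      exact zero_le
  have hsub : {t : ℝ | t ∈ Set.Icc T (2 * T) ∧ ∃ U : ℝ, V ≤ U ∧ U ≤ T ∧
      ∫ s in t..(t + U), F s < (1 - 3 * x) * J * U} ⊆ ⋃ m ∈ range Mx, Bad m := by
    rintro t ⟨ht, U, hU1, hU2, hU3⟩
    by_contra hcon
    obtain ⟨m, hm1, hm2⟩ := exists_nat_pow_near (x := U / V) (y := 1 + x)
      (by rw [one_le_div hV0]; exact hU1) (by linarith)
    rw [le_div_iff₀ hV0] at hm1
    rw [div_lt_iff₀ hV0] at hm2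
    have hWU : W m ≤ U := by simp only [hW]; linarith
    have hUW : U < W (m + 1) := by simp only [hW]; linarith
    have hWT : W m ≤ T := hWU.trans hU2
    have hmM : m < Mx := by
      have h1 : (1 + x) ^ m ≤ T := by
        calc (1 + x) ^ m ≤ (1 + x) ^ m * V := by
              refine le_mul_of_one_le_right (by positivity) hV1
          _ ≤ T := hm1.trans hU2
      have h2 := Real.log_le_log (by positivity) h1
      rw [Real.log_pow] at h2
      have h3 : (m : ℝ) ≤ L / Real.log (1 + x) := by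
        rw [le_div_iff₀ hlx]; exact h2
      have h4 := h3.trans (Nat.le_ceil _)
      have h5 : m ≤ ⌈L / Real.log (1 + x)⌉₊ := by exact_mod_cast h4
      rw [hMx]; omega
    have hnb : t ∉ Bad m := fun h => hcon (Set.mem_iUnion₂.2 ⟨m, mem_range.2 hmM, h⟩)
    simp only [hBad, if_pos hWT, Set.mem_ofPred_eq, not_le] at hnb
    have hg := good_window F hFc hF0 (E m) (hE1 m) t (W m) (W m / L) (W m / L ^ 2) (max J 0) x
      (div_pos (hW0 m) (by positivity)) (by have := hW0 m; positivity) (by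
        rw [mul_div_assoc', div_le_iff₀ hL0]
        have := hW0 m
        nlinarith) (le_max_right _ _) hnb.le hx.le (by
        intro τ hτ hτE
        have hW' := hW0 m
        have hR0 : 0 ≤ W m / L := by positivity
        refine max_le ?_ ?_
        · refine (hE2 m hWT).2 τ ⟨by linarith [hτ.1, ht.1], by linarith [hτ.2, ht.2]⟩ hτE
        · refine intervalIntegral.integral_nonneg (by linarith) fun s _ => ?_
          exact mul_nonneg (hF0 s) (gw_nonneg _ _ _ (by positivity)))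
    have hmono : ∫ s in t..(t + W m), F s ≤ ∫ s in t..(t + U), F s := by
      refine intervalIntegral.integral_mono_interval le_rfl (by linarith [hW0 m]) (by linarith)
        (Eventually.of_forall hF0) (hFc.intervalIntegrable _ _)
    have hJm : J ≤ max J 0 := le_max_left _ _
    have hJm0 : 0 ≤ max J 0 := le_max_right _ _
    have hWm := hW0 m
    have hWsucc : W (m + 1) = (1 + x) * W m := by simp only [hW]; ring
    have h6 : W m / L ≤ x / 4 * W m := by
      rw [div_le_iff₀ hL0]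
      rw [div_le_iff₀ hx] at hLx
      nlinarith
    have h7 : (1 - 3 * x) * U ≤ W m - 2 * (W m / L) - x * W m := by
      have h8 : U ≤ (1 + x) * W m := by rw [← hWsucc]; exact hUW.le
      have h9 : 0 ≤ 1 - 3 * x := by linarith
      nlinarith
    have h10 : (1 - 3 * x) * J * U ≤ (W m - 2 * (W m / L) - x * W m) * max J 0 := by
      have hU0 : 0 < U := hV0.trans_le hU1
      calc (1 - 3 * x) * J * U = (1 - 3 * x) * U * J := by ring
        _ ≤ (1 - 3 * x) * U * max J 0 := by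
            refine mul_le_mul_of_nonneg_left hJm ?_
            have : 0 ≤ 1 - 3 * x := by linarith
            positivity
        _ ≤ _ := mul_le_mul_of_nonneg_right h7 hJm0
    linarith
  refine (measure_mono hsub).trans ?_
  refine (measure_biUnion_finset_le _ _).trans ?_
  refine (sum_le_sum fun m _ => hBadv m).trans ?_
  rw [sum_const, card_range, nsmul_eq_mul, ← ENNReal.ofReal_natCast,
    ← ENNReal.ofReal_mul (Nat.cast_nonneg _)]
  refine ENNReal.ofReal_le_ofReal ?_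
  have h1 : (Mx : ℝ) ≤ cc * L := by
    have h2 := Nat.ceil_lt_add_one (a := L / Real.log (1 + x)) (by positivity)
    rw [hMx]; push_cast
    rw [hcc]
    have h3 : (1 / Real.log (1 + x) + 2) * L = L / Real.log (1 + x) + 2 * L := by ring
    rw [h3]
    linarith
  have h5 : cc / x ≤ L := hLc
  calc (Mx : ℝ) * (T * L ^ (C + 2) / (V * x)) ≤ cc * L * (T * L ^ (C + 2) / (V * x)) := by gcongr
    _ = cc / x * (T * L ^ (C + 3) / V) := by
        rw [show C + 3 = (C + 2) + 1 by ring, pow_succ L (C + 2)]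
        field_simp
    _ ≤ L * (T * L ^ (C + 3) / V) := by gcongr
    _ = T * L ^ (C + 4) / V := by
        rw [show C + 4 = (C + 3) + 1 by ring, pow_succ L (C + 3)]
        ring

end

end Pool.Agent.K1H84.MW
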