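import Pool.Agent.K1H84.MW.Ms

set_option autoImplicit false

/-! The mean square of the off-diagonal part over heights, and Chebyshev's inequality. -/

namespace Pool.Agent.K1H84.MW

open Finset MeasureTheory
open Pool.Agent.H306R2

noncomputable section

/-- the angle of `fr z.1 z.2` -/
def an (z : ℕ × ℕ) : ℝ := Real.log z.2 - Real.log z.1

lemma fr_an (z : ℕ × ℕ) (t : ℝ) : H295MK.fr z.1 z.2 t = Complex.exp ((an z * t : ℝ) * Complex.I) := rfl

lemma ex_cont (θ : ℝ) : Continuous (fun t : ℝ => Complex.exp ((θ * t : ℝ) * Complex.I)) := by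
  fun_prop

lemma ex_int (θ τ0 H : ℝ) (hH : 0 < H) :
    Integrable (fun t : ℝ => Complex.exp ((θ * t : ℝ) * Complex.I) * (gw τ0 H t : ℂ)) := by
  refine Integrable.mono' (gw_integrable τ0 H hH)
    ((ex_cont θ).mul (Complex.continuous_ofReal.comp (gw_continuous _ _))).aestronglyMeasurable ?_
  refine Filter.Eventually.of_forall fun t => ?_
  rw [norm_mul, Complex.norm_exp_ofReal_mul_I, one_mul, Complex.norm_real,
    Real.norm_of_nonneg (gw_nonneg _ _ _ hH)]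

lemma ex_val (θ τ0 H : ℝ) (hH : 0 < H) :
    ∫ t : ℝ, Complex.exp ((θ * t : ℝ) * Complex.I) * (gw τ0 H t : ℂ) =
      Complex.exp ((θ * τ0 : ℝ) * Complex.I) * (Real.exp (-(H ^ 2 * θ ^ 2 / 4)) : ℝ) := by
  have h := gauss_exp τ0 H hH 0 θ
  have e1 : ∀ y : ℝ, Complex.exp ((((1 / 2 + (0:ℝ) : ℝ) : ℂ) + y * Complex.I) * θ) *
      Wa τ0 H (((1 / 2 + (0:ℝ) : ℝ) : ℂ) + y * Complex.I) =
      Complex.exp ((θ / 2 : ℝ)) * (Complex.exp ((θ * y : ℝ) * Complex.I) * (gw τ0 H y : ℂ)) := by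
    intro y
    have e2 : (((1 / 2 + (0:ℝ) : ℝ) : ℂ) + y * Complex.I) = 1 / 2 + y * Complex.I := by
      push_cast; ring
    rw [e2, Wa_half, ← mul_assoc, ← Complex.exp_add]
    congr 2
    push_cast
    ring
  simp_rw [e1] at h
  rw [integral_const_mul] at h
  have e3 : Complex.exp ((1 / 2 + τ0 * Complex.I) * θ) =
      Complex.exp ((θ / 2 : ℝ)) * Complex.exp ((θ * τ0 : ℝ) * Complex.I) := by
    rw [← Complex.exp_add]
    congr 1
    push_cast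
    ring
  rw [e3, mul_assoc] at h
  exact mul_left_cancel₀ (Complex.exp_ne_zero _) h

/-- the trigonometric polynomial -/
def Sz (Z : Finset (ℕ × ℕ)) (ρ : ℕ × ℕ → ℝ) (t : ℝ) : ℂ := ∑ z ∈ Z, (ρ z : ℂ) * H295MK.fr z.1 z.2 t

lemma Sz_cont (Z : Finset (ℕ × ℕ)) (ρ : ℕ × ℕ → ℝ) : Continuous (Sz Z ρ) := by
  unfold Sz
  exact continuous_finsetSum _ fun z _ => continuous_const.mul (ex_cont (an z))

lemma Sz_sq (Z : Finset (ℕ × ℕ)) (ρ : ℕ × ℕ → ℝ) (t : ℝ) :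
    ((‖Sz Z ρ t‖ ^ 2 : ℝ) : ℂ) = ∑ z ∈ Z, ∑ z' ∈ Z, ((ρ z * ρ z' : ℝ) : ℂ) *
      Complex.exp (((an z - an z') * t : ℝ) * Complex.I) := by
  have h1 : ∀ w : ℂ, (((‖w‖ ^ 2 : ℝ)) : ℂ) = w * (starRingEnd ℂ) w := by
    intro w
    rw [Complex.mul_conj, Complex.normSq_eq_norm_sq]
  rw [h1]
  unfold Sz
  rw [map_sum, sum_mul_sum]
  refine sum_congr rfl fun z _ => sum_congr rfl fun z' _ => ?_
  rw [map_mul, Complex.conj_ofReal, fr_an, fr_an, ← Complex.exp_conj]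
  have e2 : Complex.exp (((an z - an z') * t : ℝ) * Complex.I) =
      Complex.exp ((an z * t : ℝ) * Complex.I) * Complex.exp ((starRingEnd ℂ) ((an z' * t : ℝ) * Complex.I)) := by
    rw [← Complex.exp_add]
    congr 1
    rw [map_mul, Complex.conj_ofReal, Complex.conj_I]
    push_cast
    ring
  rw [e2]
  push_cast
  ring

lemma Sz_int (Z : Finset (ℕ × ℕ)) (ρ : ℕ × ℕ → ℝ) (τ0 H : ℝ) (hH : 0 < H) :
    Integrable (fun t : ℝ => ‖Sz Z ρ t‖ ^ 2 * gw τ0 H t) := by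
  have hb : ∀ t, ‖Sz Z ρ t‖ ≤ ∑ z ∈ Z, |ρ z| := by
    intro t
    unfold Sz
    refine (norm_sum_le _ _).trans (sum_le_sum fun z _ => ?_)
    rw [norm_mul, fr_norm, mul_one, Complex.norm_real, Real.norm_eq_abs]
  refine Integrable.mono' ((gw_integrable τ0 H hH).const_mul ((∑ z ∈ Z, |ρ z|) ^ 2))
    (((Sz_cont Z ρ).norm.pow 2).mul (gw_continuous _ _)).aestronglyMeasurable ?_
  refine Filter.Eventually.of_forall fun t => ?_
  have h1 := gw_nonneg τ0 H t hH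
  rw [Real.norm_of_nonneg (by positivity)]
  exact mul_le_mul_of_nonneg_right (pow_le_pow_left₀ (norm_nonneg _) (hb t) 2) h1

/-- the mean square -/
theorem mean_sq (Z : Finset (ℕ × ℕ)) (ρ : ℕ × ℕ → ℝ) (τ0 H : ℝ) (hH : 0 < H) (V : ℕ)
    (hZ : ∀ z ∈ Z, 1 ≤ z.1 ∧ z.1 ≤ V ∧ 1 ≤ z.2 ∧ z.2 ≤ V) (hρ : ∀ z ∈ Z, 0 ≤ ρ z) :
    ∫ t : ℝ, ‖Sz Z ρ t‖ ^ 2 * gw τ0 H t ≤
      ∑ z ∈ Z, ∑ z' ∈ Z, (if z.2 * z'.1 = z.1 * z'.2 then ρ z * ρ z' else 0) +
      (∑ z ∈ Z, ρ z) ^ 2 * Real.exp (-(H ^ 2 / (4 * (V : ℝ) ^ 4))) := by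
  have h0 : 0 ≤ ∫ t : ℝ, ‖Sz Z ρ t‖ ^ 2 * gw τ0 H t :=
    integral_nonneg fun t => mul_nonneg (by positivity) (gw_nonneg _ _ _ hH)
  have h1 : ((∫ t : ℝ, ‖Sz Z ρ t‖ ^ 2 * gw τ0 H t : ℝ) : ℂ) =
      ∑ z ∈ Z, ∑ z' ∈ Z, ((ρ z * ρ z' : ℝ) : ℂ) *
        (Complex.exp (((an z - an z') * τ0 : ℝ) * Complex.I) *
          (Real.exp (-(H ^ 2 * (an z - an z') ^ 2 / 4)) : ℝ)) := by
    rw [← integral_complex_ofReal]
    have e1 : ∀ t : ℝ, (((‖Sz Z ρ t‖ ^ 2 * gw τ0 H t : ℝ)) : ℂ) =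
        ∑ z ∈ Z, ∑ z' ∈ Z, ((ρ z * ρ z' : ℝ) : ℂ) *
          (Complex.exp (((an z - an z') * t : ℝ) * Complex.I) * (gw τ0 H t : ℂ)) := by
      intro t
      rw [Complex.ofReal_mul, Sz_sq, sum_mul]
      refine sum_congr rfl fun z _ => ?_
      rw [sum_mul]
      refine sum_congr rfl fun z' _ => ?_
      ring
    have e2 : (fun t : ℝ => ((‖Sz Z ρ t‖ ^ 2 * gw τ0 H t : ℝ) : ℂ)) =
        fun t : ℝ => ∑ z ∈ Z, ∑ z' ∈ Z, ((ρ z * ρ z' : ℝ) : ℂ) *
          (Complex.exp (((an z - an z') * t : ℝ) * Complex.I) * (gw τ0 H t : ℂ)) := funext e1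
    have e3 : (∫ t : ℝ, ((‖Sz Z ρ t‖ ^ 2 * gw τ0 H t : ℝ) : ℂ)) =
        ∫ t : ℝ, ∑ z ∈ Z, ∑ z' ∈ Z, ((ρ z * ρ z' : ℝ) : ℂ) *
          (Complex.exp (((an z - an z') * t : ℝ) * Complex.I) * (gw τ0 H t : ℂ)) := by rw [e2]
    refine e3.trans ?_
    rw [integral_finsetSum]
    · refine sum_congr rfl fun z _ => ?_
      rw [integral_finsetSum]
      · refine sum_congr rfl fun z' _ => ?_
        rw [integral_const_mul, ex_val _ _ _ hH]
      · intro z' _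
        exact (ex_int _ _ _ hH).const_mul _
    · intro z _
      exact integrable_finsetSum _ fun z' _ => (ex_int _ _ _ hH).const_mul _
  have h2 : ∫ t : ℝ, ‖Sz Z ρ t‖ ^ 2 * gw τ0 H t = ‖((∫ t : ℝ, ‖Sz Z ρ t‖ ^ 2 * gw τ0 H t : ℝ) : ℂ)‖ := by
    rw [Complex.norm_real, Real.norm_of_nonneg h0]
  rw [h2, h1]
  set ε := Real.exp (-(H ^ 2 / (4 * (V : ℝ) ^ 4))) with hε
  have hε0 : 0 < ε := Real.exp_pos _
  have h3 : ∀ z ∈ Z, ∀ z' ∈ Z, ‖((ρ z * ρ z' : ℝ) : ℂ) *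
        (Complex.exp (((an z - an z') * τ0 : ℝ) * Complex.I) *
          (Real.exp (-(H ^ 2 * (an z - an z') ^ 2 / 4)) : ℝ))‖ ≤
      (if z.2 * z'.1 = z.1 * z'.2 then ρ z * ρ z' else 0) + ρ z * ρ z' * ε := by
    intro z hz z' hz'
    have r1 := hρ z hz
    have r2 := hρ z' hz'
    have r3 : 0 ≤ ρ z * ρ z' := mul_nonneg r1 r2
    rw [norm_mul, norm_mul, Complex.norm_exp_ofReal_mul_I, one_mul, Complex.norm_real,
      Complex.norm_real, Real.norm_of_nonneg r3, Real.norm_of_nonneg (Real.exp_pos _).le]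
    split_ifs with hs
    · have : Real.exp (-(H ^ 2 * (an z - an z') ^ 2 / 4)) ≤ 1 := by
        rw [Real.exp_le_one_iff]
        have : 0 ≤ H ^ 2 * (an z - an z') ^ 2 / 4 := by positivity
        linarith
      nlinarith [mul_nonneg r3 hε0.le]
    · rw [zero_add]
      refine mul_le_mul_of_nonneg_left ?_ r3
      obtain ⟨a1, a2, a3, a4⟩ := hZ z hz
      obtain ⟨b1, b2, b3, b4⟩ := hZ z' hz'
      have z1 : (0 : ℝ) < z.1 := by exact_mod_cast a1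
      have z2 : (0 : ℝ) < z.2 := by exact_mod_cast a3
      have z3 : (0 : ℝ) < z'.1 := by exact_mod_cast b1
      have z4 : (0 : ℝ) < z'.2 := by exact_mod_cast b3
      have hV0 : (0 : ℝ) < V := lt_of_lt_of_le z1 (by exact_mod_cast a2)
      set u := z.2 * z'.1 with hu
      set v := z.1 * z'.2 with hv
      have hu1 : 1 ≤ u := Nat.mul_pos a3 b1
      have hv1 : 1 ≤ v := Nat.mul_pos a1 b3
      have huV : (u : ℝ) ≤ (V : ℝ) ^ 2 := by
        rw [sq]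
        exact_mod_cast Nat.mul_le_mul a4 b2
      have hvV : (v : ℝ) ≤ (V : ℝ) ^ 2 := by
        rw [sq]
        exact_mod_cast Nat.mul_le_mul a2 b4
      have e1 : an z - an z' = -(Real.log v - Real.log u) := by
        unfold an
        rw [hu, hv]
        push_cast
        rw [Real.log_mul z1.ne' z4.ne', Real.log_mul z2.ne' z3.ne']
        ring
      have h4 := log_lower hu1 hv1
      have h5 : 1 ≤ |(u : ℝ) - v| := by
        have h6 : ((u : ℤ) - v) ≠ 0 := sub_ne_zero.2 (by exact_mod_cast hs)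
        have h7 := Int.one_le_abs h6
        have h8 : ((1 : ℤ) : ℝ) ≤ ((|(u : ℤ) - v| : ℤ) : ℝ) := by exact_mod_cast h7
        push_cast at h8
        exact h8
      have h9 : 1 / (V : ℝ) ^ 2 ≤ |Real.log v - Real.log u| := by
        refine le_trans ?_ h4
        have h10 : max (u : ℝ) v ≤ (V : ℝ) ^ 2 := max_le huV hvV
        have h11 : (0 : ℝ) < max (u : ℝ) v := lt_max_of_lt_left (by exact_mod_cast hu1)
        exact div_le_div₀ (abs_nonneg _) h5 h11 h10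
      rw [e1, neg_sq, hε]
      refine Real.exp_le_exp.2 (neg_le_neg ?_)
      have h12 : 1 / (V : ℝ) ^ 4 ≤ (Real.log v - Real.log u) ^ 2 := by
        rw [← sq_abs]
        calc 1 / (V : ℝ) ^ 4 = (1 / (V : ℝ) ^ 2) ^ 2 := by ring
          _ ≤ _ := pow_le_pow_left₀ (by positivity) h9 2
      calc H ^ 2 / (4 * (V : ℝ) ^ 4) = H ^ 2 * (1 / (V : ℝ) ^ 4) / 4 := by ring
        _ ≤ _ := by gcongr
  calc _ ≤ ∑ z ∈ Z, ∑ z' ∈ Z, ((if z.2 * z'.1 = z.1 * z'.2 then ρ z * ρ z' else 0) +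
      ρ z * ρ z' * ε) :=
        norm_sum_le_of_le _ fun z hz => norm_sum_le_of_le _ fun z' hz' => h3 z hz z' hz'
    _ = _ := by
        simp only [sum_add_distrib]
        congr 1
        rw [sq, sum_mul_sum, sum_mul]
        refine sum_congr rfl fun z _ => ?_
        rw [sum_mul]

/-- Chebyshev's inequality -/
theorem cheb (Z : Finset (ℕ × ℕ)) (ρ : ℕ × ℕ → ℝ) (T : ℝ) (hT : 0 < T) :
    volume {t : ℝ | t ∈ Set.Icc T (3 * T) ∧ 1 ≤ ‖Sz Z ρ t‖} ≤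
      ENNReal.ofReal (5 * T * ∫ t : ℝ, ‖Sz Z ρ t‖ ^ 2 * gw (2 * T) T t) := by
  set f : ℝ → ℝ := fun t => ‖Sz Z ρ t‖ ^ 2 * gw (2 * T) T t with hf
  have hf0 : ∀ t, 0 ≤ f t := fun t => mul_nonneg (by positivity) (gw_nonneg _ _ _ hT)
  have hfi := Sz_int Z ρ (2 * T) T hT
  set ε : ℝ := 1 / (5 * T) with hε
  have hε0 : 0 < ε := by positivity
  have hsub : {t : ℝ | t ∈ Set.Icc T (3 * T) ∧ 1 ≤ ‖Sz Z ρ t‖} ⊆
      {t | ENNReal.ofReal ε ≤ ENNReal.ofReal (f t)} := by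
    rintro t ⟨⟨h1, h2⟩, h3⟩
    refine ENNReal.ofReal_le_ofReal ?_
    have h4 : 1 ≤ ‖Sz Z ρ t‖ ^ 2 := one_le_pow₀ h3
    have h5 : ε ≤ gw (2 * T) T t := by
      unfold gw
      have e1 : Real.exp (-1) ≤ Real.exp (-((t - 2 * T) ^ 2 / T ^ 2)) := by
        refine Real.exp_le_exp.2 (neg_le_neg ?_)
        rw [div_le_one (by positivity)]
        nlinarith
      have e2 : Real.exp 1 * Real.sqrt Real.pi ≤ 5 := by
        have h6 := Real.exp_one_lt_d9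
        have h7 : Real.sqrt Real.pi ≤ 1.8 := by
          rw [Real.sqrt_le_left (by norm_num)]
          have := Real.pi_lt_d2
          norm_num
          linarith
        have h8 := Real.sqrt_nonneg Real.pi
        nlinarith [Real.exp_pos 1]
      rw [hε]
      have hpi : 0 < Real.sqrt Real.pi := Real.sqrt_pos.2 Real.pi_pos
      calc 1 / (5 * T) ≤ Real.exp (-1) / (T * Real.sqrt Real.pi) := by
            rw [div_le_div_iff₀ (by positivity) (by positivity), Real.exp_neg]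
            have : 1 * (T * Real.sqrt Real.pi) * Real.exp 1 ≤ 5 * T := by nlinarith
            rw [inv_mul_eq_div, le_div_iff₀ (Real.exp_pos 1)]
            exact this
        _ ≤ _ := by gcongr
    calc ε = 1 * ε := (one_mul _).symm
      _ ≤ ‖Sz Z ρ t‖ ^ 2 * gw (2 * T) T t := mul_le_mul h4 h5 hε0.le (by positivity)
  have hm : Measurable (fun t => ENNReal.ofReal (f t)) := by
    refine ENNReal.measurable_ofReal.comp ?_
    exact (((Sz_cont Z ρ).norm.pow 2).mul (gw_continuous _ _)).measurable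
  have h1 := meas_ge_le_lintegral_div (μ := volume) hm.aemeasurable
    (ε := ENNReal.ofReal ε) (by simpa using hε0) ENNReal.ofReal_ne_top
  have h2 : ∫⁻ t, ENNReal.ofReal (f t) = ENNReal.ofReal (∫ t, f t) :=
    (ofReal_integral_eq_lintegral_ofReal hfi (Filter.Eventually.of_forall hf0)).symm
  refine (measure_mono hsub).trans (h1.trans ?_)
  rw [h2, ← ENNReal.ofReal_div_of_pos hε0]
  refine ENNReal.ofReal_le_ofReal (le_of_eq ?_)
  rw [hε]
  field_simp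

end

end Pool.Agent.K1H84.MW
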