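import Pool.Agent.K1H84.MW.Line

set_option autoImplicit false

/-! Window integrals of `ζ^j (b/a)^{it}` with short Gaussian windows: the closed form with all the
terms off the diagonal. -/

namespace Pool.Agent.K1H84.MW

open MeasureTheory Filter Topology Finset
open Pool.Agent.H306R2
open Pool.Agent.H802R2.MK (dl dl_self dl_ne PB_dl Dp_dl pt)

noncomputable section

lemma tm_norm (f : ℕ → ℝ) (U : ℝ) (a b n : ℕ) (τ : ℝ) :
    ‖tm f U a b n τ‖ = |f n| * Real.sqrt ((a : ℝ) / n) *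
      Real.exp (-(U ^ 2 * (Real.log b - Real.log n) ^ 2 / 4)) := by
  unfold tm
  rw [norm_mul, fr_norm, mul_one, Complex.norm_real, Real.norm_eq_abs, abs_mul, abs_mul,
    abs_of_nonneg (Real.sqrt_nonneg _), abs_of_pos (Real.exp_pos _)]

lemma far (U : ℝ) (c a b n : ℕ) (hU : 16 * ((c : ℝ) + 2) ≤ U ^ 2) (hb : 1 ≤ b) (hn : 2 * b < n)
    (f : ℕ → ℝ) (hf : ∀ n, |f n| ≤ (n : ℝ) ^ c) (τ : ℝ) :
    ‖tm f U a b n τ‖ ≤ 1 / (n : ℝ) ^ 2 *
      (Real.sqrt a * (b : ℝ) ^ (c + 2) * Real.exp (-(U ^ 2 / 32))) := by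
  have hb0 : (0 : ℝ) < b := by exact_mod_cast hb
  have hn0 : (0 : ℝ) < n := by
    have : 0 < n := by omega
    exact_mod_cast this
  have hn1 : (1 : ℝ) ≤ n := by
    have : 1 ≤ n := by omega
    exact_mod_cast this
  rw [tm_norm]
  set θ := Real.log n - Real.log b with hθ
  have h2b : (2 : ℝ) * b ≤ n := by exact_mod_cast hn.le
  have hθ1 : 1 / 2 ≤ θ := by
    have h1 : Real.log (2 * b) ≤ Real.log n := Real.log_le_log (by positivity) h2b
    rw [Real.log_mul (by norm_num) hb0.ne'] at h1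
    have h2 := Real.log_two_gt_d9
    linarith
  have e1 : (Real.log b - Real.log n) ^ 2 = θ ^ 2 := by rw [hθ]; ring
  rw [e1]
  have h3 : U ^ 2 / 32 + ((c : ℝ) + 2) * θ ≤ U ^ 2 * θ ^ 2 / 4 := by
    have q1 : θ * (1 / 2) ≤ θ * θ := mul_le_mul_of_nonneg_left hθ1 (by linarith)
    have q2 : U ^ 2 * (θ / 2) ≤ U ^ 2 * θ ^ 2 := mul_le_mul_of_nonneg_left (by nlinarith) (sq_nonneg _)
    have q3 : 16 * ((c : ℝ) + 2) * θ ≤ U ^ 2 * θ := mul_le_mul_of_nonneg_right hU (by linarith)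
    have q4 : U ^ 2 * (1 / 2) ≤ U ^ 2 * θ := mul_le_mul_of_nonneg_left hθ1 (sq_nonneg _)
    linarith
  have h4 : Real.exp (-(U ^ 2 * θ ^ 2 / 4)) ≤ Real.exp (-(U ^ 2 / 32)) * ((b : ℝ) / n) ^ (c + 2) := by
    have e2 : ((b : ℝ) / n) ^ (c + 2) = Real.exp (-(((c : ℝ) + 2) * θ)) := by
      rw [← Real.rpow_natCast, Real.rpow_def_of_pos (by positivity), Real.log_div hb0.ne' hn0.ne']
      congr 1
      rw [hθ]
      push_cast
      ring
    rw [e2, ← Real.exp_add]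
    exact Real.exp_le_exp.2 (by linarith)
  have h5 : Real.sqrt ((a : ℝ) / n) ≤ Real.sqrt a :=
    Real.sqrt_le_sqrt (div_le_self (Nat.cast_nonneg a) hn1)
  calc |f n| * Real.sqrt ((a : ℝ) / n) * Real.exp (-(U ^ 2 * θ ^ 2 / 4))
      ≤ (n : ℝ) ^ c * Real.sqrt a * (Real.exp (-(U ^ 2 / 32)) * ((b : ℝ) / n) ^ (c + 2)) := by
        have := hf n
        gcongr
    _ = _ := by
        rw [div_pow, pow_add (n : ℝ) c 2]
        field_simp

/-- the truncation of the right line -/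
lemma right_trunc (f : ℕ → ℝ) (c : ℕ) (hf0 : f 0 = 0) (hf : ∀ n, |f n| ≤ (n : ℝ) ^ c) (Y τ U : ℝ)
    (hY : 1 ≤ Y) (hU0 : 0 < U) (hU : 16 * ((c : ℝ) + 2) ≤ U ^ 2) (a b : ℕ) (ha : 1 ≤ a) (hb : 1 ≤ b)
    (hbY : (b : ℝ) ≤ Y) :
    ‖((Real.sqrt ((a : ℝ) * b) : ℝ) : ℂ) * (∫ y, ∑' n, Fr f (fun n => dl b n) Y τ U ((c:ℝ) + 2) n y) -
      ∑ n ∈ Icc 1 (2 * b), tm f U a b n τ‖ ≤
      Z2 * (Real.sqrt a * (b : ℝ) ^ (c + 2) * Real.exp (-(U ^ 2 / 32))) := by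
  have hg : ∀ n, |(fun n => dl b n) n| ≤ (n : ℝ) ^ c := by
    intro n
    rcases Nat.eq_zero_or_pos n with h0 | h0
    · subst h0
      have : dl b 0 = 0 := ArithmeticFunction.map_zero
      simp only [this, abs_zero]
      positivity
    · have h1 := PB_dl b n
      rw [pow_zero] at h1
      exact h1.trans (one_le_pow₀ (by exact_mod_cast h0))
  have hs := (right_hasSum f (fun n => dl b n) Y τ U hY hU0 c hf0 hf hg).mul_left
    ((Real.sqrt ((a : ℝ) * b) : ℝ) : ℂ)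
  set D : ℕ → ℂ := fun n => if n ∈ Icc 1 (2 * b) then tm f U a b n τ else 0 with hD
  have hD1 : HasSum D (∑ n ∈ Icc 1 (2 * b), tm f U a b n τ) := by
    have h1 : HasSum D (∑ n ∈ Icc 1 (2 * b), D n) := by
      apply hasSum_sum_of_ne_finset_zero
      intro n hn
      simp only [hD, if_neg hn]
    have h2 : ∑ n ∈ Icc 1 (2 * b), D n = ∑ n ∈ Icc 1 (2 * b), tm f U a b n τ :=
      sum_congr rfl fun n hn => by simp only [hD, if_pos hn]
    rwa [h2] at h1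
  have hsub := hs.sub hD1
  rw [← hsub.tsum_eq]
  have hbound : ∀ n, ‖((Real.sqrt ((a : ℝ) * b) : ℝ) : ℂ) *
      (∫ y, Fr f (fun n => dl b n) Y τ U ((c:ℝ) + 2) n y) - D n‖ ≤
      1 / (n:ℝ) ^ 2 * (Real.sqrt a * (b : ℝ) ^ (c + 2) * Real.exp (-(U ^ 2 / 32))) := by
    intro n
    rcases Nat.eq_zero_or_pos n with h0 | hn
    · subst h0
      have e1 : ∀ y, Fr f (fun n => dl b n) Y τ U ((c:ℝ) + 2) 0 y = 0 := Fr_zero f _ Y τ U _ hf0
      simp [e1, hD]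
    rw [Fr_dl f Y τ U hU0 _ a b n ha hb hbY hn]
    by_cases hm : n ∈ Icc 1 (2 * b)
    · simp only [hD, if_pos hm, sub_self, norm_zero]
      positivity
    · simp only [hD, if_neg hm, sub_zero]
      rw [mem_Icc] at hm
      exact far U c a b n hU hb (by omega) f hf τ
  calc ‖∑' n, (((Real.sqrt ((a : ℝ) * b) : ℝ) : ℂ) *
      (∫ y, Fr f (fun n => dl b n) Y τ U ((c:ℝ) + 2) n y) - D n)‖ ≤
      ∑' n : ℕ, 1 / (n:ℝ) ^ 2 * (Real.sqrt a * (b : ℝ) ^ (c + 2) * Real.exp (-(U ^ 2 / 32))) :=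
        tsum_of_norm_bounded (Z2_summable.mul_right _).hasSum hbound
    _ = _ := by rw [tsum_mul_right]; rfl

lemma small_log (P : ℕ) (K : ℝ) :
    ∀ᶠ T : ℝ in atTop, K * T ^ P * Real.exp (-(Real.log T ^ 2 / 32)) ≤ 1 := by
  filter_upwards [eventually_ge_atTop K, eventually_gt_atTop 0,
    Real.tendsto_log_atTop.eventually_ge_atTop (32 * ((P : ℝ) + 1))] with T h1 h2 h3
  have e1 : T ^ P = Real.exp (P * Real.log T) := by
    rw [Real.exp_nat_mul, Real.exp_log h2]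
  have e2 : Real.exp (Real.log T) = T := Real.exp_log h2
  calc K * T ^ P * Real.exp (-(Real.log T ^ 2 / 32)) ≤
      T * T ^ P * Real.exp (-(Real.log T ^ 2 / 32)) := by gcongr
    _ = Real.exp (Real.log T + P * Real.log T + -(Real.log T ^ 2 / 32)) := by
        rw [Real.exp_add, Real.exp_add, e2, e1]
    _ ≤ 1 := by
        rw [Real.exp_le_one_iff]
        have h4 : 0 ≤ Real.log T := le_trans (by positivity) h3
        nlinarith

/-- the window integrals of `ζ^j (b/a)^{it}` -/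
theorem win_zeta (j B : ℕ) : ∀ᶠ T : ℝ in atTop, ∀ τ U : ℝ, T / 2 ≤ τ → τ ≤ 4 * T →
    Real.log T ≤ U → U * Real.log T ≤ T / 8 → ∀ a b : ℕ, 1 ≤ a → (a : ℝ) ≤ T → 1 ≤ b → (b : ℝ) ≤ T →
    ‖(∫ t in (τ - U * Real.log T)..(τ + U * Real.log T),
        riemannZeta (1 / 2 + t * Complex.I) ^ j * H295MK.fr a b t * (gw τ U t : ℂ)) -
      Gc j U a b τ‖ ≤ 1 / T ^ B := by
  set c : ℕ := j + 1 with hc
  set K : ℝ := Z2 * Real.exp (((c:ℝ) + 2) ^ 2) * 2 +
    2 * (((c:ℝ) + 2) * (6 ^ j * ((c:ℝ) + 9) ^ (2 * j) * Real.exp (((c:ℝ) + 2) ^ 2))) + Z2 with hK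
  set P : ℕ := 2 * c + 3 + 2 * j + 2 with hP
  filter_upwards [small_log (P + B) K, eventually_ge_atTop 16,
    Real.tendsto_log_atTop.eventually_ge_atTop (16 * ((c : ℝ) + 2))]
    with T hsmall0 hT1 hL τ U hτ1 hτ2 hU1 hU2 a b ha haT hb hbT
  have hT0 : 0 < T := by linarith
  have hT1' : 1 ≤ T := by linarith
  have hc0 : (0 : ℝ) ≤ c := Nat.cast_nonneg c
  set L := Real.log T with hLd
  have hL1 : 1 ≤ L := by nlinarith
  have hUp : 1 ≤ U := by linarith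
  have hU0 : 0 < U := by linarith
  have hUsq : 16 * ((c : ℝ) + 2) ≤ U ^ 2 := by nlinarith
  have hZ := Z2_nonneg
  set E := Real.exp (-(L ^ 2 / 32)) with hE
  have hE0 : 0 < E := Real.exp_pos _
  have hsmall : K * (T ^ P * E) ≤ 1 / T ^ B := by
    rw [le_div_iff₀ (by positivity)]
    refine le_trans (le_of_eq ?_) hsmall0
    rw [pow_add]
    ring
  have hf : PB (zR ^ j * dl a) c := by
    have h1 := (PB_zR.pow j).mul (PB_dl a)
    rwa [show j * (0 + 1) + 0 + 1 = c by rw [hc]; ring] at h1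
  have hg : PB (dl b) c := (PB_dl b).mono (by omega)
  have hcont := contourX (fun s => riemannZeta s ^ j * Dp (dl a) T s) (6 ^ j * T ^ (0 + 1)) (by positivity)
    (2 * j) ?_ ?_ (fun n => (zR ^ j * dl a) n) (fun n => dl b n) T τ U (U * L)
    (((c:ℝ) + 9) * T) hT1' hUp c (by simp) hf hg ?_ (by positivity) (by linarith) (by nlinarith)
  rotate_left
  · intro s hs hs1
    have := differentiableAt_riemannZeta hs1
    exact (this.pow j).mul (Dp_differentiable _ T s)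
  · intro s hs him
    have h1 : (1:ℝ) / 2 ≤ ‖s - 1‖ := by
      have := Complex.abs_im_le_norm (s - 1)
      simp only [Complex.sub_im, Complex.one_im, sub_zero] at this
      linarith
    have h2 := zeta_norm_le hs h1
    have h3 := norm_Dp_le (fun n => dl a n) T hT1' 0 (PB_dl a) s (by linarith)
    rw [norm_mul, norm_pow]
    calc ‖riemannZeta s‖ ^ j * ‖Dp (fun n => dl a n) T s‖ ≤
        (6 * (‖s‖ + 1) ^ 2) ^ j * T ^ (0 + 1) := by gcongr
      _ = 6 ^ j * T ^ (0 + 1) * (‖s‖ + 1) ^ (2 * j) := by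
          rw [mul_pow, ← pow_mul]; ring
  · intro y
    exact zetaA_hasSum j (dl a) T (fun n hn => dl_ne (by
      rintro rfl
      linarith)) (((1 / 2 + ((c:ℝ) + 2) : ℝ) : ℂ) + y * Complex.I) (by
      simp; linarith)
  have ha0 : (0 : ℝ) < a := by exact_mod_cast ha
  have hb0 : (0 : ℝ) < b := by exact_mod_cast hb
  set S : ℝ := Real.sqrt ((a : ℝ) * b) with hS
  have hS0 : 0 ≤ S := Real.sqrt_nonneg _
  have hST : S ≤ T := by
    rw [hS, Real.sqrt_le_left hT0.le]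
    nlinarith
  have e1 : (∫ t in (τ - U * L)..(τ + U * L),
        riemannZeta (1 / 2 + t * Complex.I) ^ j * H295MK.fr a b t * (gw τ U t : ℂ)) =
      (S : ℂ) * ∫ t in (τ - U * L)..(τ + U * L), (riemannZeta (1 / 2 + t * Complex.I) ^ j *
          Dp (dl a) T (1 / 2 + t * Complex.I)) *
        (starRingEnd ℂ) (Dp (dl b) T (1 / 2 + t * Complex.I)) * (gw τ U t : ℂ) := by
    rw [← intervalIntegral.integral_const_mul]
    congr 1
    ext t
    rw [Dp_dl ha haT, Dp_dl hb hbT, pt ha hb t]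
    ring
  have htr := right_trunc (fun n => (zR ^ j * dl a) n) c (by simp) hf T τ U hT1' hU0 hUsq a b ha hb hbT
  have hG : Gc j U a b τ = ∑ n ∈ Icc 1 (2 * b), tm (fun n => (zR ^ j * dl a) n) U a b n τ := rfl
  rw [e1, hG]
  set I0 := ∫ t in (τ - U * L)..(τ + U * L), (riemannZeta (1 / 2 + t * Complex.I) ^ j *
          Dp (dl a) T (1 / 2 + t * Complex.I)) *
        (starRingEnd ℂ) (Dp (dl b) T (1 / 2 + t * Complex.I)) * (gw τ U t : ℂ) with hI0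
  set T0 := ∫ y, ∑' n, Fr (fun n => (zR ^ j * dl a) n) (fun n => dl b n) T τ U ((c:ℝ) + 2) n y with hT0d
  set G0 := ∑ n ∈ Icc 1 (2 * b), tm (fun n => (zR ^ j * dl a) n) U a b n τ with hG0
  have hsplit : (S : ℂ) * I0 - G0 = (S : ℂ) * (I0 - T0) + ((S : ℂ) * T0 - G0) := by ring
  rw [hsplit]
  refine le_trans (norm_add_le _ _) ?_
  rw [norm_mul, Complex.norm_real, Real.norm_of_nonneg hS0]
  refine le_trans ?_ hsmall
  -- exponentials
  have hR2 : (U * L) ^ 2 / (2 * U ^ 2) = L ^ 2 / 2 := by field_simp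
  have hR1 : (U * L) ^ 2 / U ^ 2 = L ^ 2 := by field_simp
  rw [hR2, hR1] at hcont
  have hx2 : Real.exp (-(L ^ 2 / 2)) ≤ E := Real.exp_le_exp.2 (by nlinarith)
  have hx3 : Real.exp (-(L ^ 2)) ≤ E := Real.exp_le_exp.2 (by nlinarith)
  have hx4 : Real.exp (((c:ℝ) + 2) ^ 2 / U ^ 2) ≤ Real.exp (((c:ℝ) + 2) ^ 2) := by
    apply Real.exp_le_exp.mpr
    apply div_le_self (by positivity)
    exact one_le_pow₀ hUp
  have hx5 : Real.exp (-(U ^ 2 / 32)) ≤ E := Real.exp_le_exp.2 (by nlinarith)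
  have t1 : T * (Z2 * (T ^ (2 * c + 3) * Real.exp (((c:ℝ) + 2) ^ 2 / U ^ 2)) *
        (2 * Real.exp (-(L ^ 2 / 2)))) ≤
      Z2 * Real.exp (((c:ℝ) + 2) ^ 2) * 2 * (T ^ P * E) := by
    calc _ ≤ T * (Z2 * (T ^ (2 * c + 3) * Real.exp (((c:ℝ) + 2) ^ 2)) * (2 * E)) := by gcongr
      _ = Z2 * Real.exp (((c:ℝ) + 2) ^ 2) * 2 * (T ^ (2 * c + 3 + 1) * E) := by
          rw [pow_succ T (2 * c + 3)]; ring
      _ ≤ _ := by
          have : T ^ (2 * c + 3 + 1) ≤ T ^ P := pow_le_pow_right₀ hT1' (by omega)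
          gcongr
  have t2 : T * (2 * (((c:ℝ) + 2) * (6 ^ j * T ^ (0 + 1) * (((c:ℝ) + 9) * T) ^ (2 * j) *
        T ^ (2 * c + 3) *
        (Real.exp (((c:ℝ) + 2) ^ 2 / U ^ 2) * Real.exp (-(L ^ 2)))))) ≤
      2 * (((c:ℝ) + 2) * (6 ^ j * ((c:ℝ) + 9) ^ (2 * j) * Real.exp (((c:ℝ) + 2) ^ 2))) *
        (T ^ P * E) := by
    calc _ ≤ T * (2 * (((c:ℝ) + 2) * (6 ^ j * T ^ (0 + 1) * (((c:ℝ) + 9) * T) ^ (2 * j) *
        T ^ (2 * c + 3) *
        (Real.exp (((c:ℝ) + 2) ^ 2) * E)))) := by gcongr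
      _ = _ := by
          rw [hP, mul_pow, pow_add, pow_add]; ring
  have t3 : Z2 * (Real.sqrt a * (b : ℝ) ^ (c + 2) * Real.exp (-(U ^ 2 / 32))) ≤
      Z2 * (T ^ P * E) := by
    have s1 : Real.sqrt a ≤ T := by
      rw [Real.sqrt_le_left hT0.le]
      nlinarith
    have s2 : (b : ℝ) ^ (c + 2) ≤ T ^ (c + 2) := pow_le_pow_left₀ hb0.le hbT _
    have s3 : T * T ^ (c + 2) ≤ T ^ P := by
      rw [← pow_succ']
      exact pow_le_pow_right₀ hT1' (by omega)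
    calc _ ≤ Z2 * (T * T ^ (c + 2) * E) := by gcongr
      _ ≤ _ := by gcongr
  calc S * ‖I0 - T0‖ + ‖(S : ℂ) * T0 - G0‖ ≤
      T * (Z2 * (T ^ (2 * c + 3) * Real.exp (((c:ℝ) + 2) ^ 2 / U ^ 2)) *
        (2 * Real.exp (-(L ^ 2 / 2))) +
      2 * (((c:ℝ) + 2) * (6 ^ j * T ^ (0 + 1) * (((c:ℝ) + 9) * T) ^ (2 * j) * T ^ (2 * c + 3) *
        (Real.exp (((c:ℝ) + 2) ^ 2 / U ^ 2) * Real.exp (-(L ^ 2)))))) +
      Z2 * (Real.sqrt a * (b : ℝ) ^ (c + 2) * Real.exp (-(U ^ 2 / 32))) :=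
        add_le_add (mul_le_mul hST hcont (norm_nonneg _) hT0.le) htr
    _ ≤ Z2 * Real.exp (((c:ℝ) + 2) ^ 2) * 2 * (T ^ P * E) +
      2 * (((c:ℝ) + 2) * (6 ^ j * ((c:ℝ) + 9) ^ (2 * j) * Real.exp (((c:ℝ) + 2) ^ 2))) *
        (T ^ P * E) + Z2 * (T ^ P * E) := by
          rw [mul_add]
          exact add_le_add (add_le_add t1 t2) t3
    _ = K * (T ^ P * E) := by rw [hK]; ring

end

end Pool.Agent.K1H84.MW
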