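import Pool.Agent.K1H84.MW.Cls
import Pool.Agent.K1H84.MW.Win

set_option autoImplicit false

/-! The mean square of the off-diagonal part. -/

namespace Pool.Agent.K1H84.MW

open Finset MeasureTheory
open Pool.Agent.H306R2

noncomputable section

/-- the bound for one coefficient -/
def cb (D : ℕ → ℝ) (U : ℝ) (n b : ℕ) : ℝ :=
  D n * D b / Real.sqrt ((n : ℝ) * b) * Real.exp (-(U ^ 2 * (Real.log b - Real.log n) ^ 2 / 4))

lemma cb_nonneg {D : ℕ → ℝ} (hD : ∀ n, 0 ≤ D n) (U : ℝ) (n b : ℕ) : 0 ≤ cb D U n b := by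
  unfold cb
  have := hD n
  have := hD b
  positivity

lemma cb_gcd {D : ℕ → ℝ} (hD : ∀ n, 0 ≤ D n) (hDm : ∀ m n, D (m * n) ≤ D m * D n) (U : ℝ)
    {g x y : ℕ} (hg : 1 ≤ g) (hx : 1 ≤ x) (hy : 1 ≤ y) :
    cb D U (g * x) (g * y) ≤ D g ^ 2 / g * cb D U x y := by
  have hg0 : (0 : ℝ) < g := by exact_mod_cast hg
  have hx0 : (0 : ℝ) < x := by exact_mod_cast hx
  have hy0 : (0 : ℝ) < y := by exact_mod_cast hy
  unfold cb
  have e1 : Real.log ((g * y : ℕ) : ℝ) - Real.log ((g * x : ℕ) : ℝ) = Real.log y - Real.log x := by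
    push_cast
    rw [Real.log_mul hg0.ne' hy0.ne', Real.log_mul hg0.ne' hx0.ne']
    ring
  have e2 : Real.sqrt (((g * x : ℕ) : ℝ) * ((g * y : ℕ) : ℝ)) = g * Real.sqrt ((x : ℝ) * y) := by
    push_cast
    rw [show (g : ℝ) * x * (g * y) = g ^ 2 * (x * y) by ring, Real.sqrt_mul (sq_nonneg _),
      Real.sqrt_sq hg0.le]
  rw [e1, e2]
  have h1 := hDm g x
  have h2 := hDm g y
  have h3 := hD (g * x)
  have h4 := hD (g * y)
  have h5 := hD g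
  have h6 := hD x
  have h7 := hD y
  have h8 : D (g * x) * D (g * y) ≤ D g * D x * (D g * D y) := mul_le_mul h1 h2 h4 (by positivity)
  calc _ ≤ D g * D x * (D g * D y) / (g * Real.sqrt ((x : ℝ) * y)) *
        Real.exp (-(U ^ 2 * (Real.log y - Real.log x) ^ 2 / 4)) := by gcongr
    _ = _ := by
        have : Real.sqrt ((x : ℝ) * y) ≠ 0 := (Real.sqrt_pos.2 (by positivity)).ne'
        field_simp

lemma cb_sq (D : ℕ → ℝ) (U : ℝ) {x y : ℕ} (hx : 1 ≤ x) (hy : 1 ≤ y) :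
    cb D U x y * cb D U x y = D x ^ 2 * D y ^ 2 / ((x : ℝ) * y) *
      Real.exp (-(U ^ 2 * (Real.log y - Real.log x) ^ 2 / 2)) := by
  have hx0 : (0 : ℝ) < x := by exact_mod_cast hx
  have hy0 : (0 : ℝ) < y := by exact_mod_cast hy
  unfold cb
  have e1 : Real.exp (-(U ^ 2 * (Real.log y - Real.log x) ^ 2 / 2)) =
      Real.exp (-(U ^ 2 * (Real.log y - Real.log x) ^ 2 / 4)) *
      Real.exp (-(U ^ 2 * (Real.log y - Real.log x) ^ 2 / 4)) := by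
    rw [← Real.exp_add]; congr 1; ring
  have e2 : Real.sqrt ((x : ℝ) * y) * Real.sqrt ((x : ℝ) * y) = x * y :=
    Real.mul_self_sqrt (by positivity)
  rw [e1]
  have h3 : D x * D y / Real.sqrt ((x : ℝ) * y) * (D x * D y / Real.sqrt ((x : ℝ) * y)) =
      D x ^ 2 * D y ^ 2 / ((x : ℝ) * y) := by
    rw [div_mul_div_comm, e2]
    ring
  rw [← h3]
  ring

lemma same_ratio {n b n' b' : ℕ} (hn : 1 ≤ n) (hb : 1 ≤ b) (hn' : 1 ≤ n')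
    (h : b * n' = n * b') :
    n' / Nat.gcd n' b' = n / Nat.gcd n b ∧ b' / Nat.gcd n' b' = b / Nat.gcd n b := by
  have hg : 0 < Nat.gcd n b := Nat.gcd_pos_of_pos_left b hn
  have hg' : 0 < Nat.gcd n' b' := Nat.gcd_pos_of_pos_left b' hn'
  obtain ⟨g, x, y, hg0, hc, rfl, rfl⟩ := Nat.exists_coprime' (m := n) (n := b) hg
  obtain ⟨g', x', y', hg0', hc', rfl, rfl⟩ := Nat.exists_coprime' (m := n') (n := b') hg'
  have e1 : Nat.gcd (x * g) (y * g) = g := by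
    rw [Nat.gcd_mul_right, hc, one_mul]
  have e2 : Nat.gcd (x' * g') (y' * g') = g' := by
    rw [Nat.gcd_mul_right, hc', one_mul]
  rw [e1, e2, Nat.mul_div_cancel _ hg0, Nat.mul_div_cancel _ hg0', Nat.mul_div_cancel _ hg0,
    Nat.mul_div_cancel _ hg0']
  have h2 : y * x' = x * y' := by
    have : (y * x') * (g * g') = (x * y') * (g * g') := by
      calc (y * x') * (g * g') = y * g * (x' * g') := by ring
        _ = x * g * (y' * g') := h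
        _ = _ := by ring
    exact Nat.eq_of_mul_eq_mul_right (Nat.mul_pos hg0 hg0') this
  have hx1 : x ∣ x' := hc.dvd_of_dvd_mul_left ⟨y', h2⟩
  have hx2 : x' ∣ x := hc'.dvd_of_dvd_mul_right ⟨y, by rw [← h2]; ring⟩
  have hxx : x' = x := Nat.dvd_antisymm hx2 hx1
  refine ⟨hxx, ?_⟩
  subst hxx
  have hx0 : 0 < x' := by
    rcases Nat.eq_zero_or_pos x' with h0 | h0
    · rw [h0, zero_mul] at hn; omega
    · exact h0
  have : x' * y' = x' * y := by rw [← h2]; ring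
  exact Nat.eq_of_mul_eq_mul_left hx0 this

lemma prod_split (A : Finset (ℕ × ℕ)) (B : Finset ℕ) (u : ℕ → ℝ) (v : ℕ × ℕ → ℝ) (c : ℝ) :
    ∑ q ∈ A ×ˢ (B ×ˢ B), c * (u q.2.1 * u q.2.2 * v q.1) =
      c * ((∑ g ∈ B, u g) * (∑ g ∈ B, u g) * ∑ a ∈ A, v a) := by
  have h1 : ∑ y ∈ B ×ˢ B, u y.1 * u y.2 = (∑ g ∈ B, u g) * ∑ g ∈ B, u g := by
    rw [sum_mul_sum, sum_product]
  rw [sum_product, ← h1, mul_sum, mul_sum]
  refine sum_congr rfl fun x _ => ?_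
  simp only
  rw [← mul_sum, ← sum_mul]

theorem class_sum {D : ℕ → ℝ} (hD : ∀ n, 0 ≤ D n) (hDm : ∀ m n, D (m * n) ≤ D m * D n)
    (V : ℕ) (M U : ℝ) (hU : 0 < U) (hM : 0 ≤ M) (Z : Finset (ℕ × ℕ))
    (hZ : ∀ z ∈ Z, 1 ≤ z.1 ∧ z.1 ≤ V ∧ 1 ≤ z.2 ∧ z.2 ≤ V ∧ z.1 ≠ z.2) (ρ : ℕ × ℕ → ℝ)
    (hρ0 : ∀ z ∈ Z, 0 ≤ ρ z) (hρ : ∀ z ∈ Z, ρ z ≤ M * cb D U z.1 z.2) :
    ∑ z ∈ Z, ∑ z' ∈ Z, (if z.2 * z'.1 = z.1 * z'.2 then ρ z * ρ z' else 0) ≤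
      M ^ 2 * (∑ g ∈ Icc 1 V, D g ^ 2 / g) ^ 2 *
        (3 * (1 + Real.log V) / U * ∑ a ∈ Icc 1 V, D a ^ 4 / a) := by
  classical
  set P : Finset ((ℕ × ℕ) × (ℕ × ℕ)) := (Z ×ˢ Z).filter (fun p => p.1.2 * p.2.1 = p.1.1 * p.2.2) with hP
  set φ : (ℕ × ℕ) × (ℕ × ℕ) → (ℕ × ℕ) × (ℕ × ℕ) := fun p =>
    ((p.1.1 / Nat.gcd p.1.1 p.1.2, p.1.2 / Nat.gcd p.1.1 p.1.2),
      (Nat.gcd p.1.1 p.1.2, Nat.gcd p.2.1 p.2.2)) with hφ
  set F : (ℕ × ℕ) × (ℕ × ℕ) → ℝ := fun q => M ^ 2 * ((D q.2.1 ^ 2 / q.2.1) * (D q.2.2 ^ 2 / q.2.2) *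
    (D q.1.1 ^ 2 * D q.1.2 ^ 2 / ((q.1.1 : ℝ) * q.1.2) *
      Real.exp (-(U ^ 2 * (Real.log q.1.2 - Real.log q.1.1) ^ 2 / 2)))) with hF
  set Q : Finset ((ℕ × ℕ) × (ℕ × ℕ)) :=
    ((Icc 1 V ×ˢ Icc 1 V).filter (fun a => a.2 ≠ a.1)) ×ˢ (Icc 1 V ×ˢ Icc 1 V) with hQ
  have e0 : ∑ z ∈ Z, ∑ z' ∈ Z, (if z.2 * z'.1 = z.1 * z'.2 then ρ z * ρ z' else 0) =
      ∑ p ∈ P, ρ p.1 * ρ p.2 := by
    rw [hP, sum_filter, sum_product]
  rw [e0]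
  -- structure of the elements of P
  have hst : ∀ p ∈ P, ∃ g g' x y : ℕ, 1 ≤ g ∧ 1 ≤ g' ∧ 1 ≤ x ∧ 1 ≤ y ∧ x ≠ y ∧
      p.1.1 = g * x ∧ p.1.2 = g * y ∧ p.2.1 = g' * x ∧ p.2.2 = g' * y ∧ φ p = ((x, y), (g, g')) := by
    intro p hp
    rw [hP, mem_filter, mem_product] at hp
    obtain ⟨⟨hp1, hp2⟩, hsame⟩ := hp
    obtain ⟨a1, a2, a3, a4, a5⟩ := hZ _ hp1
    obtain ⟨b1, b2, b3, b4, b5⟩ := hZ _ hp2
    have hg : 0 < Nat.gcd p.1.1 p.1.2 := Nat.gcd_pos_of_pos_left _ a1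
    have hg' : 0 < Nat.gcd p.2.1 p.2.2 := Nat.gcd_pos_of_pos_left _ b1
    obtain ⟨s1, s2⟩ := same_ratio a1 a3 b1 hsame
    have d1 := Nat.mul_div_cancel' (Nat.gcd_dvd_left p.1.1 p.1.2)
    have d2 := Nat.mul_div_cancel' (Nat.gcd_dvd_right p.1.1 p.1.2)
    have d3 := Nat.mul_div_cancel' (Nat.gcd_dvd_left p.2.1 p.2.2)
    have d4 := Nat.mul_div_cancel' (Nat.gcd_dvd_right p.2.1 p.2.2)
    rw [s1] at d3
    rw [s2] at d4
    refine ⟨Nat.gcd p.1.1 p.1.2, Nat.gcd p.2.1 p.2.2, p.1.1 / Nat.gcd p.1.1 p.1.2,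
      p.1.2 / Nat.gcd p.1.1 p.1.2, hg, hg', ?_, ?_, ?_, d1.symm, d2.symm, d3.symm, d4.symm, rfl⟩
    · rcases Nat.eq_zero_or_pos (p.1.1 / Nat.gcd p.1.1 p.1.2) with h0 | h0
      · rw [h0, mul_zero] at d1; omega
      · exact h0
    · rcases Nat.eq_zero_or_pos (p.1.2 / Nat.gcd p.1.1 p.1.2) with h0 | h0
      · rw [h0, mul_zero] at d2; omega
      · exact h0
    · intro heq
      rw [heq] at d1
      exact a5 (d1.symm.trans d2)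
  have h1 : ∀ p ∈ P, ρ p.1 * ρ p.2 ≤ F (φ p) := by
    intro p hp
    obtain ⟨g, g', x, y, hg, hg', hx, hy, hxy, q1, q2, q3, q4, hφp⟩ := hst p hp
    rw [hP, mem_filter, mem_product] at hp
    have r1 := hρ _ hp.1.1
    have r2 := hρ _ hp.1.2
    rw [q1, q2] at r1
    rw [q3, q4] at r2
    have r3 := cb_gcd hD hDm U hg hx hy
    have r4 := cb_gcd hD hDm U hg' hx hy
    have r5 := cb_nonneg hD U x y
    have r6 : ρ p.1 ≤ M * (D g ^ 2 / g * cb D U x y) := r1.trans (mul_le_mul_of_nonneg_left r3 hM)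
    have r7 : ρ p.2 ≤ M * (D g' ^ 2 / g' * cb D U x y) := r2.trans (mul_le_mul_of_nonneg_left r4 hM)
    rw [hφp]
    simp only [hF]
    rw [← cb_sq D U hx hy]
    calc ρ p.1 * ρ p.2 ≤ (M * (D g ^ 2 / g * cb D U x y)) * (M * (D g' ^ 2 / g' * cb D U x y)) :=
          mul_le_mul r6 r7 (hρ0 _ hp.1.2) (by positivity)
      _ = _ := by ring
  have hinj : Set.InjOn φ P := by
    intro p hp p' hp' h
    obtain ⟨g, g', x, y, _, _, _, _, _, q1, q2, q3, q4, hφp⟩ := hst p hp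
    obtain ⟨g1, g1', x1, y1, _, _, _, _, _, t1, t2, t3, t4, hφp'⟩ := hst p' hp'
    rw [hφp, hφp'] at h
    simp only [Prod.mk.injEq] at h
    obtain ⟨⟨k1, k2⟩, k3, k4⟩ := h
    subst k1 k2 k3 k4
    refine Prod.ext (Prod.ext ?_ ?_) (Prod.ext ?_ ?_)
    · rw [q1, t1]
    · rw [q2, t2]
    · rw [q3, t3]
    · rw [q4, t4]
  have hF0 : ∀ q, 0 ≤ F q := by
    intro q
    simp only [hF]
    positivity
  have h2 : ∑ p ∈ P, F (φ p) = ∑ q ∈ P.image φ, F q := (sum_image hinj).symm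
  have h3 : P.image φ ⊆ Q := by
    intro q hq
    rw [mem_image] at hq
    obtain ⟨p, hp, rfl⟩ := hq
    obtain ⟨g, g', x, y, hg, hg', hx, hy, hxy, q1, q2, q3, q4, hφp⟩ := hst p hp
    rw [hP, mem_filter, mem_product] at hp
    obtain ⟨a1, a2, a3, a4, a5⟩ := hZ _ hp.1.1
    obtain ⟨b1, b2, b3, b4, b5⟩ := hZ _ hp.1.2
    rw [hφp, hQ, mem_product, mem_filter, mem_product, mem_product, mem_Icc, mem_Icc, mem_Icc, mem_Icc]
    simp only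
    have l1 : x ≤ V := (Nat.le_mul_of_pos_left x hg).trans (by rw [← q1]; exact a2)
    have l2 : y ≤ V := (Nat.le_mul_of_pos_left y hg).trans (by rw [← q2]; exact a4)
    have l3 : g ≤ V := (Nat.le_mul_of_pos_right g hx).trans (by rw [← q1]; exact a2)
    have l4 : g' ≤ V := (Nat.le_mul_of_pos_right g' hx).trans (by rw [← q3]; exact b2)
    exact ⟨⟨⟨⟨hx, l1⟩, ⟨hy, l2⟩⟩, Ne.symm hxy⟩, ⟨hg, l3⟩, ⟨hg', l4⟩⟩
  refine (sum_le_sum h1).trans ?_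
  rw [h2]
  refine (sum_le_sum_of_subset_of_nonneg h3 fun q _ _ => hF0 q).trans ?_
  have h4 : ∑ q ∈ Q, F q = M ^ 2 * ((∑ g ∈ Icc 1 V, D g ^ 2 / g) * (∑ g ∈ Icc 1 V, D g ^ 2 / g) *
      ∑ a ∈ Icc 1 V, ∑ b ∈ (Icc 1 V).erase a, D a ^ 2 * D b ^ 2 / ((a : ℝ) * b) *
      Real.exp (-(U ^ 2 * (Real.log b - Real.log a) ^ 2 / 2))) := by
    have k1 : ∑ a ∈ Icc 1 V, ∑ b ∈ (Icc 1 V).erase a, D a ^ 2 * D b ^ 2 / ((a : ℝ) * b) *
        Real.exp (-(U ^ 2 * (Real.log b - Real.log a) ^ 2 / 2)) =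
        ∑ a ∈ (Icc 1 V ×ˢ Icc 1 V).filter (fun a => a.2 ≠ a.1),
          D a.1 ^ 2 * D a.2 ^ 2 / ((a.1 : ℝ) * a.2) *
          Real.exp (-(U ^ 2 * (Real.log a.2 - Real.log a.1) ^ 2 / 2)) := by
      rw [sum_filter, sum_product]
      refine sum_congr rfl fun a _ => ?_
      simp only
      rw [← sum_filter]
      refine sum_congr ?_ fun _ _ => rfl
      ext b
      rw [mem_erase, mem_filter]
      tauto
    rw [k1, hQ]
    exact prod_split _ _ (fun g => D g ^ 2 / g) (fun a => D a.1 ^ 2 * D a.2 ^ 2 / ((a.1 : ℝ) * a.2) *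
          Real.exp (-(U ^ 2 * (Real.log a.2 - Real.log a.1) ^ 2 / 2))) (M ^ 2)
  rw [h4]
  have h5 := off_sum D V U hU
  calc _ ≤ M ^ 2 * ((∑ g ∈ Icc 1 V, D g ^ 2 / g) * (∑ g ∈ Icc 1 V, D g ^ 2 / g) *
      (3 * (1 + Real.log V) / U * ∑ a ∈ Icc 1 V, D a ^ 4 / a)) := by
        refine mul_le_mul_of_nonneg_left (mul_le_mul_of_nonneg_left h5 ?_) (sq_nonneg _)
        exact mul_self_nonneg _
    _ = _ := by ring

end

end Pool.Agent.K1H84.MW
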