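import Pool.Agent.K1H84.MW.Bad

set_option autoImplicit false

/-! The window integrals of `ζ^j P` at a typical height. -/

namespace Pool.Agent.K1H84.MW

open Finset MeasureTheory Filter Topology
open Pool.Agent.H306R2

noncomputable section

/-- the window integral -/
def Wq (j N : ℕ) (q : ℕ → ℕ → ℝ) (U L τ : ℝ) : ℂ :=
  ∫ t in (τ - U * L)..(τ + U * L), riemannZeta (1 / 2 + t * Complex.I) ^ j * Pq N q t * (gw τ U t : ℂ)

lemma fr_cont' (a b : ℕ) : Continuous (H295MK.fr a b) := by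
  unfold H295MK.fr
  fun_prop

lemma Pq_cont (N : ℕ) (q : ℕ → ℕ → ℝ) : Continuous (Pq N q) := by
  unfold Pq
  exact continuous_finsetSum _ fun a _ => continuous_finsetSum _ fun b _ =>
    continuous_const.mul (fr_cont' a b)

lemma Wq_eq (j N : ℕ) (q : ℕ → ℕ → ℝ) (U L τ : ℝ) :
    Wq j N q U L τ = ∑ a ∈ Icc 1 N, ∑ b ∈ Icc 1 N, (q a b : ℂ) *
      ∫ t in (τ - U * L)..(τ + U * L),
        riemannZeta (1 / 2 + t * Complex.I) ^ j * H295MK.fr a b t * (gw τ U t : ℂ) := by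
  have hc : ∀ a b : ℕ, Continuous (fun t : ℝ => (q a b : ℂ) *
      (riemannZeta (1 / 2 + t * Complex.I) ^ j * H295MK.fr a b t * (gw τ U t : ℂ))) := by
    intro a b
    exact continuous_const.mul (((zeta_line_continuous.pow j).mul (fr_cont' _ _)).mul
      (Complex.continuous_ofReal.comp (gw_continuous _ _)))
  have e : ∑ a ∈ Icc 1 N, ∑ b ∈ Icc 1 N, (q a b : ℂ) *
      ∫ t in (τ - U * L)..(τ + U * L),
        riemannZeta (1 / 2 + t * Complex.I) ^ j * H295MK.fr a b t * (gw τ U t : ℂ) =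
      ∫ t in (τ - U * L)..(τ + U * L), ∑ a ∈ Icc 1 N, ∑ b ∈ Icc 1 N, (q a b : ℂ) *
      (riemannZeta (1 / 2 + t * Complex.I) ^ j * H295MK.fr a b t * (gw τ U t : ℂ)) := by
    rw [intervalIntegral.integral_finsetSum]
    · refine sum_congr rfl fun a _ => ?_
      rw [intervalIntegral.integral_finsetSum]
      · refine sum_congr rfl fun b _ => ?_
        rw [intervalIntegral.integral_const_mul]
      · intro b _
        exact (hc a b).intervalIntegrable _ _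
    · intro a _
      exact (continuous_finsetSum _ fun b _ => hc a b).intervalIntegrable _ _
  rw [e]
  unfold Wq
  refine intervalIntegral.integral_congr fun t _ => ?_
  unfold Pq
  rw [mul_sum, sum_mul]
  refine sum_congr rfl fun a _ => ?_
  rw [mul_sum, sum_mul]
  refine sum_congr rfl fun b _ => ?_
  ring

theorem typ_win (j J K : ℕ) :
    ∀ᶠ T : ℝ in atTop, ∀ U : ℝ, Real.log T ≤ U → U * Real.log T ≤ T / 8 → ∀ N : ℕ,
      (N : ℝ) ≤ T → ∀ q : ℕ → ℕ → ℝ, (∀ a b, 0 ≤ q a b) →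
      (∀ a b : ℕ, 1 ≤ a → 1 ≤ b →
        q a b ≤ Real.log T ^ K * (dv J a * dv J b / Real.sqrt ((a : ℝ) * b))) →
      ∀ τ ∈ Set.Icc T (3 * T), ‖Sz (Zn N) (ρq j N q U) τ‖ ≤ 1 →
        ‖Wq j N q U (Real.log T) τ - (Dg j N q : ℂ)‖ ≤ 2 := by
  have hlogT : ∀ᶠ T : ℝ in atTop, Real.log T ^ K ≤ T := by
    have h := (Real.isLittleO_pow_log_id_atTop (n := K)).bound one_pos
    filter_upwards [h, eventually_ge_atTop 1] with T h1 h2
    rw [one_mul, Real.norm_eq_abs, Real.norm_eq_abs, id, abs_of_nonneg (by linarith : (0:ℝ) ≤ T)] at h1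
    exact (le_abs_self _).trans h1
  filter_upwards [win_zeta j (2 * J + 3), hlogT, eventually_ge_atTop 1] with T hw hlogT hT1 U hU1 hU2 N hN q
    hq0 hq τ hτ hS
  have hT0 : 0 < T := by linarith
  set L := Real.log T with hL
  have hL0 : 0 ≤ L := Real.log_nonneg hT1
  have h1 : Wq j N q U L τ - (Dg j N q : ℂ) =
      (∑ a ∈ Icc 1 N, ∑ b ∈ Icc 1 N, (q a b : ℂ) *
        ((∫ t in (τ - U * L)..(τ + U * L),
          riemannZeta (1 / 2 + t * Complex.I) ^ j * H295MK.fr a b t * (gw τ U t : ℂ)) - Gc j U a b τ)) +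
      Sz (Zn N) (ρq j N q U) τ := by
    have h2 := expand j N q U τ
    rw [Wq_eq]
    simp only [mul_sub, sum_sub_distrib]
    rw [h2]
    ring
  rw [h1]
  refine (norm_add_le _ _).trans ?_
  have h3 : ‖∑ a ∈ Icc 1 N, ∑ b ∈ Icc 1 N, (q a b : ℂ) *
        ((∫ t in (τ - U * L)..(τ + U * L),
          riemannZeta (1 / 2 + t * Complex.I) ^ j * H295MK.fr a b t * (gw τ U t : ℂ)) - Gc j U a b τ)‖ ≤
      ∑ a ∈ Icc 1 N, ∑ b ∈ Icc 1 N, T ^ (2 * J + 1) * (1 / T ^ (2 * J + 3)) := by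
    refine norm_sum_le_of_le _ fun a ha => norm_sum_le_of_le _ fun b hb => ?_
    rw [mem_Icc] at ha hb
    have ha0 : (1 : ℝ) ≤ a := by exact_mod_cast ha.1
    have hb0 : (1 : ℝ) ≤ b := by exact_mod_cast hb.1
    have haT : (a : ℝ) ≤ T := le_trans (by exact_mod_cast ha.2) hN
    have hbT : (b : ℝ) ≤ T := le_trans (by exact_mod_cast hb.2) hN
    have hw1 := hw τ U (by linarith [hτ.1]) (by linarith [hτ.2]) hU1 hU2 a b ha.1 haT hb.1 hbT
    rw [norm_mul, Complex.norm_real, Real.norm_of_nonneg (hq0 a b)]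
    refine mul_le_mul ?_ hw1 (norm_nonneg _) (by positivity)
    have d : ∀ n : ℕ, (n : ℝ) ≤ T → dv (J : ℝ) n ≤ T ^ J := by
      intro n hn
      have h := PB_dA (Nat.cast_nonneg J : (0:ℝ) ≤ J) (le_refl (J : ℝ)) n
      rw [dA_apply] at h
      exact (le_abs_self _).trans (h.trans (pow_le_pow_left₀ (Nat.cast_nonneg n) hn J))
    have d1 := d a haT
    have d2 := d b hbT
    have d3 : 0 ≤ dv (J : ℝ) a := dv_nonneg (Nat.cast_nonneg J) _
    have d4 : 0 ≤ dv (J : ℝ) b := dv_nonneg (Nat.cast_nonneg J) _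
    have hs : 1 ≤ Real.sqrt ((a : ℝ) * b) := Real.one_le_sqrt.2 (by nlinarith)
    calc q a b ≤ L ^ K * (dv J a * dv J b / Real.sqrt ((a : ℝ) * b)) := hq a b ha.1 hb.1
      _ ≤ T * (T ^ J * T ^ J) := by
          refine mul_le_mul hlogT ?_ (by positivity) hT0.le
          exact (div_le_self (mul_nonneg d3 d4) hs).trans (mul_le_mul d1 d2 d4 (by positivity))
      _ = T ^ (2 * J + 1) := by ring
  have h4 : ∑ _a ∈ Icc 1 N, ∑ _b ∈ Icc 1 N, T ^ (2 * J + 1) * (1 / T ^ (2 * J + 3)) ≤ 1 := by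
    simp only [sum_const, Nat.card_Icc, Nat.add_sub_cancel, nsmul_eq_mul]
    calc (N : ℝ) * ((N : ℝ) * (T ^ (2 * J + 1) * (1 / T ^ (2 * J + 3)))) ≤
        T * (T * (T ^ (2 * J + 1) * (1 / T ^ (2 * J + 3)))) := by gcongr
      _ = T ^ (2 * J + 3) * (1 / T ^ (2 * J + 3)) := by ring
      _ = 1 := mul_one_div_cancel (by positivity)
  linarith

/-- sums over an index set, by pairs -/
lemma pair_sum {ι : Type*} (I : Finset ι) (g : ι → ℝ) (α β : ι → ℕ) (N : ℕ)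
    (hα : ∀ i ∈ I, α i ∈ Icc 1 N) (hβ : ∀ i ∈ I, β i ∈ Icc 1 N) (F : ℕ → ℕ → ℂ) :
    ∑ a ∈ Icc 1 N, ∑ b ∈ Icc 1 N,
      ((∑ i ∈ I, (if α i = a ∧ β i = b then g i else 0) : ℝ) : ℂ) * F a b =
      ∑ i ∈ I, (g i : ℂ) * F (α i) (β i) := by
  have h1 : ∀ a b : ℕ, ((∑ i ∈ I, (if α i = a ∧ β i = b then g i else 0) : ℝ) : ℂ) * F a b =
      ∑ i ∈ I, (if α i = a ∧ β i = b then (g i : ℂ) * F a b else 0) := by
    intro a b
    push_cast
    rw [sum_mul]
    refine sum_congr rfl fun i _ => ?_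
    split_ifs
    · rfl
    · simp
  simp only [h1]
  have h2 : ∑ a ∈ Icc 1 N, ∑ b ∈ Icc 1 N, ∑ i ∈ I,
      (if α i = a ∧ β i = b then (g i : ℂ) * F a b else 0) =
      ∑ i ∈ I, ∑ a ∈ Icc 1 N, ∑ b ∈ Icc 1 N,
      (if α i = a ∧ β i = b then (g i : ℂ) * F a b else 0) := by
    calc _ = ∑ a ∈ Icc 1 N, ∑ i ∈ I, ∑ b ∈ Icc 1 N,
          (if α i = a ∧ β i = b then (g i : ℂ) * F a b else 0) :=
          sum_congr rfl fun a _ => sum_comm
      _ = _ := sum_comm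
  rw [h2]
  refine sum_congr rfl fun i hi => ?_
  rw [sum_eq_single (α i), sum_eq_single (β i)]
  · rw [if_pos ⟨rfl, rfl⟩]
  · intro b _ hb
    rw [if_neg]
    rintro ⟨_, h⟩
    exact hb h.symm
  · intro h
    exact absurd (hβ i hi) h
  · intro a _ ha
    refine sum_eq_zero fun b _ => ?_
    rw [if_neg]
    rintro ⟨h, _⟩
    exact ha h.symm
  · intro h
    exact absurd (hα i hi) h

lemma pair_sumR {ι : Type*} (I : Finset ι) (g : ι → ℝ) (α β : ι → ℕ) (N : ℕ)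
    (hα : ∀ i ∈ I, α i ∈ Icc 1 N) (hβ : ∀ i ∈ I, β i ∈ Icc 1 N) (F : ℕ → ℕ → ℝ) :
    ∑ a ∈ Icc 1 N, ∑ b ∈ Icc 1 N,
      (∑ i ∈ I, (if α i = a ∧ β i = b then g i else 0)) * F a b =
      ∑ i ∈ I, g i * F (α i) (β i) := by
  have h := pair_sum I g α β N hα hβ (fun a b => (F a b : ℂ))
  have h2 : ((∑ a ∈ Icc 1 N, ∑ b ∈ Icc 1 N,
      (∑ i ∈ I, (if α i = a ∧ β i = b then g i else 0)) * F a b : ℝ) : ℂ) =
      ((∑ i ∈ I, g i * F (α i) (β i) : ℝ) : ℂ) := by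
    push_cast
    push_cast at h
    exact h
  exact_mod_cast h2

end

end Pool.Agent.K1H84.MW
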