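import Pool.Agent.K1H84.MW.Mean

set_option autoImplicit false

/-! Window integrals of `ζ^j P` for typical windows. -/

namespace Pool.Agent.K1H84.MW

open Finset MeasureTheory Filter Topology
open Pool.Agent.H306R2
open Pool.Agent.H802R2.MK (dl dl_self dl_ne PB_dl Dp_dl pt)

noncomputable section

/-- the polynomial `Σ q(a,b) (b/a)^{it}` -/
def Pq (N : ℕ) (q : ℕ → ℕ → ℝ) (t : ℝ) : ℂ :=
  ∑ a ∈ Icc 1 N, ∑ b ∈ Icc 1 N, (q a b : ℂ) * H295MK.fr a b t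

/-- the diagonal term -/
def Dg (j N : ℕ) (q : ℕ → ℕ → ℝ) : ℝ := ∑ a ∈ Icc 1 N, ∑ b ∈ Icc 1 N, q a b * H295MK.mt j a b

/-- the coefficient of `(b/n)^{it}` in `ζ^j P` -/
def rq (j N : ℕ) (q : ℕ → ℕ → ℝ) (n b : ℕ) : ℝ :=
  ∑ a ∈ Icc 1 N, q a b * ((zR ^ j * dl a) n * Real.sqrt ((a : ℝ) / n))

lemma dlm (j : ℕ) {a n : ℕ} (ha : 1 ≤ a) (hn : 1 ≤ n) :
    (zR ^ j * dl a) n = if a ∣ n then dv j (n / a) else 0 := by
  have h := Pool.Agent.H802R2.MK.main_dl j ha hn (Y := n) le_rfl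
  rw [sum_eq_single n] at h
  · rw [dl_self hn, mul_one] at h
    have hn0 : (n : ℝ) ≠ 0 := by
      have : n ≠ 0 := by omega
      exact_mod_cast this
    exact (div_left_inj' hn0).1 h
  · intro m _ hm
    rw [dl_ne hm]; simp
  · intro h
    exact absurd (mem_Icc.2 ⟨hn, by rw [Nat.floor_natCast]⟩) h

lemma dlm_nonneg (j : ℕ) {a : ℕ} (ha : 1 ≤ a) (n : ℕ) : 0 ≤ (zR ^ j * dl a) n := by
  rcases Nat.eq_zero_or_pos n with h | h
  · subst h; simp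
  · rw [dlm j ha h]
    split_ifs
    · exact dv_nonneg (Nat.cast_nonneg j) _
    · exact le_rfl

lemma rq_diag (j N : ℕ) (q : ℕ → ℕ → ℝ) {b : ℕ} (hb : 1 ≤ b) :
    rq j N q b b = ∑ a ∈ Icc 1 N, q a b * H295MK.mt j a b := by
  unfold rq
  refine sum_congr rfl fun a ha => ?_
  rw [mem_Icc] at ha
  rw [dlm j ha.1 hb]
  unfold H295MK.mt
  split_ifs <;> simp

/-- the coefficients off the diagonal -/
def ρq (j N : ℕ) (q : ℕ → ℕ → ℝ) (U : ℝ) (z : ℕ × ℕ) : ℝ :=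
  rq j N q z.1 z.2 * Real.exp (-(U ^ 2 * (Real.log z.2 - Real.log z.1) ^ 2 / 4))

/-- the pairs off the diagonal -/
def Zn (N : ℕ) : Finset (ℕ × ℕ) :=
  (Icc 1 (2 * N) ×ˢ Icc 1 N).filter (fun z => z.1 ≤ 2 * z.2 ∧ z.1 ≠ z.2)

lemma mem_Zn {N : ℕ} {z : ℕ × ℕ} (hz : z ∈ Zn N) :
    1 ≤ z.1 ∧ z.1 ≤ 2 * N ∧ 1 ≤ z.2 ∧ z.2 ≤ 2 * N ∧ z.1 ≠ z.2 := by
  unfold Zn at hz
  rw [mem_filter, mem_product, mem_Icc, mem_Icc] at hz
  omega

lemma tm_eq (j : ℕ) (U : ℝ) (a b n : ℕ) (τ : ℝ) :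
    tm (fun n => (zR ^ j * dl a) n) U a b n τ =
      (((zR ^ j * dl a) n * Real.sqrt ((a : ℝ) / n) : ℝ) : ℂ) *
      ((Real.exp (-(U ^ 2 * (Real.log b - Real.log n) ^ 2 / 4)) : ℝ) : ℂ) * H295MK.fr n b τ := by
  unfold tm
  push_cast
  ring

lemma expand (j N : ℕ) (q : ℕ → ℕ → ℝ) (U τ : ℝ) :
    ∑ a ∈ Icc 1 N, ∑ b ∈ Icc 1 N, (q a b : ℂ) * Gc j U a b τ =
      (Dg j N q : ℂ) + Sz (Zn N) (ρq j N q U) τ := by
  have h1 : ∑ a ∈ Icc 1 N, ∑ b ∈ Icc 1 N, (q a b : ℂ) * Gc j U a b τ =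
      ∑ b ∈ Icc 1 N, ∑ n ∈ Icc 1 (2 * b), ((rq j N q n b : ℝ) : ℂ) *
        (((Real.exp (-(U ^ 2 * (Real.log b - Real.log n) ^ 2 / 4)) : ℝ) : ℂ) * H295MK.fr n b τ) := by
    rw [sum_comm]
    refine sum_congr rfl fun b _ => ?_
    unfold Gc
    simp only [mul_sum]
    rw [sum_comm]
    refine sum_congr rfl fun n _ => ?_
    unfold rq
    push_cast
    rw [sum_mul]
    refine sum_congr rfl fun a _ => ?_
    rw [tm_eq]
    push_cast
    ring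
  rw [h1]
  have h2 : ∀ b ∈ Icc 1 N, ∑ n ∈ Icc 1 (2 * b), ((rq j N q n b : ℝ) : ℂ) *
        (((Real.exp (-(U ^ 2 * (Real.log b - Real.log n) ^ 2 / 4)) : ℝ) : ℂ) * H295MK.fr n b τ) =
      ((rq j N q b b : ℝ) : ℂ) + ∑ n ∈ (Icc 1 (2 * b)).filter (fun n => n ≠ b),
        ((ρq j N q U (n, b) : ℝ) : ℂ) * H295MK.fr n b τ := by
    intro b hb
    rw [mem_Icc] at hb
    have hmem : b ∈ Icc 1 (2 * b) := by rw [mem_Icc]; omega
    rw [← add_sum_erase _ _ hmem]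
    congr 1
    · rw [sub_self]
      have : H295MK.fr b b τ = 1 := by
        unfold H295MK.fr
        simp
      rw [this]
      simp
    · have he : (Icc 1 (2 * b)).erase b = (Icc 1 (2 * b)).filter (fun n => n ≠ b) := by
        ext n
        rw [mem_erase, mem_filter]
        tauto
      rw [he]
      refine sum_congr rfl fun n _ => ?_
      unfold ρq
      simp only
      push_cast
      ring
  rw [sum_congr rfl h2, sum_add_distrib]
  congr 1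
  · unfold Dg
    rw [← Complex.ofReal_sum, sum_comm]
    congr 1
    refine sum_congr rfl fun b hb => ?_
    rw [mem_Icc] at hb
    exact rq_diag j N q hb.1
  · unfold Sz Zn
    rw [sum_filter, sum_product_right]
    refine sum_congr rfl fun b hb => ?_
    rw [mem_Icc] at hb
    simp only
    rw [← sum_filter]
    refine sum_congr ?_ fun _ _ => rfl
    ext n
    rw [mem_filter, mem_filter, mem_Icc, mem_Icc]
    constructor
    · rintro ⟨h1, h2⟩; exact ⟨by omega, by omega, h2⟩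
    · rintro ⟨h1, h2, h3⟩; exact ⟨by omega, h3⟩

lemma rq_le (j N J : ℕ) (q : ℕ → ℕ → ℝ) (M : ℝ) (hM : 0 ≤ M)
    (hq : ∀ a b : ℕ, 1 ≤ a → 1 ≤ b → q a b ≤ M * (dv J a * dv J b / Real.sqrt ((a : ℝ) * b)))
    {n b : ℕ} (hn : 1 ≤ n) (hb : 1 ≤ b) :
    rq j N q n b ≤ M * (dv ((J + j : ℕ) : ℝ) n * dv ((J + j : ℕ) : ℝ) b / Real.sqrt ((n : ℝ) * b)) := by
  have hJ0 : (0 : ℝ) ≤ J := Nat.cast_nonneg J
  have hj0 : (0 : ℝ) ≤ j := Nat.cast_nonneg j
  have hn0 : (0 : ℝ) < n := by exact_mod_cast hn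
  have hb0 : (0 : ℝ) < b := by exact_mod_cast hb
  have h1 : ∀ a ∈ Icc 1 N, q a b * ((zR ^ j * dl a) n * Real.sqrt ((a : ℝ) / n)) ≤
      M * (dv J b / Real.sqrt ((n : ℝ) * b)) * (if a ∣ n then dv J a * dv j (n / a) else 0) := by
    intro a ha
    rw [mem_Icc] at ha
    have ha0 : (0 : ℝ) < a := by exact_mod_cast ha.1
    have e1 := dlm_nonneg j ha.1 n
    have e2 := hq a b ha.1 hb
    calc q a b * ((zR ^ j * dl a) n * Real.sqrt ((a : ℝ) / n)) ≤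
        M * (dv J a * dv J b / Real.sqrt ((a : ℝ) * b)) *
          ((zR ^ j * dl a) n * Real.sqrt ((a : ℝ) / n)) :=
          mul_le_mul_of_nonneg_right e2 (by positivity)
      _ = _ := by
          rw [dlm j ha.1 hn]
          split_ifs
          · rw [Real.sqrt_mul ha0.le, Real.sqrt_div ha0.le, Real.sqrt_mul hn0.le]
            have q1 : Real.sqrt (a : ℝ) ≠ 0 := (Real.sqrt_pos.2 ha0).ne'
            have q2 : Real.sqrt (n : ℝ) ≠ 0 := (Real.sqrt_pos.2 hn0).ne'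
            have q3 : Real.sqrt (b : ℝ) ≠ 0 := (Real.sqrt_pos.2 hb0).ne'
            field_simp
          · simp
  unfold rq
  refine (sum_le_sum h1).trans ?_
  rw [← mul_sum]
  have h2 : ∑ a ∈ Icc 1 N, (if a ∣ n then dv J a * dv j (n / a) else 0) ≤
      dv ((J + j : ℕ) : ℝ) n := by
    have e3 : dv ((J + j : ℕ) : ℝ) n = ∑ a ∈ n.divisors, dv J a * dv j (n / a) := by
      have e4 : dv ((J + j : ℕ) : ℝ) n = (dA J * dA j) n := by
        rw [dA_mul, dA_apply]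
        push_cast
        rfl
      rw [e4, ArithmeticFunction.mul_apply]
      exact Nat.sum_divisorsAntidiagonal (fun x y => dA J x * dA j y)
    rw [e3, ← sum_filter]
    refine sum_le_sum_of_subset_of_nonneg ?_ fun a _ _ =>
      mul_nonneg (dv_nonneg hJ0 _) (dv_nonneg hj0 _)
    intro a ha
    rw [mem_filter] at ha
    rw [Nat.mem_divisors]
    exact ⟨ha.2, by omega⟩
  have h3 : dv J b ≤ dv ((J + j : ℕ) : ℝ) b := dv_mono hJ0 (by push_cast; linarith) b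
  have h4 := dv_nonneg hJ0 b
  have h5 := dv_nonneg (Nat.cast_nonneg (J + j)) n
  calc _ ≤ M * (dv J b / Real.sqrt ((n : ℝ) * b)) * dv ((J + j : ℕ) : ℝ) n :=
        mul_le_mul_of_nonneg_left h2 (by positivity)
    _ ≤ M * (dv ((J + j : ℕ) : ℝ) b / Real.sqrt ((n : ℝ) * b)) * dv ((J + j : ℕ) : ℝ) n := by
        gcongr
    _ = _ := by ring

lemma rq_nonneg (j N : ℕ) (q : ℕ → ℕ → ℝ) (hq : ∀ a b, 0 ≤ q a b) (n b : ℕ) : 0 ≤ rq j N q n b := by
  unfold rq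
  refine sum_nonneg fun a ha => ?_
  rw [mem_Icc] at ha
  have := dlm_nonneg j ha.1 n
  have := hq a b
  positivity

end

end Pool.Agent.K1H84.MW
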